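import Pool.Agent.Lib.MP_cff830_lc.Deg.Stmts

/-!
# D6. The analytic part
-/

set_option autoImplicit false

namespace Pool.Agent.Lib.MP_cff830_lc.Deg

open Finset Pool.Agent.Lib.MP_cff830_lc.AC0

namespace AnAux

open Polynomial in
/-- Markov's inequality at the endpoint. -/
lemma markov_one {n : ℕ} {P : ℝ[X]} (hP : P.natDegree ≤ n)
    (hb : ∀ x ∈ Set.Icc (-1 : ℝ) 1, |P.eval x| ≤ 1) : (derivative P).eval 1 ≤ (n : ℝ) ^ 2 := by
  have h1 := Chebyshev.eval_iterate_derivative_le_of_forall_abs_le_one (n := n) (P := P) (k := 1)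
    (x := 1) le_rfl (natDegree_le_iff_degree_le.mp hP) hb
  have h2 := Chebyshev.iterate_derivative_T_eval_one (R := ℝ) (n : ℤ) 1
  have h3 : (derivative^[1] (Chebyshev.T ℝ (n : ℤ))).eval 1 = (n : ℝ) ^ 2 := by
    simpa using h2
  rw [h3] at h1
  simpa using h1

open Polynomial in
lemma markov_abs {n : ℕ} {P : ℝ[X]} (hP : P.natDegree ≤ n) {M : ℝ} (hM : 0 < M)
    (hb : ∀ x ∈ Set.Icc (-1 : ℝ) 1, |P.eval x| ≤ M) :
    |(derivative P).eval 1| ≤ (n : ℝ) ^ 2 * M := by
  have key : ∀ s : ℝ, |s| = M⁻¹ → (derivative (C s * P)).eval 1 ≤ (n : ℝ) ^ 2 := by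
    intro s hs
    refine markov_one ((natDegree_C_mul_le _ _).trans hP) ?_
    intro x hx
    rw [eval_mul, eval_C, abs_mul, hs]
    have := hb x hx
    rw [inv_mul_le_iff₀ hM]
    linarith
  have h1 := key M⁻¹ (abs_of_pos (inv_pos.mpr hM))
  have h2 := key (-M⁻¹) (by rw [abs_neg, abs_of_pos (inv_pos.mpr hM)])
  rw [derivative_C_mul, eval_mul, eval_C] at h1 h2
  rw [abs_le]
  have h3 : M * (M⁻¹ * (derivative P).eval 1) = (derivative P).eval 1 := by
    rw [← mul_assoc, mul_inv_cancel₀ hM.ne', one_mul]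
  have h4 := mul_le_mul_of_nonneg_left h1 hM.le
  have h5 := mul_le_mul_of_nonneg_left h2 hM.le
  rw [h3] at h4
  rw [neg_mul, mul_neg, h3] at h5
  constructor <;> linarith

open Polynomial in
lemma markov_aff {n : ℕ} {p : ℝ[X]} (hp : p.natDegree ≤ n) {M : ℝ} (hM : 0 < M) {u v a b : ℝ}
    (hb : ∀ x ∈ Set.Icc u v, |p.eval x| ≤ M)
    (hab : ∀ t ∈ Set.Icc (-1 : ℝ) 1, a * t + b ∈ Set.Icc u v) :
    |(derivative p).eval (a + b)| * |a| ≤ (n : ℝ) ^ 2 * M := by
  have h1 : (p.comp (C a * X + C b)).natDegree ≤ n := by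
    refine natDegree_comp_le.trans ?_
    have : (C a * X + C b : ℝ[X]).natDegree ≤ 1 := natDegree_linear_le
    calc p.natDegree * (C a * X + C b : ℝ[X]).natDegree ≤ p.natDegree * 1 :=
          Nat.mul_le_mul_left _ this
      _ ≤ n := by rw [mul_one]; exact hp
  have h2 := markov_abs h1 hM (by
    intro t ht
    have := hb _ (hab t ht)
    simpa [eval_comp] using this)
  rw [derivative_comp] at h2
  simp only [derivative_add, derivative_mul, derivative_C, zero_mul, derivative_X, mul_one,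
    zero_add, add_zero, eval_mul, eval_C, eval_comp, eval_add, eval_X] at h2
  rw [abs_mul, mul_comm] at h2
  exact h2

open Polynomial in
/-- Markov's inequality with a factor two. -/
lemma markov {n : ℕ} {p : ℝ[X]} (hp : p.natDegree ≤ n) {M : ℝ} (hM : 0 < M) {u v : ℝ}
    (huv : u < v) (hb : ∀ x ∈ Set.Icc u v, |p.eval x| ≤ M) {x : ℝ} (hx : x ∈ Set.Icc u v) :
    |(derivative p).eval x| ≤ 4 * (n : ℝ) ^ 2 * M / (v - u) := by
  have hvu : 0 < v - u := by linarith
  rw [le_div_iff₀ hvu]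
  have h0 : 0 ≤ |(derivative p).eval x| := abs_nonneg _
  rcases le_total ((u + v) / 2) x with h | h
  · have h1 := markov_aff (a := (x - u) / 2) (b := (x + u) / 2) hp hM hb (by
      rintro t ⟨ht1, ht2⟩
      have : 0 ≤ (x - u) / 2 := by linarith [hx.1]
      constructor
      · nlinarith [hx.1, hx.2]
      · nlinarith [hx.1, hx.2])
    have h2 : |(x - u) / 2| = (x - u) / 2 := abs_of_nonneg (by linarith [hx.1])
    rw [show (x - u) / 2 + (x + u) / 2 = x by ring, h2] at h1
    have h3 := mul_le_mul_of_nonneg_left (show (v - u) / 4 ≤ (x - u) / 2 by linarith) h0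
    linarith
  · have h1 := markov_aff (a := -((v - x) / 2)) (b := (x + v) / 2) hp hM hb (by
      rintro t ⟨ht1, ht2⟩
      have : 0 ≤ (v - x) / 2 := by linarith [hx.2]
      constructor
      · nlinarith [hx.1, hx.2]
      · nlinarith [hx.1, hx.2])
    have h2 : |-((v - x) / 2)| = (v - x) / 2 := by
      rw [abs_neg]
      exact abs_of_nonneg (by linarith [hx.2])
    rw [show -((v - x) / 2) + (x + v) / 2 = x by ring, h2] at h1
    have h3 := mul_le_mul_of_nonneg_left (show (v - u) / 4 ≤ (v - x) / 2 by linarith) h0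
    linarith

open Polynomial in
lemma lipschitz {n : ℕ} {p : ℝ[X]} (hp : p.natDegree ≤ n) {M : ℝ} (hM : 0 < M) {u v : ℝ}
    (huv : u < v) (hb : ∀ x ∈ Set.Icc u v, |p.eval x| ≤ M) {x y : ℝ} (hx : x ∈ Set.Icc u v)
    (hy : y ∈ Set.Icc u v) :
    |p.eval x - p.eval y| ≤ 4 * (n : ℝ) ^ 2 * M / (v - u) * |x - y| := by
  have h1 := (convex_Icc u v).norm_image_sub_le_of_norm_hasDerivWithin_le
    (f := fun t => p.eval t) (f' := fun t => (derivative p).eval t)
    (C := 4 * (n : ℝ) ^ 2 * M / (v - u))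
    (fun t _ => (p.hasDerivAt t).hasDerivWithinAt)
    (fun t ht => by rw [Real.norm_eq_abs]; exact markov hp hM huv hb ht) hy hx
  simpa [Real.norm_eq_abs] using h1

open Polynomial in
/-- Lemma Z. -/
lemma lemZ {n : ℕ} {p : ℝ[X]} (hp : p.natDegree ≤ n) {B : ℝ} (hB : 0 < B) {u v : ℝ}
    (huv : u < v) (hlen : 8 * (n : ℝ) ^ 2 ≤ v - u)
    (hb : ∀ x ∈ Set.Icc u v, ∃ k ∈ Set.Icc u v, |x - k| ≤ 1 ∧ |p.eval k| ≤ B) {x : ℝ}
    (hx : x ∈ Set.Icc u v) : |p.eval x| ≤ 2 * B := by
  have hvu : 0 < v - u := by linarith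
  obtain ⟨x0, hx0, hmax⟩ := isCompact_Icc.exists_isMaxOn (s := Set.Icc u v)
    ⟨x, hx⟩ (f := fun t => |p.eval t|) (p.continuous.abs.continuousOn)
  have hmax' : ∀ t ∈ Set.Icc u v, |p.eval t| ≤ |p.eval x0| := fun t ht => hmax ht
  rcases (abs_nonneg (p.eval x0)).eq_or_lt with h0 | h0
  · have := hmax' x hx
    rw [← h0] at this
    linarith
  · obtain ⟨k, hk, hk1, hk2⟩ := hb x0 hx0
    have h1 := lipschitz hp h0 huv hmax' hx0 hk
    have h2 : 4 * (n : ℝ) ^ 2 * |p.eval x0| / (v - u) ≤ |p.eval x0| / 2 := by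
      rw [div_le_div_iff₀ hvu two_pos]
      nlinarith
    have h3 : |p.eval x0 - p.eval k| ≤ |p.eval x0| / 2 := by
      refine h1.trans ?_
      have h4 : 0 ≤ 4 * (n : ℝ) ^ 2 * |p.eval x0| / (v - u) := by positivity
      calc _ ≤ 4 * (n : ℝ) ^ 2 * |p.eval x0| / (v - u) * 1 := mul_le_mul_of_nonneg_left hk1 h4
        _ ≤ _ := by rw [mul_one]; exact h2
    have h5 : |p.eval x0| ≤ |p.eval x0 - p.eval k| + |p.eval k| := by
      have := abs_add_le (p.eval x0 - p.eval k) (p.eval k)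
      rwa [sub_add_cancel] at this
    have := hmax' x hx
    linarith

section

open MvPolynomial

/-- The first polynomial. -/
noncomputable def pg (q : MvPolynomial (Fin 2) ℝ) (D : ℕ) (t : ℝ) : Polynomial ℝ :=
  ∑ d ∈ q.support, Polynomial.C (coeff d q * t ^ (d 0)) * Polynomial.X ^ (d 0 + (D - d 1))

/-- The second polynomial. -/
noncomputable def ps (q : MvPolynomial (Fin 2) ℝ) (x t : ℝ) : Polynomial ℝ :=
  ∑ d ∈ q.support, Polynomial.C (coeff d q * x ^ (d 0) * t ^ (d 1)) * Polynomial.X ^ (d 1)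

variable {q : MvPolynomial (Fin 2) ℝ} {A D : ℕ}

lemma deg_le {i : Fin 2} {B : ℕ} (h : q.degreeOf i ≤ B) {d : Fin 2 →₀ ℕ} (hd : d ∈ q.support) :
    d i ≤ B := (degreeOf_le_iff.mp h) d hd

lemma natDegree_pg (h0 : q.degreeOf 0 ≤ A) (t : ℝ) : (pg q D t).natDegree ≤ A + D := by
  unfold pg
  refine Polynomial.natDegree_sum_le_of_forall_le _ _ ?_
  intro d hd
  refine (Polynomial.natDegree_C_mul_X_pow_le _ _).trans ?_
  have := deg_le h0 hd
  omega

lemma natDegree_ps (h1 : q.degreeOf 1 ≤ D) (x t : ℝ) : (ps q x t).natDegree ≤ D := by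
  unfold ps
  refine Polynomial.natDegree_sum_le_of_forall_le _ _ ?_
  intro d hd
  exact (Polynomial.natDegree_C_mul_X_pow_le _ _).trans (deg_le h1 hd)

lemma eval_two (x y : ℝ) : eval ![x, y] q = ∑ d ∈ q.support, coeff d q * (x ^ (d 0) * y ^ (d 1)) := by
  rw [eval_eq']
  refine Finset.sum_congr rfl fun d _ => ?_
  rw [Fin.prod_univ_two]
  rfl

lemma eval_pg (h1 : q.degreeOf 1 ≤ D) (t : ℝ) {m : ℝ} (hm : m ≠ 0) :
    (pg q D t).eval m = m ^ D * eval ![t * m, 1 / m] q := by
  unfold pg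
  rw [eval_two, Polynomial.eval_finsetSum, Finset.mul_sum]
  refine Finset.sum_congr rfl fun d hd => ?_
  have h2 := deg_le h1 hd
  rw [Polynomial.eval_mul, Polynomial.eval_C, Polynomial.eval_pow, Polynomial.eval_X]
  have h3 : m ^ D = m ^ (D - d 1) * m ^ (d 1) := by
    rw [← pow_add]
    congr 1
    omega
  rw [h3, mul_pow, div_pow, one_pow, pow_add]
  field_simp

lemma eval_ps (x t y : ℝ) : (ps q x t).eval y = eval ![x, t * y] q := by
  unfold ps
  rw [eval_two, Polynomial.eval_finsetSum]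
  refine Finset.sum_congr rfl fun d _ => ?_
  rw [Polynomial.eval_mul, Polynomial.eval_C, Polynomial.eval_pow, Polynomial.eval_X, mul_pow]
  ring

end

end AnAux

open AnAux MvPolynomial in
theorem stAn : StAn := by
  intro q A D c M R N hc hR h0 h1 hb hDR hN
  have hcR : 0 < c * R := Nat.mul_pos hc hR
  have hNpos : 0 < N := by
    have : 1 ≤ c * R * (8 * (A + D) ^ 2 + M + 1) := Nat.mul_pos hcR (by omega)
    omega
  have hN' : (0 : ℝ) < N := by exact_mod_cast hNpos
  have hR' : (0 : ℝ) < R := by exact_mod_cast hR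
  have hc' : (0 : ℝ) < c := by exact_mod_cast hc
  -- the values at the integers
  have step1 : ∀ l : ℕ, 1 ≤ l → l ≤ R → |eval ![(N : ℝ), c * l / N] q| ≤ 2 := by
    intro l hl1 hlR
    have hl' : (0 : ℝ) < l := by exact_mod_cast hl1
    have hcl : 0 < c * l := Nat.mul_pos hc hl1
    have hcl' : (0 : ℝ) < c * l := by positivity
    set b : ℕ := N / (c * l) with hbdef
    set a : ℕ := max M 1 with hadef
    have hbN : c * l * b ≤ N := Nat.mul_div_le N (c * l)
    have hbig : 8 * (A + D) ^ 2 + M + 1 ≤ b := by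
      rw [hbdef, Nat.le_div_iff_mul_le hcl, mul_comm]
      exact (Nat.mul_le_mul_right _ (Nat.mul_le_mul_left c hlR)).trans hN
    have ha1 : 1 ≤ a := le_max_right _ _
    have haM : M ≤ a := le_max_left _ _
    have haM' : a ≤ M + 1 := max_le (by omega) (by omega)
    set ms : ℝ := (N : ℝ) / (c * l) with hms
    have hms0 : 0 < ms := by positivity
    have hbms : (b : ℝ) ≤ ms := by
      rw [hms, le_div_iff₀ hcl']
      have : ((c * l * b : ℕ) : ℝ) ≤ N := by exact_mod_cast hbN
      push_cast at this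
      linarith
    have hmsb : ms ≤ b + 1 := by
      rw [hms, div_le_iff₀ hcl']
      have h2 : N < c * l * (b + 1) := Nat.lt_mul_div_succ N hcl
      have : ((N : ℕ) : ℝ) ≤ ((c * l * (b + 1) : ℕ) : ℝ) := by exact_mod_cast h2.le
      push_cast at this
      linarith
    have hab : a ≤ b := by omega
    have habr : (a : ℝ) ≤ b := by exact_mod_cast hab
    have ha1r : (1 : ℝ) ≤ a := by exact_mod_cast ha1
    have hms1 : 0 < ms ^ D := by positivity
    have hlen : 8 * (((A + D : ℕ) : ℝ)) ^ 2 ≤ ((b : ℝ) + 1) - a := by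
      have : ((8 * (A + D) ^ 2 + a : ℕ) : ℝ) ≤ ((b + 1 : ℕ) : ℝ) := by
        have h2 : 8 * (A + D) ^ 2 + a ≤ b + 1 := by omega
        exact_mod_cast h2
      push_cast at this ⊢
      linarith
    have hZ := lemZ (p := pg q D (c * l)) (n := A + D) (natDegree_pg h0 _) hms1
      (u := a) (v := b + 1) (by linarith) hlen (by
        intro x hx
        -- the nearest integer on the left
        have hx0 : 0 ≤ x := by linarith [hx.1]
        have key : ∀ k : ℕ, a ≤ k → k ≤ b → |(pg q D (c * l)).eval (k : ℝ)| ≤ ms ^ D := by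
          intro k hk1 hk2
          have hk0 : (0 : ℝ) < k := by
            have : (a : ℝ) ≤ k := by exact_mod_cast hk1
            linarith
          rw [eval_pg h1 _ hk0.ne', abs_mul, abs_of_pos (pow_pos hk0 D)]
          have h2 := hb l k (by omega) (by omega) (by omega)
            ((Nat.mul_le_mul_left _ hk2).trans hbN)
          have h3 : (k : ℝ) ≤ ms := le_trans (by exact_mod_cast hk2) hbms
          calc (k : ℝ) ^ D * |eval ![(c : ℝ) * l * k, 1 / k] q| ≤ ms ^ D * 1 :=
                mul_le_mul (pow_le_pow_left₀ hk0.le h3 D) h2 (abs_nonneg _) (by positivity)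
            _ = ms ^ D := mul_one _
        rcases lt_or_ge x b with h | h
        · refine ⟨(⌊x⌋₊ : ℝ), ⟨?_, ?_⟩, ?_, key _ ?_ ?_⟩
          · have := Nat.le_floor hx.1
            exact_mod_cast this
          · have := Nat.floor_le hx0
            linarith
          · rw [abs_le]
            have h2 := Nat.floor_le hx0
            have h3 := (Nat.lt_floor_add_one x).le
            constructor <;> linarith
          · exact Nat.le_floor hx.1
          · have h2 := Nat.floor_le hx0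
            have : ((⌊x⌋₊ : ℕ) : ℝ) < b := lt_of_le_of_lt h2 h
            exact_mod_cast this.le
        · refine ⟨(b : ℝ), ⟨habr, by linarith⟩, ?_, key b hab le_rfl⟩
          rw [abs_le]
          constructor
          · linarith
          · linarith [hx.2])
      (x := ms) ⟨by linarith, hmsb⟩
    rw [eval_pg h1 _ hms0.ne', abs_mul, abs_of_pos hms1] at hZ
    have e1 : (c : ℝ) * l * ms = N := by
      rw [hms]
      field_simp
    have e2 : 1 / ms = c * l / N := by
      rw [hms]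
      field_simp
    rw [e1, e2] at hZ
    nlinarith
  -- the interval `[0, R]`
  have hnat : (ps q (N : ℝ) (c / N)).natDegree ≤ D := natDegree_ps h1 _ _
  have hval : ∀ k : ℕ, 1 ≤ k → k ≤ R → |(ps q (N : ℝ) (c / N)).eval (k : ℝ)| ≤ 2 := by
    intro k hk1 hk2
    rw [eval_ps, show (c : ℝ) / N * k = c * k / N by ring]
    exact step1 k hk1 hk2
  have hlen : 8 * (D : ℝ) ^ 2 ≤ (R : ℝ) - 0 := by
    rw [sub_zero]
    exact_mod_cast hDR
  have hR1 : (1 : ℝ) ≤ R := by exact_mod_cast hR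
  have h4 : ∀ x ∈ Set.Icc (0 : ℝ) R, |(ps q (N : ℝ) (c / N)).eval x| ≤ 2 * 2 := by
    intro x hx
    refine lemZ hnat two_pos hR' hlen ?_ hx
    intro y hy
    rcases lt_or_ge y 1 with h | h
    · refine ⟨1, ⟨zero_le_one, hR1⟩, ?_, ?_⟩
      · rw [abs_le]
        constructor
        · linarith [hy.1]
        · linarith
      · have := hval 1 le_rfl hR
        simpa using this
    · have hy0 : 0 ≤ y := hy.1
      refine ⟨(⌊y⌋₊ : ℝ), ⟨by positivity, ?_⟩, ?_, hval _ ?_ ?_⟩
      · exact (Nat.floor_le hy0).trans hy.2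
      · rw [abs_le]
        have h2 := Nat.floor_le hy0
        have h3 := (Nat.lt_floor_add_one y).le
        constructor <;> linarith
      · exact Nat.le_floor (by exact_mod_cast h)
      · have : ((⌊y⌋₊ : ℕ) : ℝ) ≤ R := (Nat.floor_le hy0).trans hy.2
        exact_mod_cast this
  have h5 := lipschitz hnat (M := 2 * 2) (by norm_num) hR' h4 (x := 1) (y := 0)
    ⟨zero_le_one, hR1⟩ ⟨le_rfl, hR'.le⟩
  rw [eval_ps, eval_ps, mul_one, mul_zero] at h5
  refine h5.trans (le_of_eq ?_)
  rw [sub_zero, sub_zero, abs_one]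
  ring

end Pool.Agent.Lib.MP_cff830_lc.Deg
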