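import Pool.Agent.Lib.MP_cff830_lc.Deg.Stmts

/-!
# The expected number of copies in the block model
-/

set_option autoImplicit false

namespace Pool.Agent.Lib.MP_cff830_lc.Deg

open Finset Pool.Agent.Lib.MP_cff830_lc.AC0

namespace Copyaux

theorem cnt_eq_card {α : Type} [Fintype α] (P : α → Prop) : cnt P = Nat.card {x // P x} := by
  classical
  unfold cnt
  rw [Nat.card_eq_fintype_card, Fintype.card_subtype]

theorem cnt_congr {α : Type} [Fintype α] {P Q : α → Prop} (h : ∀ x, P x ↔ Q x) :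
    cnt P = cnt Q := by
  congr 1
  funext x
  exact propext (h x)

theorem cnt_eq_sum {α : Type} [Fintype α] (P : α → Prop) : (cnt P : ℝ) = ∑ x, ind (P x) := by
  classical
  unfold cnt ind
  rw [Finset.card_filter]
  push_cast
  refine Finset.sum_congr rfl fun x _ => ?_
  split_ifs <;> rfl

theorem cnt_false {α : Type} [Fintype α] {P : α → Prop} (h : ∀ x, ¬ P x) : cnt P = 0 := by
  classical
  unfold cnt
  rw [Finset.card_eq_zero, Finset.filter_eq_empty_iff]
  intro x _
  exact h x

theorem cnt_le_card {α : Type} [Fintype α] (P : α → Prop) : cnt P ≤ Fintype.card α := by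
  classical
  unfold cnt
  exact (Finset.card_filter_le _ _).trans_eq Finset.card_univ

theorem ind_true {p : Prop} (h : p) : ind p = 1 := by
  unfold ind
  exact if_pos h

theorem ind_false {p : Prop} (h : ¬ p) : ind p = 0 := by
  unfold ind
  exact if_neg h

/-- the number of functions which are injective on the classes of `c` -/
theorem card_inj {K J : Type} [Fintype K] [DecidableEq K] [Fintype J] (c : K → J) (m : ℕ) :
    cnt (fun x : K → Fin m => ∀ u v, c u = c v → x u = x v → u = v) =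
      ∏ j, m.descFactorial (cnt fun u => c u = j) := by
  classical
  rw [cnt_eq_card]
  have e : {x : K → Fin m // ∀ u v, c u = c v → x u = x v → u = v} ≃
      (∀ j, {u // c u = j} ↪ Fin m) :=
    { toFun := fun x j => ⟨fun u => x.1 u.1, fun u v h =>
        Subtype.ext (x.2 u.1 v.1 (u.2.trans v.2.symm) h)⟩
      invFun := fun g => ⟨fun u => g (c u) ⟨u, rfl⟩, fun u v h1 h2 => by
        have h3 : ∀ (j : J) (hj : c v = j), g (c v) ⟨v, rfl⟩ = g j ⟨v, hj⟩ := by
          rintro j rfl
          rfl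
        dsimp only at h2
        rw [h3 (c u) h1.symm] at h2
        exact congrArg Subtype.val ((g (c u)).injective h2)⟩
      left_inv := fun x => rfl
      right_inv := fun g => by
        funext j
        ext ⟨u, rfl⟩
        rfl }
  rw [Nat.card_congr e, Nat.card_pi]
  refine Finset.prod_congr rfl fun j _ => ?_
  rw [Nat.card_eq_fintype_card, Fintype.card_embedding_eq, Fintype.card_fin, cnt_eq_card,
    Nat.card_eq_fintype_card]

/-- independent permutations -/
theorem card_pi {J α : Type} [Fintype J] [DecidableEq J] [Fintype α] (P : J → α → Prop) :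
    cnt (fun ω : J → α => ∀ j, P j (ω j)) = ∏ j, cnt (P j) := by
  classical
  rw [cnt_eq_card, Nat.card_congr (Equiv.subtypePiEquivPi (p := fun {j} => P j)), Nat.card_pi]
  refine Finset.prod_congr rfl fun j _ => ?_
  rw [cnt_eq_card]

/-- permutations with prescribed values -/
theorem card_perm (h : StPerm) {J X Y : Type} [Fintype J] [DecidableEq J] [Fintype Y]
    [DecidableEq Y] [Fintype X] (key : X → J) (f g : X → Y)
    (hf : ∀ a b, key a = key b → f a = f b → a = b)
    (hg : ∀ a b, key a = key b → g a = g b → a = b) :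
    cnt (fun ω : J → Equiv.Perm Y => ∀ a, ω (key a) (f a) = g a) =
      ∏ j, (Fintype.card Y - cnt fun a => key a = j).factorial := by
  classical
  have e1 : cnt (fun ω : J → Equiv.Perm Y => ∀ a, ω (key a) (f a) = g a) =
      cnt (fun ω : J → Equiv.Perm Y => ∀ j, ∀ a : {a // key a = j}, ω j (f a.1) = g a.1) := by
    apply cnt_congr
    intro ω
    constructor
    · rintro h j ⟨a, rfl⟩
      exact h a
    · intro h a
      exact h (key a) ⟨a, rfl⟩
  rw [e1, card_pi (P := fun j (σ : Equiv.Perm Y) => ∀ a : {a // key a = j}, σ (f a.1) = g a.1)]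
  refine Finset.prod_congr rfl fun j _ => ?_
  rw [h Y {a // key a = j} (fun a => f a.1) (fun a => g a.1)
    (fun a b hab => Subtype.ext (hf _ _ (a.2.trans b.2.symm) hab))
    (fun a b hab => Subtype.ext (hg _ _ (a.2.trans b.2.symm) hab)), cnt_eq_card,
    Nat.card_eq_fintype_card]

end Copyaux

open Copyaux in
theorem stCopy (h : StPerm) : StCopy := by
  intro V E C _ _ _ _ _ _ B τ Q hQ hA ℓ m hm
  classical
  obtain ⟨k, t, A⟩ := Q
  dsimp only at *
  -- the equivalence
  let eφ : (Fin k → Fin ℓ × C) × (Fin k → Fin m) ≃ (Fin k → Fin ℓ × C × Fin m) :=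
    { toFun := fun p v => ((p.1 v).1, (p.1 v).2, p.2 v)
      invFun := fun φ => (fun v => ((φ v).1, (φ v).2.1), fun v => (φ v).2.2)
      left_inv := fun p => rfl
      right_inv := fun φ => rfl }
  let comp : (Fin k → Fin ℓ × C) → Prop := fun γ =>
    ∀ a ∈ A, γ a.2.2 = ((γ a.2.1).1, τ (γ a.2.1).2)
  let inj : (Fin k → Fin ℓ × C) → (Fin k → Fin m) → Prop := fun γ x =>
    ∀ u v, (γ u, t u) = (γ v, t v) → x u = x v → u = v
  let key : (Fin k → Fin ℓ × C) → A → Fin ℓ × C × E := fun γ a =>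
    ((γ a.1.2.1).1, (γ a.1.2.1).2, a.1.1)
  let N : (Fin k → Fin ℓ × C) → ℕ := fun γ =>
    ∏ j : Fin ℓ × C × E, (m - cnt fun a => key γ a = j).factorial
  have hiff : ∀ (ω : Fin ℓ × C × E → Equiv.Perm (Fin m)) (γ : Fin k → Fin ℓ × C)
      (x : Fin k → Fin m), IsCopy (blk τ ω) t A (eφ (γ, x)) ↔
      comp γ ∧ inj γ x ∧ ∀ a : A, ω (key γ a) (x a.1.2.1) = x a.1.2.2 := by
    intro ω γ x
    unfold IsCopy
    simp only [eφ, comp, inj, key, Equiv.coe_fn_mk, blk, Prod.ext_iff]
    constructor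
    · rintro ⟨h1, h2⟩
      refine ⟨fun a ha => ⟨(h2 a ha).1.symm, (h2 a ha).2.1.symm⟩, fun u v h3 h4 => ?_,
        fun a => (h2 a.1 a.2).2.2⟩
      exact h1 u v h3.2 ⟨h3.1.1, h3.1.2, h4⟩
    · rintro ⟨h1, h2, h3⟩
      refine ⟨fun u v h4 h5 => h2 u v ⟨⟨h5.1, h5.2.1⟩, h4⟩ h5.2.2, fun a ha => ?_⟩
      exact ⟨(h1 a ha).1.symm, (h1 a ha).2.symm, h3 ⟨a, ha⟩⟩
  have hcount : ∀ (γ : Fin k → Fin ℓ × C) (x : Fin k → Fin m),
      (cnt (fun ω : Fin ℓ × C × E → Equiv.Perm (Fin m) => IsCopy (blk τ ω) t A (eφ (γ, x))) : ℝ) =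
        ind (comp γ) * (ind (inj γ x) * N γ) := by
    intro γ x
    by_cases h1 : comp γ
    · by_cases h2 : inj γ x
      · rw [ind_true h1, ind_true h2, one_mul, one_mul]
        have e1 : cnt (fun ω : Fin ℓ × C × E → Equiv.Perm (Fin m) =>
            IsCopy (blk τ ω) t A (eφ (γ, x))) =
            cnt (fun ω : Fin ℓ × C × E → Equiv.Perm (Fin m) =>
              ∀ a : A, ω (key γ a) (x a.1.2.1) = x a.1.2.2) := by
          apply cnt_congr
          intro ω
          rw [hiff]
          exact ⟨fun h => h.2.2, fun h => ⟨h1, h2, h⟩⟩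
        have hab : ∀ a b : A, key γ a = key γ b →
            (γ a.1.2.1 = γ b.1.2.1 ∧ a.1.1 = b.1.1) := by
          intro a b hab
          simp only [key, Prod.ext_iff] at hab
          exact ⟨Prod.ext hab.1 hab.2.1, hab.2.2⟩
        have hext : ∀ a b : A, a.1.1 = b.1.1 → a.1.2.1 = b.1.2.1 → a.1.2.2 = b.1.2.2 →
            a = b := fun a b h3 h4 h5 => Subtype.ext (Prod.ext h3 (Prod.ext h4 h5))
        rw [e1, card_perm h (key γ) (fun a : A => x a.1.2.1) (fun a : A => x a.1.2.2)]
        · rw [Fintype.card_fin]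
        · intro a b h3 h4
          obtain ⟨h5, h6⟩ := hab a b h3
          have h7 : a.1.2.1 = b.1.2.1 := by
            apply h2 _ _ _ h4
            rw [h5, (hQ a.1 a.2).1, (hQ b.1 b.2).1, h6]
          exact hext a b h6 h7 ((hA a.1 a.2 b.1 b.2 h6).1 h7)
        · intro a b h3 h4
          obtain ⟨h5, h6⟩ := hab a b h3
          have h7 : a.1.2.2 = b.1.2.2 := by
            apply h2 _ _ _ h4
            rw [h1 a.1 a.2, h1 b.1 b.2, h5, (hQ a.1 a.2).2, (hQ b.1 b.2).2, h6]
          exact hext a b h6 ((hA a.1 a.2 b.1 b.2 h6).2 h7) h7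
      · rw [ind_false h2, zero_mul, mul_zero, cnt_false]
        · simp
        · intro ω hω
          exact h2 ((hiff ω γ x).1 hω).2.1
    · rw [ind_false h1, zero_mul, cnt_false]
      · simp
      · intro ω hω
        exact h1 ((hiff ω γ x).1 hω).1
  have hsum : ∑ ω : Fin ℓ × C × E → Equiv.Perm (Fin m), (cp (blk τ ω) t A : ℝ) =
      ∑ γ : Fin k → Fin ℓ × C, ind (comp γ) *
        ((∏ j : (Fin ℓ × C) × V, (m.descFactorial (cnt fun x => γ x = j.1 ∧ t x = j.2) : ℝ)) *
          N γ) := by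
    have e1 : ∀ ω : Fin ℓ × C × E → Equiv.Perm (Fin m), (cp (blk τ ω) t A : ℝ) =
        ∑ p : (Fin k → Fin ℓ × C) × (Fin k → Fin m), ind (IsCopy (blk τ ω) t A (eφ p)) := by
      intro ω
      unfold cp
      rw [cnt_eq_sum, ← eφ.sum_comp]
    simp only [e1]
    rw [Finset.sum_comm, Fintype.sum_prod_type]
    refine Finset.sum_congr rfl fun γ _ => ?_
    have e2 : ∀ x : Fin k → Fin m, ∑ ω : Fin ℓ × C × E → Equiv.Perm (Fin m),
        ind (IsCopy (blk τ ω) t A (eφ (γ, x))) = ind (comp γ) * (ind (inj γ x) * N γ) := by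
      intro x
      rw [← hcount, cnt_eq_sum]
    simp only [e2]
    rw [← Finset.mul_sum, ← Finset.sum_mul, ← cnt_eq_sum]
    have e3 := card_inj (fun u => (γ u, t u)) m
    rw [show cnt (inj γ) = _ from e3]
    push_cast
    congr 2
    refine Finset.prod_congr rfl fun j _ => ?_
    congr 2
    apply cnt_congr
    intro x
    rw [Prod.ext_iff]
  unfold avg
  rw [hsum, Finset.sum_div]
  refine Finset.sum_congr rfl fun γ _ => ?_
  rw [mul_div_assoc]
  congr 1
  have hcard : (Fintype.card (Fin ℓ × C × E → Equiv.Perm (Fin m)) : ℝ) =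
      (N γ : ℝ) * ∏ j : (Fin ℓ × C) × E,
        (m.descFactorial (cnt fun a : A => γ a.1.2.1 = j.1 ∧ a.1.1 = j.2) : ℝ) := by
    have e1 : ∏ j : (Fin ℓ × C) × E,
        (m.descFactorial (cnt fun a : A => γ a.1.2.1 = j.1 ∧ a.1.1 = j.2) : ℝ) =
        ∏ j : Fin ℓ × C × E, (m.descFactorial (cnt fun a => key γ a = j) : ℝ) := by
      refine Fintype.prod_equiv (Equiv.prodAssoc (Fin ℓ) C E) _ _ fun j => ?_
      congr 2
      apply cnt_congr
      intro a
      simp only [key, Prod.ext_iff, Equiv.prodAssoc_apply]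
      tauto
    rw [e1]
    simp only [N]
    push_cast
    rw [← Finset.prod_mul_distrib, Fintype.card_pi]
    push_cast
    refine Finset.prod_congr rfl fun j _ => ?_
    rw [Fintype.card_perm, Fintype.card_fin]
    have h2 : (cnt fun a => key γ a = j) ≤ m :=
      (cnt_le_card _).trans (by rw [Fintype.card_coe]; exact hm)
    exact_mod_cast (Nat.factorial_mul_descFactorial h2).symm
  rw [hcard]
  have hN : (N γ : ℝ) ≠ 0 := by
    have : N γ ≠ 0 := Finset.prod_ne_zero_iff.2 fun j _ => Nat.factorial_ne_zero _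
    exact_mod_cast this
  rw [mul_comm (N γ : ℝ), mul_div_mul_right _ _ hN]

end Pool.Agent.Lib.MP_cff830_lc.Deg
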