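import Pool.Agent.Lib.MP_cff830_lc.AC0.Stmts

/-!
# Low-degree polynomials and vertex cover: definitions

Base graphs `B : Base V E` as in `AC0.Defs`. A lift of `B` with fibre `Φ` is a family of
permutations `π : E → Equiv.Perm Φ`; its vertices are `V × Φ`, and over the base edge `e` the
vertex `(B.src e, p)` is joined to `(B.tgt e, π e p)`.
-/

namespace Pool.Agent.Lib.MP_cff830_lc.Deg

open Finset Pool.Agent.Lib.MP_cff830_lc.AC0

/-! ## Used in the result -/

/-- `L u` is an adjacency list of `u` in `G`: its entries are the neighbours of `u`, each once,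
in any order (and `none`). -/
def IsList {n D : ℕ} (G : SimpleGraph (Fin n)) (L : Fin n → Fin D → Option (Fin n)) : Prop :=
  (∀ u v, G.Adj u v ↔ ∃ i, L u i = some v) ∧
  ∀ u i j v, L u i = some v → L u j = some v → i = j

/-- the bits of the adjacency lists: the bit `(u, i, v)` is `1` iff the `i`-th entry of the list
of `u` is `v` -/
noncomputable def lbit {n D : ℕ} (L : Fin n → Fin D → Option (Fin n))
    (s : Fin n × Fin D × Fin n) : ℝ := ind (L s.1 s.2.1 = some s.2.2)

/-- the adjacency bits -/
noncomputable def abit {n : ℕ} (G : SimpleGraph (Fin n)) (s : Fin n × Fin n) : ℝ :=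
  ind (G.Adj s.1 s.2)

/-! ## Used in the proof -/

/-- average over a finite type -/
noncomputable def avg {α : Type} [Fintype α] (f : α → ℝ) : ℝ :=
  (∑ x, f x) / (Fintype.card α : ℝ)

/-- port numbers: the `i`-th edge at `v` is `e`, and `v` is its source (`some (e, true)`) or its
target (`some (e, false)`) -/
def IsPort {V E : Type} (B : Base V E) {D : ℕ} (port : V → Fin D → Option (E × Bool)) : Prop :=
  (∀ v e, B.src e = v ↔ ∃ i, port v i = some (e, true)) ∧
  (∀ v e, B.tgt e = v ↔ ∃ i, port v i = some (e, false)) ∧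
  ∀ v i j x, port v i = some x → port v j = some x → i = j

/-- the `i`-th neighbour of the vertex `a` of the lift -/
def nx {V E Φ : Type} (B : Base V E) {D : ℕ} (port : V → Fin D → Option (E × Bool))
    (π : E → Equiv.Perm Φ) (a : V × Φ) (i : Fin D) : Option (V × Φ) :=
  (port a.1 i).map fun x =>
    if x.2 = true then (B.tgt x.1, π x.1 a.2) else (B.src x.1, (π x.1).symm a.2)

/-- the adjacency lists of the lift, its vertices numbered by `ψ` -/
noncomputable def Ll {V E Φ : Type} (B : Base V E) {D : ℕ}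
    (port : V → Fin D → Option (E × Bool)) (π : E → Equiv.Perm Φ) {n : ℕ}
    (ψ : V × Φ ↪ Fin n) (x : Fin n) (i : Fin D) : Option (Fin n) :=
  (Function.partialInv ψ x).bind fun a => (nx B port π a i).map ψ

/-- the lifted graph, its vertices numbered by `ψ` -/
def Gl {V E Φ : Type} (B : Base V E) (π : E → Equiv.Perm Φ) {n : ℕ} (ψ : V × Φ ↪ Fin n) :
    SimpleGraph (Fin n) :=
  SimpleGraph.fromRel fun x y => ∃ e p, x = ψ (B.src e, p) ∧ y = ψ (B.tgt e, π e p)

/-- `φ` is a copy, in the lift `π`, of the pattern with vertices `W`, types `t` and arcs `A` -/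
def IsCopy {V E Φ W : Type} (π : E → Equiv.Perm Φ) (t : W → V) (A : Finset (E × W × W))
    (φ : W → Φ) : Prop :=
  (∀ x y, t x = t y → φ x = φ y → x = y) ∧ ∀ a ∈ A, π a.1 (φ a.2.1) = φ a.2.2

/-- the number of copies -/
noncomputable def cp {V E Φ W : Type} [Fintype Φ] [Fintype W] [DecidableEq W]
    (π : E → Equiv.Perm Φ) (t : W → V) (A : Finset (E × W × W)) : ℕ := cnt (IsCopy π t A)

/-- the arcs of the pattern lie over the edges of the base -/
def Fits {V E W : Type} (B : Base V E) (t : W → V) (A : Finset (E × W × W)) : Prop :=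
  ∀ a ∈ A, t a.2.1 = B.src a.1 ∧ t a.2.2 = B.tgt a.1

/-- patterns on `Fin k` -/
structure Pt (V E : Type) where
  k : ℕ
  t : Fin k → V
  A : Finset (E × Fin k × Fin k)

/-- `ℓ` blocks, phases `C`, `m` labels: the permutation over the edge `e` keeps the block, moves
the phase by `τ`, and permutes the labels by `ω (block, phase, e)` -/
def blk {ℓ m : ℕ} {C E : Type} (τ : Equiv.Perm C)
    (ω : Fin ℓ × C × E → Equiv.Perm (Fin m)) (e : E) : Equiv.Perm (Fin ℓ × C × Fin m) where
  toFun p := (p.1, τ p.2.1, ω (p.1, p.2.1, e) p.2.2)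
  invFun p := (p.1, τ.symm p.2.1, (ω (p.1, τ.symm p.2.1, e)).symm p.2.2)
  left_inv p := by simp
  right_inv p := by simp

/-- the common denominator -/
noncomputable def den (N : ℕ) (u : ℝ) : ℝ := ∏ i ∈ range N, (1 - i * u) ^ (N / (i + 1))

/-- its degree -/
def dd (N : ℕ) : ℕ := ∑ i ∈ range N, N / (i + 1)

end Pool.Agent.Lib.MP_cff830_lc.Deg
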