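import Pool.Agent.Lib.MP_cff830_lc.Deg.Defs

/-!
# Statements of the modules (project DEG)
-/

namespace Pool.Agent.Lib.MP_cff830_lc.Deg

open Finset Pool.Agent.Lib.MP_cff830_lc.AC0 MvPolynomial

/-- D1. The number of permutations with prescribed values. -/
def StPerm : Prop :=
  ∀ (α U : Type) [Fintype α] [DecidableEq α] [Fintype U] (f g : U → α),
    Function.Injective f → Function.Injective g →
    cnt (fun ρ : Equiv.Perm α => ∀ u, ρ (f u) = g u) =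
      (Fintype.card α - Fintype.card U).factorial

/-- D2. Elimination of leaves and isolated vertices. -/
def StLeaf : Prop :=
  ∀ (V E : Type) [DecidableEq V] [DecidableEq E] (B : Base V E), (∀ e, B.src e ≠ B.tgt e) →
    ∀ Q : Pt V E, Fits B Q.t Q.A →
    ∃ (r : ℕ) (c : Fin r → ℝ) (a : Fin r → ℕ) (Q' : Fin r → Pt V E),
      (∀ i, Fits B (Q' i).t (Q' i).A ∧ (Q' i).k ≤ (Q' i).A.card ∧
        (Q' i).A.card ≤ Q.A.card ∧ a i + (Q' i).k ≤ Q.k) ∧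
      ∀ (Φ : Type) [Fintype Φ] (π : E → Equiv.Perm Φ), (cp π Q.t Q.A : ℝ) =
        ∑ i, c i * (Fintype.card Φ : ℝ) ^ a i * (cp π (Q' i).t (Q' i).A : ℝ)

/-- D3. The average of a polynomial in the list bits over all numberings of the vertices. -/
def StSym : Prop :=
  ∀ (V E : Type) [Fintype V] [DecidableEq V] [Fintype E] [DecidableEq E] (B : Base V E)
    (D : ℕ) (port : V → Fin D → Option (E × Bool)), IsPort B port →
    ∀ (n : ℕ) (P : MvPolynomial (Fin n × Fin D × Fin n) ℝ),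
    ∃ (r : ℕ) (c : Fin r → ℝ) (Q : Fin r → Pt V E),
      (∀ i, Fits B (Q i).t (Q i).A ∧ (Q i).A.card ≤ P.totalDegree ∧
        (Q i).k ≤ 2 * P.totalDegree) ∧
      ∀ (Φ : Type) [Fintype Φ] (π : E → Equiv.Perm Φ) (ψ : V × Φ ↪ Fin n),
        avg (fun ρ : Equiv.Perm (Fin n) => eval (lbit (Ll B port π (ψ.trans ρ.toEmbedding))) P) =
          ∑ i, c i * (cp π (Q i).t (Q i).A : ℝ)

/-- D4. The expected number of copies in the block model. -/
def StCopy : Prop :=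
  ∀ (V E C : Type) [Fintype V] [DecidableEq V] [Fintype E] [DecidableEq E] [Fintype C]
    [DecidableEq C] (B : Base V E) (τ : Equiv.Perm C) (Q : Pt V E), Fits B Q.t Q.A →
    (∀ a ∈ Q.A, ∀ b ∈ Q.A, a.1 = b.1 → (a.2.1 = b.2.1 ↔ a.2.2 = b.2.2)) →
    ∀ ℓ m : ℕ, Q.A.card ≤ m →
    avg (fun ω : Fin ℓ × C × E → Equiv.Perm (Fin m) => (cp (blk τ ω) Q.t Q.A : ℝ)) =
      ∑ γ : Fin Q.k → Fin ℓ × C,
        ind (∀ a ∈ Q.A, γ a.2.2 = ((γ a.2.1).1, τ (γ a.2.1).2)) *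
        ((∏ j : (Fin ℓ × C) × V,
            (m.descFactorial (cnt fun x => γ x = j.1 ∧ Q.t x = j.2) : ℝ)) /
          ∏ j : (Fin ℓ × C) × E,
            (m.descFactorial (cnt fun a : Q.A => γ a.1.2.1 = j.1 ∧ a.1.1 = j.2) : ℝ))

/-- D5. After multiplication by the common denominator the expected number of copies is a
polynomial in the size of the fibre and `1 / m`. -/
def StExp : Prop :=
  ∀ (V E C : Type) [Fintype V] [DecidableEq V] [Fintype E] [DecidableEq E] [Fintype C]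
    [DecidableEq C] [Nonempty C] (B : Base V E) (τ : Equiv.Perm C) (N : ℕ) (Q : Pt V E),
    Fits B Q.t Q.A → Q.k ≤ Q.A.card → Q.A.card ≤ N →
    ∃ q : MvPolynomial (Fin 2) ℝ, q.degreeOf 0 ≤ Q.k ∧ q.degreeOf 1 ≤ 2 * N + dd N ∧
      (∀ x : ℝ, eval ![x, 0] q = if Q.k = 0 then 1 else 0) ∧
      ∀ ℓ m : ℕ, 0 < m → N ≤ m →
        den N (1 / m) *
          avg (fun ω : Fin ℓ × C × E → Equiv.Perm (Fin m) => (cp (blk τ ω) Q.t Q.A : ℝ)) =
        eval ![(ℓ : ℝ) * Fintype.card C * m, 1 / m] q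

/-- D6. The analytic part. -/
def StAn : Prop :=
  ∀ (q : MvPolynomial (Fin 2) ℝ) (A D c M R N : ℕ), 0 < c → 0 < R →
    q.degreeOf 0 ≤ A → q.degreeOf 1 ≤ D →
    (∀ ℓ m : ℕ, 0 < ℓ → 0 < m → M ≤ m → c * ℓ * m ≤ N →
      |eval ![(c : ℝ) * ℓ * m, 1 / m] q| ≤ 1) →
    8 * D ^ 2 ≤ R → c * R * (8 * (A + D) ^ 2 + M + 1) ≤ N →
    |eval ![(N : ℝ), c / N] q - eval ![(N : ℝ), 0] q| ≤ 16 * (D : ℝ) ^ 2 / R

/-- D7. A base graph without large independent sets has many edges inside every large set, also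
fractionally. -/
def StW : Prop :=
  ∀ δ : ℝ, 0 < δ → ∃ ε : ℝ, 0 < ε ∧ ∀ (V E : Type) [Fintype V] [DecidableEq V] [Fintype E]
    [DecidableEq E] (B : Base V E), (∀ e, B.src e ≠ B.tgt e) →
    (∀ I : Finset V, (∀ e, ¬ (B.src e ∈ I ∧ B.tgt e ∈ I)) →
      (I.card : ℝ) ≤ ε * Fintype.card V) →
    ∀ s : V → ℝ, (∀ v, 0 ≤ s v ∧ s v ≤ 1) → δ * Fintype.card V ≤ ∑ v, s v →
    3 / 2 * (Fintype.card V : ℝ) ≤ ∑ e, s (B.src e) * s (B.tgt e)

/-- D8. A random permutation maps `S` into the complement of `T` with small probability. -/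
def StDis : Prop :=
  ∀ (m : ℕ) (S T : Finset (Fin m)), 0 < m →
    (cnt (fun σ : Equiv.Perm (Fin m) => ∀ p ∈ S, σ p ∉ T) : ℝ) ≤
      (m.factorial : ℝ) * Real.exp (-((S.card : ℝ) * T.card / m))

/-- D9. Random lifts have no large independent sets. -/
def StUnion : Prop :=
  ∀ δ : ℝ, 0 < δ → ∃ ε : ℝ, 0 < ε ∧ ∀ (V E : Type) [Fintype V] [DecidableEq V] [Fintype E]
    [DecidableEq E] (B : Base V E), (∀ e, B.src e ≠ B.tgt e) → 0 < Fintype.card V →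
    (∀ I : Finset V, (∀ e, ¬ (B.src e ∈ I ∧ B.tgt e ∈ I)) →
      (I.card : ℝ) ≤ ε * Fintype.card V) →
    ∀ m : ℕ, 0 < m →
    (cnt (fun ω : Fin 1 × Unit × E → Equiv.Perm (Fin m) =>
        ∃ S : Finset (V × (Fin 1 × Unit × Fin m)),
          (∀ e p, ¬ ((B.src e, p) ∈ S ∧ (B.tgt e, blk (Equiv.refl Unit) ω e p) ∈ S)) ∧
          δ * (Fintype.card V * m) ≤ S.card) : ℝ) * 2 ^ m ≤
      Fintype.card (Fin 1 × Unit × E → Equiv.Perm (Fin m))

/-- D10. The lifted graphs. -/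
def StGraph : Prop :=
  ∀ (V E : Type) [Fintype V] [DecidableEq V] [Fintype E] [DecidableEq E] (B : Base V E)
    (D g : ℕ), DegLe B D → Girthy B g → 2 ≤ g →
    (∀ e, B.src e ≠ B.tgt e) ∧
    ∃ port : V → Fin D → Option (E × Bool), IsPort B port ∧
    (∀ (Φ : Type) [Fintype Φ] [DecidableEq Φ] (π : E → Equiv.Perm Φ) (n : ℕ)
      (ψ : V × Φ ↪ Fin n),
      IsList (Gl B π ψ) (Ll B port π ψ) ∧
      (∀ v (p : (Gl B π ψ).Walk v v), p.IsCycle → g < p.length) ∧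
      vc (Gl B π ψ) ≤ Fintype.card V * Fintype.card Φ ∧
      ∀ δ : ℝ, (∀ S : Finset (V × Φ),
          (∀ e p, ¬ ((B.src e, p) ∈ S ∧ (B.tgt e, π e p) ∈ S)) →
          (S.card : ℝ) < δ * (Fintype.card V * Fintype.card Φ)) →
        (1 - δ) * (Fintype.card V * Fintype.card Φ) ≤ (vc (Gl B π ψ) : ℝ)) ∧
    ∀ (ℓ m n : ℕ) (ω : Fin ℓ × Bool × E → Equiv.Perm (Fin m))
      (ψ : V × (Fin ℓ × Bool × Fin m) ↪ Fin n),
      vc (Gl B (blk Equiv.boolNot ω) ψ) ≤ Fintype.card V * (ℓ * m)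

/-- D11. Local rules are polynomials of bounded degree on graphs of bounded degree. -/
def StLoc : Prop :=
  ∀ T D : ℕ, ∃ K : ℕ, ∀ (n : ℕ) (P : SimpleGraph (Fin n) → Fin n → Prop), Local T P →
    ∃ F : MvPolynomial (Fin n × Fin n) ℝ, F.totalDegree ≤ K ∧
    ∀ G : SimpleGraph (Fin n), (∀ v, cnt (fun w => G.Adj v w) ≤ D) →
      eval (abit G) F = ∑ v, ind (P G v)

/-- D12. Low-degree polynomials do not distinguish one random lift from a random lift of the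
bipartite double cover. -/
def StInd : Prop :=
  ∀ (V E : Type) [Fintype V] [DecidableEq V] [Fintype E] [DecidableEq E] (B : Base V E)
    (D : ℕ) (port : V → Fin D → Option (E × Bool)), (∀ e, B.src e ≠ B.tgt e) →
    IsPort B port →
    ∀ (n m d R : ℕ) (P : MvPolynomial (Fin n × Fin D × Fin n) ℝ), P.totalDegree ≤ d → 0 < d →
    0 < m → 0 < R →
    (∀ (Φ : Type) [Fintype Φ] [DecidableEq Φ] (π : E → Equiv.Perm Φ) (ψ : V × Φ ↪ Fin n),
      |eval (lbit (Ll B port π ψ)) P| ≤ 1) →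
    8 * (2 * d + dd d) ^ 2 ≤ R →
    2 * R * (8 * (4 * d + dd d) ^ 2 + d + 1) ≤ 2 * m →
    ∀ (ψ₁ : V × (Fin 1 × Unit × Fin (2 * m)) ↪ Fin n) (ψ₂ : V × (Fin 1 × Bool × Fin m) ↪ Fin n),
    |avg (fun x : (Fin 1 × Unit × E → Equiv.Perm (Fin (2 * m))) × Equiv.Perm (Fin n) =>
        eval (lbit (Ll B port (blk (Equiv.refl Unit) x.1) (ψ₁.trans x.2.toEmbedding))) P) -
      avg (fun x : (Fin 1 × Bool × E → Equiv.Perm (Fin m)) × Equiv.Perm (Fin n) =>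
        eval (lbit (Ll B port (blk Equiv.boolNot x.1) (ψ₂.trans x.2.toEmbedding))) P)| ≤
      32 * (2 * (d : ℝ) + dd d) ^ 2 / R + 4 * (d : ℝ) ^ 2 / m

/-- D13. The lower bound. -/
def StLower : Prop :=
  ∀ c : ℝ, c < 2 → ∃ (D : ℕ) (ε : ℝ), 0 < ε ∧ ∀ g : ℕ, ∃ (κ : ℝ) (n₀ : ℕ), 0 < κ ∧
    ∀ n ≥ n₀, ∀ P : MvPolynomial (Fin n × Fin D × Fin n) ℝ,
    (∀ (G : SimpleGraph (Fin n)) (L : Fin n → Fin D → Option (Fin n)), IsList G L →
      (∀ v (p : G.Walk v v), p.IsCycle → g < p.length) →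
      (vc G : ℝ) - ε * n ≤ eval (lbit L) P ∧ eval (lbit L) P ≤ c * (vc G : ℝ) + ε * n) →
    κ * (n : ℝ) ^ (1 / 4 : ℝ) / Real.log n ≤ P.totalDegree

/-- D14. The upper bound. -/
def StUp : Prop :=
  ∀ c : ℝ, 2 < c → ∀ D : ℕ, ∃ K : ℕ, ∀ n : ℕ, ∃ P : MvPolynomial (Fin n × Fin n) ℝ,
    P.totalDegree ≤ K ∧ ∀ G : SimpleGraph (Fin n), (∀ v, cnt (fun w => G.Adj v w) ≤ D) →
      (vc G : ℝ) ≤ eval (abit G) P ∧ eval (abit G) P ≤ c * (vc G : ℝ)

end Pool.Agent.Lib.MP_cff830_lc.Deg
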