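import Mathlib
import Pool.Agent.Lib.MP_cff830_lc.Deg.Stmts

/-!
# D5. The expected number of copies as a polynomial
-/

set_option autoImplicit false

namespace Pool.Agent.Lib.MP_cff830_lc.Deg

open Finset Pool.Agent.Lib.MP_cff830_lc.AC0 MvPolynomial

namespace ExpAux

/-! ## Sums over functions grouped by the range -/

theorem sum_by_range (k : ℕ) (Φ : ∀ ℓ : ℕ, (Fin k → Fin ℓ) → ℝ)
    (hΦ : ∀ (j ℓ : ℕ) (ι : Fin j → Fin ℓ), Function.Injective ι → ∀ g : Fin k → Fin j,
      Φ ℓ (fun x => ι (g x)) = Φ j g) (ℓ : ℕ) :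
    ∑ g : Fin k → Fin ℓ, Φ ℓ g = ∑ j ∈ range (k + 1), (ℓ.choose j : ℝ) *
      ∑ g : Fin k → Fin j, ind (Function.Surjective g) * Φ j g := by
  classical
  set c : ℕ → ℝ := fun j => ∑ g : Fin k → Fin j, ind (Function.Surjective g) * Φ j g with hc
  have h1 : ∑ g : Fin k → Fin ℓ, Φ ℓ g =
      ∑ R : Finset (Fin ℓ), ∑ g : Fin k → Fin ℓ with univ.image g = R, Φ ℓ g :=
    (Finset.sum_fiberwise univ (fun g : Fin k → Fin ℓ => univ.image g) (Φ ℓ)).symm
  have h2 : ∀ R : Finset (Fin ℓ), ∑ g : Fin k → Fin ℓ with univ.image g = R, Φ ℓ g =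
      c R.card := by
    intro R
    rw [hc]
    have h3 : ∑ g : Fin k → Fin R.card, ind (Function.Surjective g) * Φ R.card g =
        ∑ g : Fin k → Fin R.card with Function.Surjective g, Φ R.card g := by
      rw [Finset.sum_filter]
      refine Finset.sum_congr rfl fun g _ => ?_
      by_cases hg : Function.Surjective g
      · simp [ind, hg]
      · simp [ind, hg]
    dsimp only
    rw [h3]
    symm
    refine Finset.sum_bij (fun g _ => fun x => R.orderEmbOfFin rfl (g x)) ?_ ?_ ?_ ?_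
    · intro g hg
      rw [Finset.mem_filter] at hg ⊢
      refine ⟨mem_univ _, ?_⟩
      have : (univ : Finset (Fin k)).image (fun x => R.orderEmbOfFin rfl (g x)) =
          (univ.image g).image (R.orderEmbOfFin rfl) := by
        rw [Finset.image_image]
        rfl
      rw [this, Finset.image_univ_of_surjective hg.2, Finset.image_orderEmbOfFin_univ]
    · intro g₁ _ g₂ _ h
      funext x
      exact (R.orderEmbOfFin rfl).injective (congrFun h x)
    · intro g hg
      rw [Finset.mem_filter] at hg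
      have hmem : ∀ x, g x ∈ R := fun x => by
        rw [← hg.2]
        exact mem_image_of_mem g (mem_univ x)
      have hsub : ∀ x, ∃ y : Fin R.card, R.orderEmbOfFin rfl y = g x := by
        intro x
        have : g x ∈ Set.range (R.orderEmbOfFin rfl) := by
          rw [Finset.range_orderEmbOfFin]
          exact hmem x
        exact this
      choose f hf using hsub
      refine ⟨f, ?_, funext hf⟩
      rw [Finset.mem_filter]
      refine ⟨mem_univ _, fun y => ?_⟩
      have hy : R.orderEmbOfFin rfl y ∈ univ.image g := by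
        rw [hg.2]
        exact Finset.orderEmbOfFin_mem R rfl y
      obtain ⟨x, -, hx⟩ := mem_image.1 hy
      refine ⟨x, (R.orderEmbOfFin rfl).injective ?_⟩
      rw [hf x, hx]
    · intro g hg
      exact (hΦ _ _ _ (R.orderEmbOfFin rfl).injective g).symm
  rw [h1, Finset.sum_congr rfl fun R _ => h2 R, ← Finset.powerset_univ,
    Finset.sum_powerset_apply_card, Finset.card_univ, Fintype.card_fin]
  have h4 : ∀ j, k < j → c j = 0 := by
    intro j hj
    refine Finset.sum_eq_zero fun g _ => ?_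
    have : ¬ Function.Surjective g := fun hg => by
      have := Fintype.card_le_of_surjective g hg
      simp at this
      omega
    simp [ind, this]
  have h5 : ∑ m ∈ range (ℓ + 1), ℓ.choose m • c m =
      ∑ m ∈ range (max k ℓ + 1), (ℓ.choose m : ℝ) * c m := by
    rw [Finset.sum_congr rfl fun m _ => nsmul_eq_mul _ _]
    refine Finset.sum_subset (fun x hx => ?_) fun x _ hx => ?_
    · rw [mem_range] at hx ⊢
      have := le_max_right k ℓ
      omega
    · rw [mem_range, not_lt] at hx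
      rw [Nat.choose_eq_zero_of_lt (by omega)]
      simp
  rw [h5]
  symm
  refine Finset.sum_subset (fun x hx => ?_) fun x _ hx => ?_
  · rw [mem_range] at hx ⊢
    have := le_max_left k ℓ
    omega
  · rw [mem_range, not_lt] at hx
    have h6 := h4 x (by omega)
    rw [hc] at h6
    dsimp only at h6
    rw [h6, mul_zero]

/-! ## Counting -/

theorem cnt_eq {α : Type} [Fintype α] (P : α → Prop) [DecidablePred P] :
    cnt P = (univ.filter P).card := by
  unfold cnt
  congr

theorem sum_cnt {α β : Type} [Fintype α] [Fintype β] (f : α → β) (P : β → α → Prop)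
    (hP : ∀ b a, P b a ↔ f a = b) : ∑ b, cnt (P b) = Fintype.card α := by
  classical
  have h1 : ∀ b, cnt (P b) = (univ.filter fun a => f a = b).card := by
    intro b
    rw [cnt_eq]
    congr 1
    ext a
    simp [hP b a]
  rw [Finset.sum_congr rfl fun b _ => h1 b, ← Finset.card_univ]
  exact (Finset.card_eq_sum_card_fiberwise (fun x _ => mem_coe.2 (mem_univ (f x)))).symm

theorem cast_desc (m f : ℕ) (hm : 0 < m) :
    (m.descFactorial f : ℝ) = (m : ℝ) ^ f * ∏ i ∈ range f, (1 - i * (1 / (m : ℝ))) := by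
  have hm' : (m : ℝ) ≠ 0 := by exact_mod_cast hm.ne'
  rw [← descPochhammer_eval_eq_descFactorial, descPochhammer_eval_eq_prod_range]
  have : ∀ i ∈ range f, (m : ℝ) - i = m * (1 - i * (1 / (m : ℝ))) := by
    intro i _
    field_simp
  rw [Finset.prod_congr rfl this, Finset.prod_mul_distrib, Finset.prod_const, card_range]

theorem cast_choose (ℓ j : ℕ) :
    (ℓ.choose j : ℝ) = 1 / (j.factorial : ℝ) * ∏ i ∈ range j, ((ℓ : ℝ) - i) := by
  rw [← descPochhammer_eval_eq_prod_range, descPochhammer_eval_eq_descFactorial,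
    Nat.descFactorial_eq_factorial_mul_choose]
  have : (j.factorial : ℝ) ≠ 0 := by exact_mod_cast j.factorial_ne_zero
  push_cast
  field_simp

/-- Swap of the products. -/
theorem prod_swap {β : Type} [Fintype β] (N : ℕ) (f : β → ℕ) (hf : ∀ b, f b ≤ N)
    (a : ℕ → ℝ) : ∏ b, ∏ i ∈ range (f b), a i = ∏ i ∈ range N, a i ^ cnt (fun b => i < f b) := by
  classical
  have h1 : ∀ b, ∏ i ∈ range (f b), a i = ∏ i ∈ range N, if i < f b then a i else 1 := by
    intro b
    rw [← Finset.prod_filter]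
    congr 1
    ext i
    simp only [mem_range, mem_filter]
    have := hf b
    constructor
    · intro h; exact ⟨by omega, h⟩
    · intro h; exact h.2
  rw [Finset.prod_congr rfl fun b _ => h1 b, Finset.prod_comm]
  refine Finset.prod_congr rfl fun i _ => ?_
  rw [Finset.prod_ite, Finset.prod_const, Finset.prod_const_one, mul_one, cnt_eq]

theorem cnt_le_div {β : Type} [Fintype β] (N : ℕ) (f : β → ℕ) (hf : ∑ b, f b ≤ N) (i : ℕ) :
    cnt (fun b => i < f b) ≤ N / (i + 1) := by
  classical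
  rw [Nat.le_div_iff_mul_le (by omega)]
  refine le_trans ?_ hf
  calc cnt (fun b => i < f b) * (i + 1) = ∑ b : β with i < f b, (i + 1) := by
        rw [Finset.sum_const, smul_eq_mul, cnt_eq]
    _ ≤ ∑ b : β with i < f b, f b := Finset.sum_le_sum fun b hb => by
        rw [mem_filter] at hb
        exact hb.2
    _ ≤ ∑ b, f b := Finset.sum_le_sum_of_subset (filter_subset _ _)

/-! ## The weights -/

/-- the linear factors -/
noncomputable def lin (i : ℕ) : MvPolynomial (Fin 2) ℝ := 1 + C (-(i : ℝ)) * X 1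

theorem eval_lin (i : ℕ) (x u : ℝ) : eval ![x, u] (lin i) = 1 - i * u := by
  simp [lin]
  ring

theorem deg0_lin (i : ℕ) : (lin i).degreeOf 0 = 0 := by
  have h : (lin i).degreeOf 0 ≤ 0 := by
    refine (degreeOf_add_le _ _ _).trans (max_le ?_ ?_)
    · rw [degreeOf_one]
    · exact (degreeOf_C_mul_le _ _ _).trans (by rw [degreeOf_X_of_ne (by decide)])
  omega

theorem deg1_lin (i : ℕ) : (lin i).degreeOf 1 ≤ 1 := by
  refine (degreeOf_add_le _ _ _).trans (max_le ?_ ?_)
  · rw [degreeOf_one]; omega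
  · exact (degreeOf_C_mul_le _ _ _).trans (by rw [degreeOf_X_self])

section

variable {V E C : Type} [Fintype V] [DecidableEq V] [Fintype E] [DecidableEq E] [Fintype C]
  [DecidableEq C]

/-- sizes of the classes of vertices -/
noncomputable def fV (Q : Pt V E) {j : ℕ} (γ : Fin Q.k → Fin j × C) (p : (Fin j × C) × V) : ℕ :=
  cnt fun x => γ x = p.1 ∧ Q.t x = p.2

/-- sizes of the classes of arcs -/
noncomputable def fE (Q : Pt V E) {j : ℕ} (γ : Fin Q.k → Fin j × C) (p : (Fin j × C) × E) : ℕ :=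
  cnt fun a : Q.A => γ a.1.2.1 = p.1 ∧ a.1.1 = p.2

/-- compatibility of the blocks and phases -/
def Cmp (Q : Pt V E) (τ : Equiv.Perm C) {j : ℕ} (γ : Fin Q.k → Fin j × C) : Prop :=
  ∀ a ∈ Q.A, γ a.2.2 = ((γ a.2.1).1, τ (γ a.2.1).2)

/-- the weight -/
noncomputable def wt (Q : Pt V E) (τ : Equiv.Perm C) (m : ℕ) {j : ℕ}
    (γ : Fin Q.k → Fin j × C) : ℝ :=
  ind (Cmp Q τ γ) *
    ((∏ p : (Fin j × C) × V, (m.descFactorial (fV Q γ p) : ℝ)) /
      ∏ p : (Fin j × C) × E, (m.descFactorial (fE Q γ p) : ℝ))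

/-- insertion of the blocks -/
def insB {j ℓ : ℕ} {U : Type} (ι : Fin j → Fin ℓ) (p : (Fin j × C) × U) : (Fin ℓ × C) × U :=
  ((ι p.1.1, p.1.2), p.2)

omit [Fintype C] [DecidableEq C] in
theorem insB_inj {j ℓ : ℕ} {U : Type} (ι : Fin j → Fin ℓ) (hι : Function.Injective ι) :
    Function.Injective (insB (C := C) (U := U) ι) := by
  rintro ⟨⟨a, b⟩, c⟩ ⟨⟨a', b'⟩, c'⟩ h
  simp only [insB, Prod.mk.injEq] at h
  obtain ⟨⟨h1, h2⟩, h3⟩ := h
  rw [hι h1, h2, h3]

omit [Fintype V] [DecidableEq V] [Fintype E] [DecidableEq E] in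
theorem wt_ins [Fintype V] [Fintype E] (Q : Pt V E) (τ : Equiv.Perm C) (m : ℕ) {j ℓ : ℕ}
    (ι : Fin j → Fin ℓ) (hι : Function.Injective ι) (g : Fin Q.k → Fin j) (c : Fin Q.k → C) :
    wt Q τ m (fun x => (ι (g x), c x)) = wt Q τ m fun x => (g x, c x) := by
  have h1 : Cmp Q τ (fun x => (ι (g x), c x)) ↔ Cmp Q τ fun x => (g x, c x) := by
    unfold Cmp
    refine forall₂_congr fun a _ => ?_
    simp only [Prod.mk.injEq]
    exact and_congr_left fun _ => hι.eq_iff
  have h2 : ∏ p : (Fin j × C) × V, (m.descFactorial (fV Q (fun x => (g x, c x)) p) : ℝ) =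
      ∏ p : (Fin ℓ × C) × V, (m.descFactorial (fV Q (fun x => (ι (g x), c x)) p) : ℝ) := by
    refine Fintype.prod_of_injective (insB ι) (insB_inj ι hι) _ _ (fun p hp => ?_) fun p => ?_
    · have : fV Q (fun x => (ι (g x), c x)) p = 0 := by
        classical
        rw [fV, cnt_eq, Finset.card_eq_zero, Finset.filter_eq_empty_iff]
        rintro x - ⟨hx1, hx2⟩
        exact hp ⟨((g x, c x), p.2), Prod.ext hx1 rfl⟩
      rw [this, Nat.descFactorial_zero, Nat.cast_one]
    · congr 2
      rw [fV, fV]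
      congr 1
      funext x
      simp only [insB, eq_iff_iff]
      rw [Prod.ext_iff, Prod.ext_iff]
      simp only [hι.eq_iff]
  have h3 : ∏ p : (Fin j × C) × E, (m.descFactorial (fE Q (fun x => (g x, c x)) p) : ℝ) =
      ∏ p : (Fin ℓ × C) × E, (m.descFactorial (fE Q (fun x => (ι (g x), c x)) p) : ℝ) := by
    refine Fintype.prod_of_injective (insB ι) (insB_inj ι hι) _ _ (fun p hp => ?_) fun p => ?_
    · have : fE Q (fun x => (ι (g x), c x)) p = 0 := by
        classical
        rw [fE, cnt_eq, Finset.card_eq_zero, Finset.filter_eq_empty_iff]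
        rintro x - ⟨hx1, hx2⟩
        exact hp ⟨((g x.1.2.1, c x.1.2.1), p.2), Prod.ext hx1 rfl⟩
      rw [this, Nat.descFactorial_zero, Nat.cast_one]
    · congr 2
      rw [fE, fE]
      congr 1
      funext x
      simp only [insB, eq_iff_iff]
      rw [Prod.ext_iff, Prod.ext_iff]
      simp only [hι.eq_iff]
  rw [wt, wt, h2, h3]
  congr 1
  rw [ind, ind]
  congr 1
  exact propext h1

theorem sum_fV (Q : Pt V E) {j : ℕ} (γ : Fin Q.k → Fin j × C) : ∑ p, fV Q γ p = Q.k := by
  have := sum_cnt (fun x : Fin Q.k => (γ x, Q.t x)) (fun p x => γ x = p.1 ∧ Q.t x = p.2)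
    (fun p x => ⟨fun h => Prod.ext h.1 h.2, fun h => by subst h; exact ⟨rfl, rfl⟩⟩)
  rwa [Fintype.card_fin] at this

theorem sum_fE (Q : Pt V E) {j : ℕ} (γ : Fin Q.k → Fin j × C) :
    ∑ p, fE Q γ p = Q.A.card := by
  have := sum_cnt (fun a : Q.A => (γ a.1.2.1, a.1.1)) (fun p a => γ a.1.2.1 = p.1 ∧ a.1.1 = p.2)
    (fun p x => ⟨fun h => Prod.ext h.1 h.2, fun h => by subst h; exact ⟨rfl, rfl⟩⟩)
  rwa [Fintype.card_coe] at this

/-- the polynomial of the weight -/
noncomputable def wp (Q : Pt V E) (τ : Equiv.Perm C) (N : ℕ) {j : ℕ}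
    (γ : Fin Q.k → Fin j × C) : MvPolynomial (Fin 2) ℝ :=
  MvPolynomial.C (ind (Cmp Q τ γ)) * (X 1 ^ (Q.A.card - Q.k) *
    (∏ p : (Fin j × C) × V, ∏ i ∈ range (fV Q γ p), lin i) *
      ∏ i ∈ range N, lin i ^ (N / (i + 1) - cnt (fun p : (Fin j × C) × E => i < fE Q γ p)))

theorem deg0_wp (Q : Pt V E) (τ : Equiv.Perm C) (N : ℕ) {j : ℕ}
    (γ : Fin Q.k → Fin j × C) : (wp Q τ N γ).degreeOf 0 ≤ 0 := by
  refine (degreeOf_C_mul_le _ _ _).trans ((degreeOf_mul_le _ _ _).trans ?_)
  have h1 : (X 1 ^ (Q.A.card - Q.k) *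
      (∏ p : (Fin j × C) × V, ∏ i ∈ range (fV Q γ p), lin i)).degreeOf 0 ≤ 0 := by
    refine (degreeOf_mul_le _ _ _).trans ?_
    have h2 : (X (R := ℝ) (1 : Fin 2) ^ (Q.A.card - Q.k)).degreeOf 0 ≤ 0 := by
      refine (degreeOf_pow_le _ _ _).trans ?_
      rw [degreeOf_X_of_ne (by decide)]
      simp
    have h3 : (∏ p : (Fin j × C) × V, ∏ i ∈ range (fV Q γ p), lin i).degreeOf 0 ≤ 0 := by
      refine (degreeOf_prod_le _ _ _).trans ?_
      refine le_of_eq (Finset.sum_eq_zero fun p _ => ?_)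
      have h4 : (∏ i ∈ range (fV Q γ p), lin i).degreeOf 0 ≤ 0 := by
        refine (degreeOf_prod_le _ _ _).trans ?_
        exact le_of_eq (Finset.sum_eq_zero fun i _ => deg0_lin i)
      omega
    omega
  have h5 : (∏ i ∈ range N, lin i ^ (N / (i + 1) -
      cnt (fun p : (Fin j × C) × E => i < fE Q γ p))).degreeOf 0 ≤ 0 := by
    refine (degreeOf_prod_le _ _ _).trans ?_
    refine le_of_eq (Finset.sum_eq_zero fun i _ => ?_)
    have h6 := degreeOf_pow_le (0 : Fin 2) (lin i)
      (N / (i + 1) - cnt (fun p : (Fin j × C) × E => i < fE Q γ p))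
    rw [deg0_lin, mul_zero] at h6
    omega
  omega

theorem deg1_wp (Q : Pt V E) (τ : Equiv.Perm C) (N : ℕ) {j : ℕ}
    (γ : Fin Q.k → Fin j × C) (hk : Q.k ≤ Q.A.card) :
    (wp Q τ N γ).degreeOf 1 ≤ Q.A.card + dd N := by
  refine (degreeOf_C_mul_le _ _ _).trans ((degreeOf_mul_le _ _ _).trans ?_)
  have h1 : (X 1 ^ (Q.A.card - Q.k) *
      (∏ p : (Fin j × C) × V, ∏ i ∈ range (fV Q γ p), lin i)).degreeOf 1 ≤ Q.A.card := by
    refine (degreeOf_mul_le _ _ _).trans ?_
    have h2 : (X (R := ℝ) (1 : Fin 2) ^ (Q.A.card - Q.k)).degreeOf 1 ≤ Q.A.card - Q.k := by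
      rw [degreeOf_X_self_pow]
    have h3 : (∏ p : (Fin j × C) × V, ∏ i ∈ range (fV Q γ p), lin i).degreeOf 1 ≤ Q.k := by
      refine (degreeOf_prod_le _ _ _).trans ?_
      refine le_trans (Finset.sum_le_sum fun p _ => ?_) (sum_fV Q γ).le
      refine (degreeOf_prod_le _ _ _).trans ?_
      refine (Finset.sum_le_sum fun i _ => deg1_lin i).trans ?_
      simp
    omega
  have h5 : (∏ i ∈ range N, lin i ^ (N / (i + 1) -
      cnt (fun p : (Fin j × C) × E => i < fE Q γ p))).degreeOf 1 ≤ dd N := by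
    refine (degreeOf_prod_le _ _ _).trans (Finset.sum_le_sum fun i _ => ?_)
    refine (degreeOf_pow_le _ _ _).trans ?_
    calc _ ≤ (N / (i + 1) - cnt (fun p : (Fin j × C) × E => i < fE Q γ p)) * 1 :=
          Nat.mul_le_mul_left _ (deg1_lin i)
      _ ≤ N / (i + 1) := by rw [mul_one]; exact Nat.sub_le _ _
  omega

/-- the value of the polynomial of the weight -/
theorem eval_wp (Q : Pt V E) (τ : Equiv.Perm C) (N : ℕ) {j : ℕ}
    (γ : Fin Q.k → Fin j × C) (hk : Q.k ≤ Q.A.card) (hN : Q.A.card ≤ N) (m : ℕ) (hm : 0 < m)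
    (hNm : N ≤ m) (x : ℝ) :
    eval ![x, 1 / (m : ℝ)] (wp Q τ N γ) = den N (1 / m) * wt Q τ m γ := by
  classical
  have hm' : (m : ℝ) ≠ 0 := by exact_mod_cast hm.ne'
  have hfE : ∀ p, fE Q γ p ≤ N := fun p =>
    (Finset.single_le_sum (fun _ _ => Nat.zero_le _) (mem_univ p)).trans
      ((sum_fE Q γ).le.trans hN)
  have hpos : ∀ i ∈ range N, (1 - (i : ℝ) * (1 / m)) ≠ 0 := by
    intro i hi
    rw [mem_range] at hi
    have h1 : (i : ℝ) < m := by exact_mod_cast lt_of_lt_of_le hi hNm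
    have h2 : (0 : ℝ) < m := by exact_mod_cast hm
    have h3 : (i : ℝ) * (1 / m) < 1 := by
      rw [mul_one_div, div_lt_one h2]
      exact h1
    linarith
  have e1 : ∏ p : (Fin j × C) × V, (m.descFactorial (fV Q γ p) : ℝ) =
      (m : ℝ) ^ Q.k * ∏ p : (Fin j × C) × V, ∏ i ∈ range (fV Q γ p), (1 - i * (1 / (m : ℝ))) := by
    rw [Finset.prod_congr rfl fun p _ => cast_desc m (fV Q γ p) hm, Finset.prod_mul_distrib,
      Finset.prod_pow_eq_pow_sum, sum_fV]
  have e2 : ∏ p : (Fin j × C) × E, (m.descFactorial (fE Q γ p) : ℝ) =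
      (m : ℝ) ^ Q.A.card * ∏ i ∈ range N, (1 - i * (1 / (m : ℝ))) ^
        cnt (fun p : (Fin j × C) × E => i < fE Q γ p) := by
    rw [Finset.prod_congr rfl fun p _ => cast_desc m (fE Q γ p) hm, Finset.prod_mul_distrib,
      Finset.prod_pow_eq_pow_sum, sum_fE, prod_swap N (fE Q γ) hfE]
  have e3 : den N (1 / m) = (∏ i ∈ range N, (1 - i * (1 / (m : ℝ))) ^
      (N / (i + 1) - cnt (fun p : (Fin j × C) × E => i < fE Q γ p))) *
        ∏ i ∈ range N, (1 - i * (1 / (m : ℝ))) ^
          cnt (fun p : (Fin j × C) × E => i < fE Q γ p) := by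
    rw [den, ← Finset.prod_mul_distrib]
    refine Finset.prod_congr rfl fun i _ => ?_
    rw [← pow_add, Nat.sub_add_cancel]
    exact cnt_le_div N (fE Q γ) ((sum_fE Q γ).le.trans hN) i
  have hP : ∏ i ∈ range N, (1 - i * (1 / (m : ℝ))) ^
      cnt (fun p : (Fin j × C) × E => i < fE Q γ p) ≠ 0 :=
    Finset.prod_ne_zero_iff.2 fun i hi => pow_ne_zero _ (hpos i hi)
  have e4 : (1 / (m : ℝ)) ^ (Q.A.card - Q.k) = (m : ℝ) ^ Q.k / (m : ℝ) ^ Q.A.card := by
    rw [one_div, inv_pow, eq_div_iff (pow_ne_zero _ hm'), inv_mul_eq_iff_eq_mul₀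
      (pow_ne_zero _ hm'), ← pow_add, Nat.sub_add_cancel hk]
  rw [wt, e1, e2, e3, wp]
  simp only [map_mul, map_prod, map_pow, eval_lin, eval_C, eval_X, Matrix.cons_val_one,
    Matrix.cons_val_fin_one]
  rw [e4]
  revert hP
  generalize ∏ i ∈ range N, (1 - (i : ℝ) * (1 / (m : ℝ))) ^
      cnt (fun p : (Fin j × C) × E => i < fE Q γ p) = D2
  generalize ∏ i ∈ range N, (1 - (i : ℝ) * (1 / (m : ℝ))) ^
      (N / (i + 1) - cnt (fun p : (Fin j × C) × E => i < fE Q γ p)) = D1
  generalize ∏ p : (Fin j × C) × V, ∏ i ∈ range (fV Q γ p), (1 - (i : ℝ) * (1 / (m : ℝ))) = P1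
  intro hP
  have hA : (m : ℝ) ^ Q.A.card ≠ 0 := pow_ne_zero _ hm'
  field_simp

/-- the polynomial of the binomial coefficient -/
noncomputable def bp (c : ℝ) (j : ℕ) : MvPolynomial (Fin 2) ℝ :=
  MvPolynomial.C (1 / (j.factorial : ℝ)) *
    ∏ i ∈ range j, (MvPolynomial.C (1 / c) * (X 0 * X 1) + MvPolynomial.C (-(i : ℝ)))

theorem deg_bp (c : ℝ) (j : ℕ) (s : Fin 2) : (bp c j).degreeOf s ≤ j := by
  refine (degreeOf_C_mul_le _ _ _).trans ((degreeOf_prod_le _ _ _).trans ?_)
  have h : ∀ i ∈ range j, (MvPolynomial.C (1 / c) * (X 0 * X 1) +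
      MvPolynomial.C (-(i : ℝ)) : MvPolynomial (Fin 2) ℝ).degreeOf s ≤ 1 := by
    intro i _
    refine (degreeOf_add_le _ _ _).trans (max_le ?_ ?_)
    · refine (degreeOf_C_mul_le _ _ _).trans ((degreeOf_mul_le _ _ _).trans ?_)
      fin_cases s
      · simp only [Fin.zero_eta, degreeOf_X_self]
        rw [degreeOf_X_of_ne (by decide)]
      · simp only [Fin.mk_one, degreeOf_X_self]
        rw [degreeOf_X_of_ne (by decide)]
    · rw [degreeOf_C]; omega
  refine (Finset.sum_le_sum h).trans ?_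
  simp

theorem eval_bp (c : ℝ) (hc : c ≠ 0) (j ℓ m : ℕ) (hm : 0 < m) :
    eval ![(ℓ : ℝ) * c * m, 1 / (m : ℝ)] (bp c j) = (ℓ.choose j : ℝ) := by
  have hm' : (m : ℝ) ≠ 0 := by exact_mod_cast hm.ne'
  rw [cast_choose, bp]
  simp only [map_mul, map_prod, map_add, eval_C, eval_X, Matrix.cons_val_one,
    Matrix.cons_val_zero, Matrix.cons_val_fin_one]
  congr 1
  refine Finset.prod_congr rfl fun i _ => ?_
  field_simp
  ring

theorem eval_bp_zero (c x : ℝ) (j : ℕ) (hj : 0 < j) : eval ![x, 0] (bp c j) = 0 := by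
  rw [bp]
  simp only [map_mul, map_prod, map_add, eval_C, eval_X, Matrix.cons_val_one,
    Matrix.cons_val_zero, Matrix.cons_val_fin_one]
  rw [Finset.prod_eq_zero (mem_range.2 hj), mul_zero]
  simp

end

end ExpAux

open ExpAux in
theorem stExp (h : StCopy) : StExp := by
  classical
  intro V E C _ _ _ _ _ _ _ B τ N Q hfit hk hN
  by_cases hcons : ∀ a ∈ Q.A, ∀ b ∈ Q.A, a.1 = b.1 → (a.2.1 = b.2.1 ↔ a.2.2 = b.2.2)
  · have hcard : (Fintype.card C : ℝ) ≠ 0 := by
      exact_mod_cast Fintype.card_ne_zero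
    refine ⟨∑ j ∈ range (Q.k + 1), bp (Fintype.card C) j *
      ∑ g : Fin Q.k → Fin j, MvPolynomial.C (ind (Function.Surjective g)) *
        ∑ c : Fin Q.k → C, wp Q τ N (fun x => (g x, c x)), ?_, ?_, ?_, ?_⟩
    · refine (degreeOf_sum_le _ _ _).trans (Finset.sup_le fun j hj => ?_)
      refine (degreeOf_mul_le _ _ _).trans ?_
      have h1 := deg_bp (Fintype.card C) j 0
      have h2 : (∑ g : Fin Q.k → Fin j, MvPolynomial.C (ind (Function.Surjective g)) *
          ∑ c : Fin Q.k → C, wp Q τ N (fun x => (g x, c x))).degreeOf 0 ≤ 0 := by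
        refine (degreeOf_sum_le _ _ _).trans (Finset.sup_le fun g _ => ?_)
        refine (degreeOf_C_mul_le _ _ _).trans ?_
        exact (degreeOf_sum_le _ _ _).trans (Finset.sup_le fun c _ => deg0_wp _ _ _ _)
      rw [mem_range] at hj
      omega
    · refine (degreeOf_sum_le _ _ _).trans (Finset.sup_le fun j hj => ?_)
      refine (degreeOf_mul_le _ _ _).trans ?_
      have h1 := deg_bp (Fintype.card C) j 1
      have h2 : (∑ g : Fin Q.k → Fin j, MvPolynomial.C (ind (Function.Surjective g)) *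
          ∑ c : Fin Q.k → C, wp Q τ N (fun x => (g x, c x))).degreeOf 1 ≤
            Q.A.card + dd N := by
        refine (degreeOf_sum_le _ _ _).trans (Finset.sup_le fun g _ => ?_)
        refine (degreeOf_C_mul_le _ _ _).trans ?_
        exact (degreeOf_sum_le _ _ _).trans (Finset.sup_le fun c _ => deg1_wp _ _ _ _ hk)
      rw [mem_range] at hj
      omega
    · intro x
      rw [map_sum]
      split_ifs with h0
      · have hA : Q.A = ∅ := by
          rw [Finset.eq_empty_iff_forall_notMem]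
          intro a _
          have := a.2.1.2
          omega
        have hE : IsEmpty (Fin Q.k) := by
          rw [h0]
          exact Fin.isEmpty'
        have hr : range (Q.k + 1) = {0} := by
          rw [h0]
          rfl
        rw [hr, Finset.sum_singleton, map_mul, map_sum, Fintype.sum_unique, map_mul, map_sum,
          Fintype.sum_unique, eval_C]
        have i1 : ind (Function.Surjective (default : Fin Q.k → Fin 0)) = 1 := by
          have : Function.Surjective (default : Fin Q.k → Fin 0) := fun y => y.elim0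
          simp [ind, this]
        have i2 : ind (Cmp Q τ fun x => ((default : Fin Q.k → Fin 0) x,
            (default : Fin Q.k → C) x)) = 1 := by
          have : Cmp Q τ fun x => ((default : Fin Q.k → Fin 0) x,
              (default : Fin Q.k → C) x) := fun a _ => (hE.false a.2.1).elim
          simp [ind, this]
        have i3 : Q.A.card - Q.k = 0 := by
          rw [hA, Finset.card_empty, Nat.zero_sub]
        rw [i1, wp, i2, i3, bp]
        simp [eval_lin]
      · refine Finset.sum_eq_zero fun j _ => ?_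
        rw [map_mul]
        rcases Nat.eq_zero_or_pos j with rfl | hj
        · have : ∀ g : Fin Q.k → Fin 0, False := fun g => (g ⟨0, by omega⟩).elim0
          rw [map_sum, Finset.sum_eq_zero fun g _ => (this g).elim, mul_zero]
        · rw [eval_bp_zero _ _ _ hj, zero_mul]
    · intro ℓ m hm hNm
      rw [h V E C B τ Q hfit hcons ℓ m (hN.trans hNm)]
      have e1 : ∑ γ : Fin Q.k → Fin ℓ × C,
          ind (∀ a ∈ Q.A, γ a.2.2 = ((γ a.2.1).1, τ (γ a.2.1).2)) *
          ((∏ j : (Fin ℓ × C) × V,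
            (m.descFactorial (cnt fun x => γ x = j.1 ∧ Q.t x = j.2) : ℝ)) /
          ∏ j : (Fin ℓ × C) × E,
            (m.descFactorial (cnt fun a : Q.A => γ a.1.2.1 = j.1 ∧ a.1.1 = j.2) : ℝ)) =
          ∑ g : Fin Q.k → Fin ℓ, ∑ c : Fin Q.k → C, wt Q τ m (fun x => (g x, c x)) := by
        rw [← Fintype.sum_prod_type']
        exact Fintype.sum_equiv (Equiv.arrowProdEquivProdArrow _ _ _) _ _ fun γ => rfl
      rw [e1, sum_by_range Q.k (fun ℓ g => ∑ c : Fin Q.k → C, wt Q τ m (fun x => (g x, c x)))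
        (fun j ℓ ι hι g => Finset.sum_congr rfl fun c _ => wt_ins Q τ m ι hι g c), map_sum,
        Finset.mul_sum]
      refine Finset.sum_congr rfl fun j _ => ?_
      rw [map_mul, eval_bp _ hcard _ _ _ hm, map_sum, mul_left_comm]
      congr 1
      rw [Finset.mul_sum]
      refine Finset.sum_congr rfl fun g _ => ?_
      rw [map_mul, eval_C, map_sum, mul_left_comm]
      congr 1
      rw [Finset.mul_sum]
      refine Finset.sum_congr rfl fun c _ => ?_
      rw [eval_wp Q τ N _ hk hN m hm hNm]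
  · push Not at hcons
    obtain ⟨a, ha, b, hb, hab, hne⟩ := hcons
    have hk0 : Q.k ≠ 0 := by
      have := a.2.1.2
      omega
    have hcp : ∀ (Φ : Type) [Fintype Φ] (π : E → Equiv.Perm Φ), cp π Q.t Q.A = 0 := by
      intro Φ _ π
      rw [cp, cnt_eq, Finset.card_eq_zero, Finset.filter_eq_empty_iff]
      rintro φ - ⟨h1, h2⟩
      have h3 := h2 a ha
      have h4 := h2 b hb
      have f1 := hfit a ha
      have f2 := hfit b hb
      rw [← hab] at h4 f2
      rcases hne with ⟨h5, h6⟩ | ⟨h5, h6⟩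
      · apply h6
        apply h1
        · rw [f1.2, f2.2]
        · rw [← h3, ← h4, h5]
      · apply h5
        apply h1
        · rw [f1.1, f2.1]
        · apply (π a.1).injective
          rw [h3, h4, h6]
    refine ⟨0, by simp, by simp, fun x => by simp [hk0], fun ℓ m _ _ => ?_⟩
    have : avg (fun ω : Fin ℓ × C × E → Equiv.Perm (Fin m) => (cp (blk τ ω) Q.t Q.A : ℝ)) = 0 := by
      rw [avg, Finset.sum_eq_zero fun ω _ => by rw [hcp, Nat.cast_zero], zero_div]
    rw [this]
    simp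

end Pool.Agent.Lib.MP_cff830_lc.Deg
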