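import Pool.Agent.Lib.MP_cff830_lc.Deg.Stmts

/-!
# D10: the lifted graphs
-/

namespace Pool.Agent.Lib.MP_cff830_lc.Deg

open Finset Pool.Agent.Lib.MP_cff830_lc.AC0

set_option linter.unusedSectionVars false

namespace Graphaux

section

variable {V E Φ : Type} [DecidableEq V] [DecidableEq E]

theorem no_loop {B : Base V E} {g : ℕ} (hG : Girthy B g) (hg : 2 ≤ g) (e : E) :
    B.src e ≠ B.tgt e := by
  obtain ⟨e', he', h1, -⟩ := hG {e} (by simp) (by simp; omega)
  rw [mem_singleton] at he'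
  rwa [he'] at h1

/-- the ends of the edge `e` are `u` and `w` -/
def End (B : Base V E) (e : E) (u w : V) : Prop :=
  (B.src e = u ∧ B.tgt e = w) ∨ (B.src e = w ∧ B.tgt e = u)

theorem no_par {B : Base V E} {g : ℕ} (hG : Girthy B g) (hg : 2 ≤ g) {e f : E} {u w : V}
    (he : End B e u w) (hf : End B f u w) : e = f := by
  by_contra hne
  obtain ⟨e', he', -, v, hv, h2⟩ := hG {e, f} (by simp)
    ((card_le_two).trans hg)
  have key : ∀ e1 e2 : E, e1 ≠ e2 → End B e1 u w → End B e2 u w →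
      (v = B.src e1 ∨ v = B.tgt e1) → (B.src e2 ≠ v ∧ B.tgt e2 ≠ v) → False := by
    rintro e1 e2 - (⟨h1, h2⟩ | ⟨h1, h2⟩) (⟨h3, h4⟩ | ⟨h3, h4⟩) (h5 | h5) ⟨h6, h7⟩ <;>
    simp_all
  simp only [mem_insert, mem_singleton] at he' h2
  rcases he' with rfl | rfl
  · exact key e' f hne he hf hv (h2 f (Or.inr rfl) (Ne.symm hne))
  · exact key e' e (Ne.symm hne) hf he hv (h2 e (Or.inl rfl) hne)

/-- the neighbour of `a` over the edge `e` -/
def nb (B : Base V E) (π : E → Equiv.Perm Φ) (e : E) (a : V × Φ) :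
    V × Φ :=
  if B.src e = a.1 then (B.tgt e, π e a.2) else (B.src e, (π e).symm a.2)

/-- `x` and `y` are adjacent over the base edge `e` -/
def Ov (B : Base V E) (π : E → Equiv.Perm Φ) {n : ℕ} (ψ : V × Φ ↪ Fin n)
    (e : E) (x y : Fin n) : Prop :=
  ∃ a b, x = ψ a ∧ y = ψ b ∧ End B e a.1 b.1 ∧ b = nb B π e a ∧ a = nb B π e b

theorem Ov.symm {B : Base V E} {π : E → Equiv.Perm Φ} {n : ℕ}
    {ψ : V × Φ ↪ Fin n} {e : E} {x y : Fin n} (h : Ov B π ψ e x y) :
    Ov B π ψ e y x := by
  obtain ⟨a, b, h1, h2, h3, h4, h5⟩ := h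
  exact ⟨b, a, h2, h1, h3.symm, h5, h4⟩

theorem exists_ov {B : Base V E} {g : ℕ} (hG : Girthy B g) (hg : 2 ≤ g)
    {π : E → Equiv.Perm Φ} {n : ℕ} {ψ : V × Φ ↪ Fin n} {x y : Fin n}
    (h : (Gl B π ψ).Adj x y) : ∃ e, Ov B π ψ e x y := by
  have key : ∀ x y : Fin n, (∃ e p, x = ψ (B.src e, p) ∧ y = ψ (B.tgt e, π e p)) →
      ∃ e, Ov B π ψ e x y := by
    rintro x y ⟨e, p, h2, h3⟩
    refine ⟨e, (B.src e, p), (B.tgt e, π e p), h2, h3, Or.inl ⟨rfl, rfl⟩, ?_, ?_⟩
    · simp [nb]
    · have h5 : B.src e ≠ B.tgt e := no_loop hG hg _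
      simp only [nb, if_neg h5, Prod.mk.injEq, true_and]
      simp
  rw [Gl, SimpleGraph.fromRel_adj] at h
  rcases h.2 with h | h
  · exact key x y h
  · obtain ⟨e, he⟩ := key y x h
    exact ⟨e, he.symm⟩

theorem ov_unique {B : Base V E} {g : ℕ} (hG : Girthy B g) (hg : 2 ≤ g)
    {π : E → Equiv.Perm Φ} {n : ℕ} {ψ : V × Φ ↪ Fin n} {x y : Fin n} {e f : E}
    (he : Ov B π ψ e x y) (hf : Ov B π ψ f x y) : e = f := by
  obtain ⟨a, b, h1, h2, h3, -⟩ := he
  obtain ⟨a', b', h1', h2', h3', -⟩ := hf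
  have ha : a = a' := ψ.injective (h1.symm.trans h1')
  have hb : b = b' := ψ.injective (h2.symm.trans h2')
  subst ha hb
  exact no_par hG hg h3 h3'

theorem girth_gt [Fintype E] {B : Base V E} {g : ℕ} (hG : Girthy B g)
    (hg : 2 ≤ g) (π : E → Equiv.Perm Φ) {n : ℕ} (ψ : V × Φ ↪ Fin n)
    (x : Fin n) (p : (Gl B π ψ).Walk x x) (hp : p.IsCycle) : g < p.length := by
  classical
  by_contra hlen
  push Not at hlen
  obtain ⟨F, hF⟩ : ∃ F : Finset E, F = univ.filter fun e => ∃ x y, s(x, y) ∈ p.edges ∧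
    Ov B π ψ e x y := ⟨_, rfl⟩
  have hmem : ∀ e, e ∈ F ↔ ∃ x y, s(x, y) ∈ p.edges ∧ Ov B π ψ e x y := by
    intro e; rw [hF]; simp
  have hexF : ∀ x y, s(x, y) ∈ p.edges → ∃ e ∈ F, Ov B π ψ e x y := by
    intro x y hxy
    obtain ⟨e, he⟩ := exists_ov hG hg (p.adj_of_mem_edges hxy)
    exact ⟨e, (hmem e).2 ⟨x, y, hxy, he⟩, he⟩
  have hne : F.Nonempty := by
    have h3 := hp.three_le_length
    have h4 : p.edges ≠ [] := by
      intro h
      have := p.length_edges
      rw [h] at this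
      simp at this
      omega
    obtain ⟨q, hq⟩ := List.exists_mem_of_ne_nil _ h4
    induction q using Sym2.ind with
    | _ a b =>
      obtain ⟨e, he, -⟩ := hexF a b hq
      exact ⟨e, he⟩
  have hcard : F.card ≤ g := by
    refine le_trans ?_ hlen
    have h1 : ∀ e ∈ F, ∃ q : Sym2 (Fin n), q ∈ p.edges ∧ ∃ x y, q = s(x, y) ∧
        Ov B π ψ e x y := by
      intro e he
      obtain ⟨x, y, h1, h2⟩ := (hmem e).1 he
      exact ⟨s(x, y), h1, x, y, rfl, h2⟩
    have : Nonempty (Sym2 (Fin n)) := ⟨s(x, x)⟩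
    choose! q hq1 hq2 using h1
    calc F.card ≤ p.edges.toFinset.card := by
          apply card_le_card_of_injOn q
          · intro e he
            simp only [List.coe_toFinset, Set.mem_ofPred_eq]
            exact hq1 e he
          · intro e he f hf hef
            obtain ⟨x, y, h1, h2⟩ := hq2 e he
            obtain ⟨x', y', h1', h2'⟩ := hq2 f hf
            have h3 : s(x, y) = s(x', y') := by rw [← h1, ← h1', hef]
            rw [Sym2.eq_iff] at h3
            rcases h3 with ⟨rfl, rfl⟩ | ⟨rfl, rfl⟩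
            · exact ov_unique hG hg h2 h2'
            · exact ov_unique hG hg h2 h2'.symm
      _ ≤ p.edges.length := List.toFinset_card_le _
      _ = p.length := p.length_edges
  obtain ⟨e, heF, -, v, hv, hv2⟩ := hG F hne hcard
  -- a vertex of the cycle over `v`
  obtain ⟨x1, y1, h1, h2⟩ := (hmem e).1 heF
  have key : ∀ x1 y1, s(x1, y1) ∈ p.edges → Ov B π ψ e x1 y1 →
      (∀ a, x1 = ψ a → a.1 = v) → False := by
    intro x1 y1 hxy hov hxv
    have hsup : x1 ∈ p.support := p.fst_mem_support_of_mem_edges hxy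
    have h2c := hp.ncard_neighborSet_toSubgraph_eq_two hsup
    obtain ⟨z1, z2, hz, hset⟩ := Set.ncard_eq_two.1 h2c
    obtain ⟨a, b, ha, -, hab, -⟩ := hov
    have hz' : ∀ z ∈ p.toSubgraph.neighborSet x1, z = ψ (nb B π e a) := by
      intro z hz
      have hz3 : s(x1, z) ∈ p.edges := by
        rw [SimpleGraph.Subgraph.mem_neighborSet] at hz
        exact SimpleGraph.Walk.adj_toSubgraph_iff_mem_edges.1 hz
      obtain ⟨f, hf, a', b', h1, h2, h3, h4, -⟩ := hexF x1 z hz3
      have haa : a = a' := ψ.injective (ha.symm.trans h1)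
      subst haa
      have hav : a.1 = v := hxv a ha
      have hfe : f = e := by
        by_contra hne'
        have h5 := hv2 f hf hne'
        rcases h3 with ⟨h6, h7⟩ | ⟨h6, h7⟩
        · exact h5.1 (h6.trans hav)
        · exact h5.2 (h7.trans hav)
      rw [h2, h4, hfe]
    have e1 := hz' z1 (by rw [hset]; simp)
    have e2 := hz' z2 (by rw [hset]; simp)
    exact hz (e1.trans e2.symm)
  obtain ⟨a, b, ha, hb, hab, hrest⟩ := h2
  have hcase : v = a.1 ∨ v = b.1 := by
    rcases hab with ⟨h3, h4⟩ | ⟨h3, h4⟩ <;> rcases hv with hv | hv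
    · left; rw [hv, h3]
    · right; rw [hv, h4]
    · right; rw [hv, h3]
    · left; rw [hv, h4]
  rcases hcase with hc | hc
  · refine key x1 y1 h1 ⟨a, b, ha, hb, hab, hrest⟩ ?_
    intro a' ha'
    have : a = a' := ψ.injective (ha.symm.trans ha')
    rw [← this, hc]
  · refine key y1 x1 (by rw [Sym2.eq_swap]; exact h1)
      (Ov.symm ⟨a, b, ha, hb, hab, hrest⟩) ?_
    intro b' hb'
    have : b = b' := ψ.injective (hb.symm.trans hb')
    rw [← this, hc]

theorem vc_le {n : ℕ} {G : SimpleGraph (Fin n)} {C : Finset (Fin n)} (h : IsVC G C) :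
    vc G ≤ C.card := Nat.sInf_le ⟨C, h, rfl⟩

theorem exists_vc {n : ℕ} (G : SimpleGraph (Fin n)) :
    ∃ C : Finset (Fin n), IsVC G C ∧ C.card = vc G := by
  have h : {m | ∃ C : Finset (Fin n), IsVC G C ∧ C.card = m}.Nonempty :=
    ⟨_, univ, fun u v _ => Or.inl (mem_univ _), rfl⟩
  exact Nat.sInf_mem h

theorem adj_of {B : Base V E} {π : E → Equiv.Perm Φ} {n : ℕ} {ψ : V × Φ ↪ Fin n} {e : E}
    (p : Φ) (hne : B.src e ≠ B.tgt e) :
    (Gl B π ψ).Adj (ψ (B.src e, p)) (ψ (B.tgt e, π e p)) := by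
  rw [Gl, SimpleGraph.fromRel_adj]
  refine ⟨?_, Or.inl ⟨e, p, rfl, rfl⟩⟩
  intro h2
  have := ψ.injective h2
  exact hne (congrArg Prod.fst this)

theorem cnt_eq' {α : Type} [Fintype α] (P : α → Prop) [DecidablePred P] :
    cnt P = (univ.filter P).card := by
  unfold cnt
  congr

/-- the elements of a small finite set in a list of given length -/
theorem exists_enum {α : Type} (P : Finset α) {D : ℕ} (h : P.card ≤ D) :
    ∃ f : Fin D → Option α, (∀ x, x ∈ P ↔ ∃ i, f i = some x) ∧
      ∀ i j x, f i = some x → f j = some x → i = j := by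
  refine ⟨fun i => P.toList[(i : ℕ)]?, ?_, ?_⟩
  · intro x
    rw [← Finset.mem_toList, List.mem_iff_getElem?]
    constructor
    · rintro ⟨i, hi⟩
      have h1 : i < P.toList.length := by
        by_contra h2
        rw [List.getElem?_eq_none (not_lt.1 h2)] at hi
        exact absurd hi (by simp)
      rw [Finset.length_toList] at h1
      exact ⟨⟨i, by omega⟩, hi⟩
    · rintro ⟨i, hi⟩
      exact ⟨i, hi⟩
  · intro i j x hi hj
    have h1 : (i : ℕ) < P.toList.length := by
      by_contra h2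
      have h3 : P.toList[(i : ℕ)]? = none := List.getElem?_eq_none (not_lt.1 h2)
      exact absurd (h3.symm.trans hi) (by simp)
    exact Fin.ext ((List.getElem?_inj h1 P.nodup_toList).1 (hi.trans hj.symm))

theorem exists_port [Fintype E] {B : Base V E} {D : ℕ} (hD : DegLe B D)
    (hne : ∀ e, B.src e ≠ B.tgt e) : ∃ port : V → Fin D → Option (E × Bool), IsPort B port := by
  classical
  have h : ∀ v, ∃ f : Fin D → Option (E × Bool),
      (∀ x, x ∈ (univ.filter fun x : E × Bool =>
        (if x.2 = true then B.src x.1 else B.tgt x.1) = v) ↔ ∃ i, f i = some x) ∧ ∀ i j x, f i = some x → f j = some x → i = j := by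
    intro v
    apply exists_enum
    have h1 := hD v
    rw [cnt_eq'] at h1
    refine le_trans ?_ h1
    apply card_le_card_of_injOn Prod.fst
    · rintro ⟨e, b⟩ hx
      simp only [coe_filter, mem_univ, true_and, Set.mem_ofPred_eq] at hx ⊢
      cases b
      · exact Or.inr (by simpa using hx)
      · exact Or.inl (by simpa using hx)
    · rintro ⟨e, b⟩ hx ⟨e', b'⟩ hx' hee
      simp only [coe_filter, mem_univ, true_and, Set.mem_ofPred_eq] at hx hx' hee
      subst hee
      have h2 := hne e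
      cases b <;> cases b'
      · rfl
      · exfalso
        simp only [if_true, Bool.false_eq_true, if_false] at hx hx'
        exact h2 (hx'.trans hx.symm)
      · exfalso
        simp only [if_true, Bool.false_eq_true, if_false] at hx hx'
        exact h2 (hx.trans hx'.symm)
      · rfl
  choose port hp1 hp2 using h
  refine ⟨port, ?_, ?_, hp2⟩
  · intro v e
    rw [← hp1 v (e, true)]
    simp
  · intro v e
    rw [← hp1 v (e, false)]
    simp

theorem Ll_iff {B : Base V E} {D : ℕ} {port : V → Fin D → Option (E × Bool)}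
    {π : E → Equiv.Perm Φ} {n : ℕ} {ψ : V × Φ ↪ Fin n} {x y : Fin n} {i : Fin D} :
    Ll B port π ψ x i = some y ↔ ∃ a b, ψ a = x ∧ nx B port π a i = some b ∧ ψ b = y := by
  unfold Ll
  rw [Option.bind_eq_some_iff]
  constructor
  · rintro ⟨a, ha, h⟩
    rw [Option.map_eq_some_iff] at h
    obtain ⟨b, hb, h⟩ := h
    exact ⟨a, b, (ψ.injective.isPartialInv _ _).1 ha, hb, h⟩
  · rintro ⟨a, b, ha, hb, h⟩
    refine ⟨a, (ψ.injective.isPartialInv _ _).2 ha, ?_⟩
    rw [Option.map_eq_some_iff]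
    exact ⟨b, hb, h⟩

theorem nx_iff {B : Base V E} {D : ℕ} {port : V → Fin D → Option (E × Bool)}
    {π : E → Equiv.Perm Φ} {a b : V × Φ} {i : Fin D} :
    nx B port π a i = some b ↔
      (∃ e, port a.1 i = some (e, true) ∧ b = (B.tgt e, π e a.2)) ∨
      ∃ e, port a.1 i = some (e, false) ∧ b = (B.src e, (π e).symm a.2) := by
  unfold nx
  rw [Option.map_eq_some_iff]
  constructor
  · rintro ⟨⟨e, c⟩, h1, h2⟩
    cases c
    · right
      exact ⟨e, h1, by rw [← h2]; simp⟩
    · left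
      exact ⟨e, h1, by rw [← h2]; simp⟩
  · rintro (⟨e, h1, h2⟩ | ⟨e, h1, h2⟩)
    · exact ⟨_, h1, by rw [h2]; simp⟩
    · exact ⟨_, h1, by rw [h2]; simp⟩

theorem isList {B : Base V E} {g D : ℕ} (hG : Girthy B g) (hg : 2 ≤ g)
    {port : V → Fin D → Option (E × Bool)} (hp : IsPort B port) (π : E → Equiv.Perm Φ) {n : ℕ}
    (ψ : V × Φ ↪ Fin n) : IsList (Gl B π ψ) (Ll B port π ψ) := by
  have hne := fun e => no_loop hG hg e
  constructor
  · intro x y
    constructor
    · intro h
      rw [Gl, SimpleGraph.fromRel_adj] at h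
      rcases h.2 with ⟨e, p, h1, h2⟩ | ⟨e, p, h1, h2⟩
      · obtain ⟨i, hi⟩ := (hp.1 (B.src e) e).1 rfl
        refine ⟨i, Ll_iff.2 ⟨(B.src e, p), (B.tgt e, π e p), h1.symm, ?_, h2.symm⟩⟩
        exact nx_iff.2 (Or.inl ⟨e, hi, rfl⟩)
      · obtain ⟨i, hi⟩ := (hp.2.1 (B.tgt e) e).1 rfl
        refine ⟨i, Ll_iff.2 ⟨(B.tgt e, π e p), (B.src e, p), h2.symm, ?_, h1.symm⟩⟩
        exact nx_iff.2 (Or.inr ⟨e, hi, by simp⟩)
    · rintro ⟨i, hi⟩
      obtain ⟨a, b, ha, hab, hb⟩ := Ll_iff.1 hi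
      rcases nx_iff.1 hab with ⟨e, he, h⟩ | ⟨e, he, h⟩
      · have h1 : B.src e = a.1 := (hp.1 a.1 e).2 ⟨i, he⟩
        have h2 : a = (B.src e, a.2) := by rw [h1]
        rw [← ha, ← hb, h]
        nth_rw 1 [h2]
        exact adj_of _ (hne e)
      · have h1 : B.tgt e = a.1 := (hp.2.1 a.1 e).2 ⟨i, he⟩
        have h2 : a = (B.tgt e, π e ((π e).symm a.2)) := by
          rw [h1, Equiv.apply_symm_apply]
        rw [← ha, ← hb, h]
        nth_rw 1 [h2]
        exact (adj_of _ (hne e)).symm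
  · intro x i j y hi hj
    obtain ⟨a, b, ha, hab, hb⟩ := Ll_iff.1 hi
    obtain ⟨a', b', ha', hab', hb'⟩ := Ll_iff.1 hj
    have haa : a = a' := ψ.injective (ha.trans ha'.symm)
    have hbb : b = b' := ψ.injective (hb.trans hb'.symm)
    subst haa hbb
    have key : ∀ i, nx B port π a i = some b → ∃ e c, port a.1 i = some (e, c) ∧
        End B e a.1 b.1 ∧ (c = true ↔ B.src e = a.1) := by
      intro i h
      rcases nx_iff.1 h with ⟨e, he, h⟩ | ⟨e, he, h⟩
      · have h1 : B.src e = a.1 := (hp.1 a.1 e).2 ⟨i, he⟩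
        exact ⟨e, true, he, Or.inl ⟨h1, by rw [h]⟩, by simp [h1]⟩
      · have h1 : B.tgt e = a.1 := (hp.2.1 a.1 e).2 ⟨i, he⟩
        refine ⟨e, false, he, Or.inr ⟨by rw [h], h1⟩, ?_⟩
        simp only [Bool.false_eq_true, false_iff]
        intro h2
        exact hne e (h2.trans h1.symm)
    obtain ⟨e, c, h1, h2, h3⟩ := key i hab
    obtain ⟨e', c', h1', h2', h3'⟩ := key j hab'
    have hee : e = e' := no_par hG hg h2 h2'
    subst hee
    have hcc : c = c' := by
      have h4 : (c = true ↔ c' = true) := h3.trans h3'.symm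
      cases c <;> cases c' <;> simp_all
    subst hcc
    exact hp.2.2 a.1 i j _ h1 h1'

end

end Graphaux

open Graphaux in
theorem stGraph : StGraph := by
  classical
  intro V E _ _ _ _ B D g hD hG hg
  have hne := fun e => no_loop hG hg e
  obtain ⟨port, hport⟩ := exists_port hD hne
  refine ⟨hne, port, hport, ?_, ?_⟩
  · intro Φ _ _ π n ψ
    have hcov : IsVC (Gl B π ψ) (univ.map ψ) := by
      intro u v huv
      obtain ⟨e, a, b, h1, -⟩ := exists_ov hG hg huv
      left
      rw [h1]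
      simp
    refine ⟨isList hG hg hport π ψ, fun v p hp => girth_gt hG hg π ψ v p hp, ?_, ?_⟩
    · refine (vc_le hcov).trans (le_of_eq ?_)
      rw [card_map, card_univ, Fintype.card_prod]
    · intro δ hδ
      obtain ⟨K, hK, hK2⟩ := exists_vc (Gl B π ψ)
      rw [← hK2]
      have h1 := hδ (univ.filter fun a => ψ a ∉ K) (by
        rintro e p ⟨h1, h2⟩
        simp only [mem_filter, mem_univ, true_and] at h1 h2
        rcases hK _ _ (adj_of (ψ := ψ) (π := π) p (hne e)) with h4 | h4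
        · exact h1 h4
        · exact h2 h4)
      have h2 := card_filter_add_card_filter_not (s := (univ : Finset (V × Φ)))
        (fun a => ψ a ∈ K)
      rw [card_univ, Fintype.card_prod] at h2
      have h3 : (univ.filter fun a => ψ a ∈ K).card ≤ K.card := by
        apply card_le_card_of_injOn ψ
        · intro a ha
          simpa using ha
        · exact ψ.injective.injOn
      have h4 : ((univ.filter fun a => ψ a ∈ K).card : ℝ) +
          ((univ.filter fun a => ψ a ∉ K).card : ℝ) = Fintype.card V * Fintype.card Φ := by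
        exact_mod_cast h2
      have h5 : ((univ.filter fun a => ψ a ∈ K).card : ℝ) ≤ K.card := by exact_mod_cast h3
      linarith
  · intro ℓ m n ω ψ
    have h : IsVC (Gl B (blk Equiv.boolNot ω) ψ)
        ((univ : Finset (V × (Fin ℓ × Fin m))).image
          fun x => ψ (x.1, (x.2.1, false, x.2.2))) := by
      have key : ∀ e p, ψ (B.src e, p) ∈ ((univ : Finset (V × (Fin ℓ × Fin m))).image
            fun x => ψ (x.1, (x.2.1, false, x.2.2))) ∨
          ψ (B.tgt e, blk Equiv.boolNot ω e p) ∈ ((univ : Finset (V × (Fin ℓ × Fin m))).image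
            fun x => ψ (x.1, (x.2.1, false, x.2.2))) := by
        rintro e ⟨b, c, i⟩
        cases c with
        | false =>
          left
          rw [mem_image]
          exact ⟨(B.src e, (b, i)), mem_univ _, rfl⟩
        | true =>
          right
          rw [mem_image]
          exact ⟨(B.tgt e, (b, ω (b, true, e) i)), mem_univ _, rfl⟩
      intro u v huv
      rw [Gl, SimpleGraph.fromRel_adj] at huv
      rcases huv.2 with ⟨e, p, h2, h3⟩ | ⟨e, p, h2, h3⟩
      · rw [h2, h3]; exact key e p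
      · rw [h2, h3]; exact (key e p).symm
    refine (vc_le h).trans (card_image_le.trans (le_of_eq ?_))
    rw [card_univ]
    simp

end Pool.Agent.Lib.MP_cff830_lc.Deg
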