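import Pool.Agent.Lib.MP_cff830_lc.Deg.Stmts

/-!
# D12: low-degree polynomials do not distinguish the two models
-/

namespace Pool.Agent.Lib.MP_cff830_lc.Deg

open Finset Pool.Agent.Lib.MP_cff830_lc.AC0 MvPolynomial

/-! ## averages -/

section avg

variable {α β : Type} [Fintype α] [Fintype β]

theorem avg_congr {f g : α → ℝ} (h : ∀ x, f x = g x) : avg f = avg g := by
  have : f = g := funext h
  rw [this]

theorem avg_prod (f : α × β → ℝ) : avg f = avg fun a => avg fun b => f (a, b) := by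
  unfold avg
  rw [Fintype.sum_prod_type, Fintype.card_prod]
  rw [← Finset.sum_div, div_div]
  push_cast
  rw [mul_comm (Fintype.card β : ℝ)]

theorem avg_mul_left (c : ℝ) (f : α → ℝ) : avg (fun x => c * f x) = c * avg f := by
  unfold avg
  rw [← Finset.mul_sum, mul_div_assoc]

theorem avg_sum {ι : Type} (s : Finset ι) (f : ι → α → ℝ) :
    avg (fun x => ∑ i ∈ s, f i x) = ∑ i ∈ s, avg (f i) := by
  unfold avg
  rw [Finset.sum_comm, Finset.sum_div]

theorem avg_abs_le {f : α → ℝ} {c : ℝ} (hc : 0 ≤ c) (h : ∀ x, |f x| ≤ c) : |avg f| ≤ c := by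
  unfold avg
  rcases Nat.eq_zero_or_pos (Fintype.card α) with h0 | h0
  · rw [h0]; simpa using hc
  · have h1 : (0 : ℝ) < Fintype.card α := by exact_mod_cast h0
    rw [abs_div, abs_of_pos h1, div_le_iff₀ h1]
    calc |∑ x, f x| ≤ ∑ x, |f x| := Finset.abs_sum_le_sum_abs _ _
      _ ≤ ∑ _x : α, c := Finset.sum_le_sum fun x _ => h x
      _ = c * Fintype.card α := by simp [mul_comm]

end avg

/-! ## the denominator -/

theorem den_bounds {N : ℕ} {u : ℝ} (hu : 0 ≤ u) (hN : ∀ i < N, (i : ℝ) * u ≤ 1) :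
    0 ≤ den N u ∧ den N u ≤ 1 ∧ 1 - (N : ℝ) ^ 2 * u ≤ den N u := by
  have key : ∀ s : Finset ℕ, (∀ i ∈ s, i < N) →
      0 ≤ ∏ i ∈ s, (1 - (i : ℝ) * u) ^ (N / (i + 1)) ∧
      ∏ i ∈ s, (1 - (i : ℝ) * u) ^ (N / (i + 1)) ≤ 1 ∧
      1 - (s.card : ℝ) * (N * u) ≤ ∏ i ∈ s, (1 - (i : ℝ) * u) ^ (N / (i + 1)) := by
    classical
    intro s
    induction s using Finset.induction_on with
    | empty => intro _; simp
    | insert a s ha ih =>
      intro hs
      obtain ⟨h1, h2, h3⟩ := ih fun i hi => hs i (Finset.mem_insert_of_mem hi)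
      have haN : a < N := hs a (Finset.mem_insert_self _ _)
      have ha0 : 0 ≤ (a : ℝ) * u := by positivity
      have ha1 : (a : ℝ) * u ≤ 1 := hN a haN
      have hx0 : 0 ≤ (1 - (a : ℝ) * u) ^ (N / (a + 1)) := pow_nonneg (by linarith) _
      have hx1 : (1 - (a : ℝ) * u) ^ (N / (a + 1)) ≤ 1 := pow_le_one₀ (by linarith) (by linarith)
      have hx2 : 1 - (N : ℝ) * u ≤ (1 - (a : ℝ) * u) ^ (N / (a + 1)) := by
        have hb := one_add_mul_le_pow (a := -((a : ℝ) * u)) (by linarith) (N / (a + 1))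
        have h4 : ((N / (a + 1) : ℕ) : ℝ) * a ≤ N := by
          have : N / (a + 1) * a ≤ N := le_trans (Nat.mul_le_mul_left _ (Nat.le_succ a))
            (Nat.div_mul_le_self N (a + 1))
          exact_mod_cast this
        have h5 : ((N / (a + 1) : ℕ) : ℝ) * (a * u) ≤ N * u := by
          calc ((N / (a + 1) : ℕ) : ℝ) * (a * u) = (((N / (a + 1) : ℕ) : ℝ) * a) * u := by ring
            _ ≤ N * u := mul_le_mul_of_nonneg_right h4 hu
        calc 1 - (N : ℝ) * u ≤ 1 + ((N / (a + 1) : ℕ) : ℝ) * (-((a : ℝ) * u)) := by linarith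
          _ ≤ (1 + -((a : ℝ) * u)) ^ (N / (a + 1)) := hb
          _ = _ := by ring
      rw [Finset.prod_insert ha, Finset.card_insert_of_notMem ha]
      set x := (1 - (a : ℝ) * u) ^ (N / (a + 1))
      set y := ∏ i ∈ s, (1 - (i : ℝ) * u) ^ (N / (i + 1))
      refine ⟨mul_nonneg hx0 h1, mul_le_one₀ hx1 h1 h2, ?_⟩
      push_cast
      nlinarith [mul_nonneg (sub_nonneg.2 hx1) (sub_nonneg.2 h2)]
  obtain ⟨h1, h2, h3⟩ := key (range N) fun i hi => Finset.mem_range.1 hi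
  refine ⟨h1, h2, ?_⟩
  rw [Finset.card_range] at h3
  calc 1 - (N : ℝ) ^ 2 * u = 1 - (N : ℝ) * (N * u) := by ring
    _ ≤ _ := h3

theorem den_bounds' {N m : ℕ} (hm : 0 < m) (hN : N ≤ m) :
    0 ≤ den N (1 / m) ∧ den N (1 / m) ≤ 1 ∧ 1 - (N : ℝ) ^ 2 / m ≤ den N (1 / m) := by
  have hm' : (0 : ℝ) < m := by exact_mod_cast hm
  have := den_bounds (N := N) (u := 1 / (m : ℝ)) (by positivity) (by
    intro i hi
    rw [mul_one_div, div_le_one hm']
    have : i ≤ m := by omega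
    exact_mod_cast this)
  rw [mul_one_div] at this
  exact this

/-! ## the polynomial -/

/-- the polynomials for the model with phases `C`; the value at `0` does not depend on `C` -/
theorem exists_poly (h2 : StLeaf) (h3 : StSym) (h5 : StExp) {V E : Type} [Fintype V]
    [DecidableEq V] [Fintype E] [DecidableEq E] (B : Base V E) {D : ℕ}
    (port : V → Fin D → Option (E × Bool)) (hB : ∀ e, B.src e ≠ B.tgt e) (hport : IsPort B port)
    {n d : ℕ} (P : MvPolynomial (Fin n × Fin D × Fin n) ℝ) (hd : P.totalDegree ≤ d) :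
    ∃ F : ℝ → ℝ, ∀ (C : Type) [Fintype C] [DecidableEq C] [Nonempty C] (τ : Equiv.Perm C),
      ∃ q : MvPolynomial (Fin 2) ℝ, q.degreeOf 0 ≤ 2 * d ∧ q.degreeOf 1 ≤ 2 * d + dd d ∧
        (∀ x : ℝ, eval ![x, 0] q = F x) ∧
        ∀ ℓ m : ℕ, 0 < m → d ≤ m → ∀ ψ : V × (Fin ℓ × C × Fin m) ↪ Fin n,
          den d (1 / m) *
            avg (fun ω : Fin ℓ × C × E → Equiv.Perm (Fin m) =>
              avg (fun ρ : Equiv.Perm (Fin n) =>
                eval (lbit (Ll B port (blk τ ω) (ψ.trans ρ.toEmbedding))) P)) =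
          eval ![(ℓ : ℝ) * Fintype.card C * m, 1 / m] q := by
  obtain ⟨r, c, Q, hQ, hS⟩ := h3 V E B D port hport n P
  have hL := fun i => h2 V E B hB (Q i) (hQ i).1
  choose s c' a Q' hQ' hL' using hL
  refine ⟨fun x => ∑ i, ∑ j, c i * c' i j * x ^ a i j * (if (Q' i j).k = 0 then 1 else 0), ?_⟩
  intro C _ _ _ τ
  have hE := fun (i : Fin r) (j : Fin (s i)) => h5 V E C B τ d (Q' i j) (hQ' i j).1 (hQ' i j).2.1
    (le_trans (hQ' i j).2.2.1 (le_trans (hQ i).2.1 hd))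
  choose q hq0 hq1 hqz hqe using hE
  refine ⟨∑ i, ∑ j, MvPolynomial.C (c i * c' i j) * (X 0 ^ a i j * q i j), ?_, ?_, ?_, ?_⟩
  · refine le_trans (degreeOf_sum_le _ _ _) (Finset.sup_le fun i _ => ?_)
    refine le_trans (degreeOf_sum_le _ _ _) (Finset.sup_le fun j _ => ?_)
    refine le_trans (degreeOf_C_mul_le _ _ _) ?_
    refine le_trans (degreeOf_mul_le _ _ _) ?_
    have h1 : degreeOf (0 : Fin 2) (X 0 ^ a i j : MvPolynomial (Fin 2) ℝ) ≤ a i j := by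
      refine le_trans (degreeOf_pow_le _ _ _) ?_
      rw [degreeOf_X]
      simp
    have h3 := (hQ' i j).2.2.2
    have h4 := (hQ i).2.2
    have h5 := hq0 i j
    omega
  · refine le_trans (degreeOf_sum_le _ _ _) (Finset.sup_le fun i _ => ?_)
    refine le_trans (degreeOf_sum_le _ _ _) (Finset.sup_le fun j _ => ?_)
    refine le_trans (degreeOf_C_mul_le _ _ _) ?_
    refine le_trans (degreeOf_mul_le _ _ _) ?_
    have h1 : degreeOf (1 : Fin 2) (X 0 ^ a i j : MvPolynomial (Fin 2) ℝ) ≤ 0 := by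
      refine le_trans (degreeOf_pow_le _ _ _) ?_
      rw [degreeOf_X]
      simp
    have h5 := hq1 i j
    omega
  · intro x
    simp only [map_sum, map_mul, map_pow, eval_C, eval_X, hqz, Matrix.cons_val_zero]
    refine Finset.sum_congr rfl fun i _ => Finset.sum_congr rfl fun j _ => ?_
    ring
  · intro ℓ m hm hdm ψ
    have h1 : ∀ ω : Fin ℓ × C × E → Equiv.Perm (Fin m),
        avg (fun ρ : Equiv.Perm (Fin n) =>
          eval (lbit (Ll B port (blk τ ω) (ψ.trans ρ.toEmbedding))) P) =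
        ∑ i, ∑ j, c i * c' i j * (((ℓ : ℝ) * Fintype.card C * m) ^ a i j *
          (cp (blk τ ω) (Q' i j).t (Q' i j).A : ℝ)) := by
      intro ω
      rw [hS]
      refine Finset.sum_congr rfl fun i _ => ?_
      rw [hL', Finset.mul_sum]
      refine Finset.sum_congr rfl fun j _ => ?_
      have : (Fintype.card (Fin ℓ × C × Fin m) : ℝ) = (ℓ : ℝ) * Fintype.card C * m := by
        simp [Fintype.card_prod, mul_assoc]
      rw [this]
      ring
    rw [avg_congr h1, avg_sum]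
    simp only [avg_sum, avg_mul_left]
    rw [Finset.mul_sum]
    simp only [map_sum, map_mul, map_pow, eval_C, eval_X, Matrix.cons_val_zero]
    refine Finset.sum_congr rfl fun i _ => ?_
    rw [Finset.mul_sum]
    refine Finset.sum_congr rfl fun j _ => ?_
    rw [← hqe i j ℓ m hm hdm]
    ring

/-- a numbering exists for every fibre of size at most that of a numbered one -/
theorem exists_emb {V Φ Φ' : Type} [Fintype V] [Fintype Φ] [Fintype Φ'] {n : ℕ}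
    (ψ : V × Φ ↪ Fin n) (h : Fintype.card Φ' ≤ Fintype.card Φ) : Nonempty (V × Φ' ↪ Fin n) := by
  apply Function.Embedding.nonempty_of_card_le
  have h1 := Fintype.card_le_of_embedding ψ
  rw [Fintype.card_prod] at h1 ⊢
  exact le_trans (Nat.mul_le_mul_left _ h) h1

/-- D12 -/
theorem stInd (h2 : StLeaf) (h3 : StSym) (h5 : StExp) (h6 : StAn) : StInd := by
  intro V E _ _ _ _ B D port hB hport n m d R P hP hd hm hR hb hR1 hR2 ψ₁ ψ₂
  obtain ⟨F, hF⟩ := exists_poly h2 h3 h5 B port hB hport P hP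
  obtain ⟨q₁, a1, b1, z1, e1⟩ := hF Unit (Equiv.refl Unit)
  obtain ⟨q₂, a2, b2, z2, e2⟩ := hF Bool Equiv.boolNot
  have hm' : (0 : ℝ) < m := by exact_mod_cast hm
  have hdm : d ≤ m := by
    have h1 : 1 ≤ R := hR
    have h2 : 1 * (d + 1) ≤ R * (8 * (4 * d + dd d) ^ 2 + d + 1) :=
      Nat.mul_le_mul h1 (by omega)
    have h3 : 2 * (R * (8 * (4 * d + dd d) ^ 2 + d + 1)) ≤ 2 * m := by
      rw [← mul_assoc]; exact hR2
    omega
  -- the polynomials are bounded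
  have hbd1 : ∀ ℓ m' : ℕ, 0 < ℓ → 0 < m' → d ≤ m' → 1 * ℓ * m' ≤ 2 * m →
      |eval ![((1 : ℕ) : ℝ) * ℓ * m', 1 / m'] q₁| ≤ 1 := by
    intro ℓ m' _ hm1 hm2 hle
    obtain ⟨ψ⟩ := exists_emb (Φ' := Fin ℓ × Unit × Fin m') ψ₁ (by
      simp only [Fintype.card_prod, Fintype.card_fin, Fintype.card_unit]
      simpa using hle)
    have h1 := e1 ℓ m' hm1 hm2 ψ
    have h2 : ((1 : ℕ) : ℝ) * ℓ * m' = (ℓ : ℝ) * Fintype.card Unit * m' := by simp
    rw [h2, ← h1, abs_mul]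
    obtain ⟨g1, g2, -⟩ := den_bounds' hm1 hm2
    rw [abs_of_nonneg g1]
    exact mul_le_one₀ g2 (abs_nonneg _)
      (avg_abs_le zero_le_one fun ω => avg_abs_le zero_le_one fun ρ => hb _ _ _)
  have hbd2 : ∀ ℓ m' : ℕ, 0 < ℓ → 0 < m' → d ≤ m' → 2 * ℓ * m' ≤ 2 * m →
      |eval ![((2 : ℕ) : ℝ) * ℓ * m', 1 / m'] q₂| ≤ 1 := by
    intro ℓ m' _ hm1 hm2 hle
    obtain ⟨ψ⟩ := exists_emb (Φ' := Fin ℓ × Bool × Fin m') ψ₂ (by
      simp only [Fintype.card_prod, Fintype.card_fin, Fintype.card_bool]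
      calc ℓ * (2 * m') = 2 * ℓ * m' := by ring
        _ ≤ 2 * m := hle
        _ = 1 * (2 * m) := by ring)
    have h1 := e2 ℓ m' hm1 hm2 ψ
    have h2 : ((2 : ℕ) : ℝ) * ℓ * m' = (ℓ : ℝ) * Fintype.card Bool * m' := by
      simp [mul_comm]
    rw [h2, ← h1, abs_mul]
    obtain ⟨g1, g2, -⟩ := den_bounds' hm1 hm2
    rw [abs_of_nonneg g1]
    exact mul_le_one₀ g2 (abs_nonneg _)
      (avg_abs_le zero_le_one fun ω => avg_abs_le zero_le_one fun ρ => hb _ _ _)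
  have hsum : 2 * d + (2 * d + dd d) = 4 * d + dd d := by ring
  have A1 := h6 q₁ (2 * d) (2 * d + dd d) 1 d R (2 * m) one_pos hR a1 b1 hbd1 hR1 (by
    rw [hsum]
    calc 1 * R * (8 * (4 * d + dd d) ^ 2 + d + 1) ≤ 2 * R * (8 * (4 * d + dd d) ^ 2 + d + 1) :=
          Nat.mul_le_mul_right _ (by omega)
      _ ≤ 2 * m := hR2)
  have A2 := h6 q₂ (2 * d) (2 * d + dd d) 2 d R (2 * m) two_pos hR a2 b2 hbd2 hR1 (by
    rw [hsum]; exact hR2)
  rw [z1] at A1
  rw [z2] at A2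
  -- the values at the two models
  have B1 := e1 1 (2 * m) (by omega) (by omega) ψ₁
  have B2 := e2 1 m hm hdm ψ₂
  have c1 : ![((1 : ℕ) : ℝ) * Fintype.card Unit * ((2 * m : ℕ) : ℝ), 1 / ((2 * m : ℕ) : ℝ)] =
      ![((2 * m : ℕ) : ℝ), ((1 : ℕ) : ℝ) / ((2 * m : ℕ) : ℝ)] := by
    simp
  have c2 : ![((1 : ℕ) : ℝ) * Fintype.card Bool * (m : ℝ), 1 / (m : ℝ)] =
      ![((2 * m : ℕ) : ℝ), ((2 : ℕ) : ℝ) / ((2 * m : ℕ) : ℝ)] := by
    have : ((2 : ℕ) : ℝ) / ((2 * m : ℕ) : ℝ) = 1 / (m : ℝ) := by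
      push_cast
      field_simp
    rw [this]
    simp
  rw [c1] at B1
  rw [c2] at B2
  rw [← B1] at A1
  rw [← B2] at A2
  rw [avg_prod, avg_prod]
  set x₁ := avg fun ω : Fin 1 × Unit × E → Equiv.Perm (Fin (2 * m)) =>
    avg fun ρ : Equiv.Perm (Fin n) =>
      eval (lbit (Ll B port (blk (Equiv.refl Unit) ω) (ψ₁.trans ρ.toEmbedding))) P with hx₁
  set x₂ := avg fun ω : Fin 1 × Bool × E → Equiv.Perm (Fin m) =>
    avg fun ρ : Equiv.Perm (Fin n) =>
      eval (lbit (Ll B port (blk Equiv.boolNot ω) (ψ₂.trans ρ.toEmbedding))) P with hx₂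
  have hx₁' : |x₁| ≤ 1 :=
    avg_abs_le zero_le_one fun ω => avg_abs_le zero_le_one fun ρ => hb _ _ _
  have hx₂' : |x₂| ≤ 1 :=
    avg_abs_le zero_le_one fun ω => avg_abs_le zero_le_one fun ρ => hb _ _ _
  obtain ⟨p1, p2, p3⟩ := den_bounds' (N := d) (m := 2 * m) (by omega) (by omega)
  obtain ⟨r1, r2, r3⟩ := den_bounds' (N := d) (m := m) hm hdm
  set y₁ := den d (1 / ((2 * m : ℕ) : ℝ))
  set y₂ := den d (1 / (m : ℝ))
  have s1 : |y₁ * x₁ - x₁| ≤ (d : ℝ) ^ 2 / ((2 * m : ℕ) : ℝ) := by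
    have : y₁ * x₁ - x₁ = -((1 - y₁) * x₁) := by ring
    rw [this, abs_neg, abs_mul, abs_of_nonneg (by linarith : 0 ≤ 1 - y₁)]
    calc (1 - y₁) * |x₁| ≤ (1 - y₁) * 1 := mul_le_mul_of_nonneg_left hx₁' (by linarith)
      _ ≤ _ := by linarith
  have s2 : |y₂ * x₂ - x₂| ≤ (d : ℝ) ^ 2 / m := by
    have : y₂ * x₂ - x₂ = -((1 - y₂) * x₂) := by ring
    rw [this, abs_neg, abs_mul, abs_of_nonneg (by linarith : 0 ≤ 1 - y₂)]
    calc (1 - y₂) * |x₂| ≤ (1 - y₂) * 1 := mul_le_mul_of_nonneg_left hx₂' (by linarith)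
      _ ≤ _ := by linarith
  have s3 : (d : ℝ) ^ 2 / ((2 * m : ℕ) : ℝ) ≤ (d : ℝ) ^ 2 / m := by
    apply div_le_div_of_nonneg_left (by positivity) hm'
    push_cast
    linarith
  have hD : ((2 * d + dd d : ℕ) : ℝ) = 2 * (d : ℝ) + dd d := by push_cast; ring
  rw [hD] at A1 A2
  set z := (2 * (d : ℝ) + dd d) ^ 2 / R with hz
  have hz1 : 16 * (2 * (d : ℝ) + dd d) ^ 2 / R = 16 * z := by rw [hz]; ring
  have hz2 : 32 * (2 * (d : ℝ) + dd d) ^ 2 / R = 32 * z := by rw [hz]; ring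
  rw [hz1] at A1 A2
  rw [hz2]
  have hw : 4 * (d : ℝ) ^ 2 / m = 4 * ((d : ℝ) ^ 2 / m) := by ring
  rw [hw]
  have hw0 : 0 ≤ (d : ℝ) ^ 2 / m := by positivity
  set w := (d : ℝ) ^ 2 / m
  rw [abs_le] at *
  constructor <;> linarith [A1.1, A1.2, A2.1, A2.2, s1.1, s1.2, s2.1, s2.2]

end Pool.Agent.Lib.MP_cff830_lc.Deg
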