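import Pool.Agent.Lib.MP_cff830_lc.Deg.Stmts

/-!
# Elimination of leaves and isolated vertices (D2)
-/

set_option autoImplicit false

namespace Pool.Agent.Lib.MP_cff830_lc.Deg

open Finset Pool.Agent.Lib.MP_cff830_lc.AC0

namespace LeafAux

open Classical in
lemma cnt_sum {α : Type} [Fintype α] (P : α → Prop) :
    (cnt P : ℝ) = ∑ x, if P x then (1 : ℝ) else 0 := by
  unfold cnt
  rw [Finset.sum_boole]

lemma cnt_congr {α β : Type} [Fintype α] [Fintype β] (e : α ≃ β) (P : α → Prop)
    (Q : β → Prop) (h : ∀ x, P x ↔ Q (e x)) : (cnt P : ℝ) = cnt Q := by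
  classical
  rw [cnt_sum, cnt_sum]
  refine Fintype.sum_equiv e _ _ fun x => ?_
  simp only [h x]

/-- Linear combinations of numbers of copies of patterns. -/
def Cmb {V E : Type} (B : Base V E) (m K : ℕ)
    (F : ∀ (Φ : Type) [Fintype Φ], (E → Equiv.Perm Φ) → ℝ) : Prop :=
  ∃ (ι : Type) (_ : Fintype ι) (c : ι → ℝ) (a : ι → ℕ) (Q' : ι → Pt V E),
    (∀ i, Fits B (Q' i).t (Q' i).A ∧ (Q' i).k ≤ (Q' i).A.card ∧
      (Q' i).A.card ≤ m ∧ a i + (Q' i).k ≤ K) ∧
    ∀ (Φ : Type) [Fintype Φ] (π : E → Equiv.Perm Φ), F Φ π =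
      ∑ i, c i * (Fintype.card Φ : ℝ) ^ a i * (cp π (Q' i).t (Q' i).A : ℝ)

namespace Cmb

variable {V E : Type} {B : Base V E} {m m' K K' : ℕ}
  {F G : ∀ (Φ : Type) [Fintype Φ], (E → Equiv.Perm Φ) → ℝ}

lemma mono (h : Cmb B m K F) (hm : m ≤ m') (hK : K ≤ K') : Cmb B m' K' F := by
  obtain ⟨ι, _, c, a, Q', h1, h2⟩ := h
  exact ⟨ι, inferInstance, c, a, Q', fun i => ⟨(h1 i).1, (h1 i).2.1, (h1 i).2.2.1.trans hm,
    (h1 i).2.2.2.trans hK⟩, h2⟩

lemma congr (h : Cmb B m K F) (e : ∀ (Φ : Type) [Fintype Φ] (π : E → Equiv.Perm Φ),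
    G Φ π = F Φ π) : Cmb B m K G := by
  obtain ⟨ι, _, c, a, Q', h1, h2⟩ := h
  exact ⟨ι, inferInstance, c, a, Q', h1, fun Φ _ π => (e Φ π).trans (h2 Φ π)⟩

lemma zero : Cmb B m K (fun _ _ _ => 0) :=
  ⟨Fin 0, inferInstance, Fin.elim0, Fin.elim0, Fin.elim0, fun i => i.elim0,
    fun _ _ _ => by simp⟩

lemma smul (r : ℝ) (h : Cmb B m K F) : Cmb B m K (fun Φ _ π => r * F Φ π) := by
  obtain ⟨ι, _, c, a, Q', h1, h2⟩ := h
  refine ⟨ι, inferInstance, fun i => r * c i, a, Q', h1, fun Φ _ π => ?_⟩
  change r * F Φ π = _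
  rw [h2 Φ π, Finset.mul_sum]
  exact Finset.sum_congr rfl fun i _ => by ring

lemma mulCard (h : Cmb B m K F) :
    Cmb B m (K + 1) (fun Φ _ π => (Fintype.card Φ : ℝ) * F Φ π) := by
  obtain ⟨ι, _, c, a, Q', h1, h2⟩ := h
  refine ⟨ι, inferInstance, c, fun i => a i + 1, Q', fun i => ⟨(h1 i).1, (h1 i).2.1,
    (h1 i).2.2.1, by
      have := (h1 i).2.2.2
      change a i + 1 + (Q' i).k ≤ K + 1
      omega⟩, fun Φ _ π => ?_⟩
  change (Fintype.card Φ : ℝ) * F Φ π = _
  rw [h2 Φ π, Finset.mul_sum]
  exact Finset.sum_congr rfl fun i _ => by rw [pow_succ]; ring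

lemma add (h : Cmb B m K F) (h' : Cmb B m K G) :
    Cmb B m K (fun Φ _ π => F Φ π + G Φ π) := by
  obtain ⟨ι, _, c, a, Q', h1, h2⟩ := h
  obtain ⟨ι', _, c', a', Q'', h1', h2'⟩ := h'
  refine ⟨ι ⊕ ι', inferInstance, Sum.elim c c', Sum.elim a a', Sum.elim Q' Q'', ?_,
    fun Φ _ π => ?_⟩
  · rintro (i | i)
    · exact h1 i
    · exact h1' i
  · change F Φ π + G Φ π = _
    rw [h2 Φ π, h2' Φ π, Fintype.sum_sum_type]
    rfl

lemma sum {β : Type} (s : Finset β)
    (H : β → ∀ (Φ : Type) [Fintype Φ], (E → Equiv.Perm Φ) → ℝ)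
    (h : ∀ x ∈ s, Cmb B m K (H x)) : Cmb B m K (fun Φ _ π => ∑ x ∈ s, H x Φ π) := by
  classical
  induction s using Finset.induction_on with
  | empty => exact zero.congr fun Φ _ π => by simp
  | insert x s hx ih =>
    have h1 := (h x (Finset.mem_insert_self x s)).add
      (ih fun y hy => h y (Finset.mem_insert_of_mem hy))
    exact h1.congr fun Φ _ π => by rw [Finset.sum_insert hx]

end Cmb

open Classical in
/-- The pointwise identity. -/
lemma pointwise {X Φ : Type} (S : Finset X) (ψ : X → Φ) (y : Φ)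
    (h : ∀ x ∈ S, ∀ x' ∈ S, ψ x = ψ x' → x = x') :
    (if ∀ x ∈ S, ψ x ≠ y then (1 : ℝ) else 0) = 1 - ∑ x ∈ S, if ψ x = y then (1 : ℝ) else 0 := by
  by_cases hy : ∃ x ∈ S, ψ x = y
  · obtain ⟨x₀, hx₀, hxy⟩ := hy
    rw [if_neg (fun hc => hc x₀ hx₀ hxy), Finset.sum_eq_single x₀, if_pos hxy]
    · ring
    · intro x hx hne
      rw [if_neg]
      intro hc
      exact hne (h x hx x₀ hx₀ (hc.trans hxy.symm))
    · intro hn
      exact absurd hx₀ hn
  · push Not at hy
    rw [if_pos hy, Finset.sum_eq_zero, sub_zero]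
    intro x hx
    rw [if_neg (hy x hx)]

section step

variable {V E W : Type} [Fintype W] [DecidableEq W] [DecidableEq V] [DecidableEq E]

/-- The inclusion of the arcs. -/
def inc (w : W) (a : E × {x : W // x ≠ w} × {x : W // x ≠ w}) : E × W × W :=
  (a.1, a.2.1.1, a.2.2.1)

lemma inc_inj (w : W) : Function.Injective (inc (E := E) w) := by
  rintro ⟨e, x, y⟩ ⟨e', x', y'⟩ h
  simp only [inc, Prod.mk.injEq] at h
  obtain ⟨h1, h2, h3⟩ := h
  rw [h1, Subtype.ext h2, Subtype.ext h3]

/-- The arcs which avoid `w`. -/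
noncomputable def rest (w : W) (A : Finset (E × W × W)) :
    Finset (E × {x : W // x ≠ w} × {x : W // x ≠ w}) :=
  A.preimage (inc w) ((inc_inj w).injOn)

lemma mem_rest (w : W) (A : Finset (E × W × W))
    (a : E × {x : W // x ≠ w} × {x : W // x ≠ w}) :
    a ∈ rest w A ↔ (a.1, a.2.1.1, a.2.2.1) ∈ A := by
  rw [rest, Finset.mem_preimage]
  rfl

/-- The arcs at `w`. -/
def at' (w : W) (A : Finset (E × W × W)) : Finset (E × W × W) :=
  A.filter fun a => a.2.1 = w ∨ a.2.2 = w

lemma card_rest (w : W) (A : Finset (E × W × W)) :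
    (rest w A).card + (at' w A).card ≤ A.card := by
  have h1 : ((rest w A).image (inc w)).card = (rest w A).card :=
    Finset.card_image_of_injective _ (inc_inj w)
  have h2 : (rest w A).image (inc w) ⊆ A.filter fun a => ¬ (a.2.1 = w ∨ a.2.2 = w) := by
    intro a ha
    obtain ⟨b, hb, rfl⟩ := Finset.mem_image.1 ha
    rw [Finset.mem_filter]
    refine ⟨(mem_rest w A b).1 hb, ?_⟩
    rintro (h | h)
    · exact b.2.1.2 h
    · exact b.2.2.2 h
  have h3 := Finset.card_le_card h2
  have h4 := Finset.card_filter_add_card_filter_not (s := A)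
    (fun a : E × W × W => a.2.1 = w ∨ a.2.2 = w)
  rw [h1] at h3
  rw [at']
  omega

/-- The vertices of the same type as `w`. -/
def same (t : W → V) (w : W) : Finset {x : W // x ≠ w} :=
  univ.filter fun x => t x.1 = t w

lemma isCopy_split {Φ : Type} (π : E → Equiv.Perm Φ) (t : W → V) (A : Finset (E × W × W)) (w : W)
    (φ : W → Φ) :
    IsCopy π t A φ ↔ IsCopy π (fun x : {x : W // x ≠ w} => t x.1) (rest w A) (fun x => φ x.1) ∧
      (∀ x ∈ same t w, φ x.1 ≠ φ w) ∧ ∀ a ∈ at' w A, π a.1 (φ a.2.1) = φ a.2.2 := by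
  constructor
  · rintro ⟨h1, h2⟩
    refine ⟨⟨fun x y hxy hφ => Subtype.ext (h1 _ _ hxy hφ), fun a ha =>
      h2 _ ((mem_rest w A a).1 ha)⟩, ?_, ?_⟩
    · intro x hx hc
      exact x.2 (h1 _ _ (Finset.mem_filter.1 hx).2 hc)
    · intro a ha
      exact h2 a (Finset.mem_filter.1 ha).1
  · rintro ⟨⟨h1, h2⟩, h3, h4⟩
    refine ⟨?_, ?_⟩
    · intro x y hxy hφ
      by_cases hx : x = w
      · by_cases hy : y = w
        · rw [hx, hy]
        · exfalso
          refine h3 ⟨y, hy⟩ (Finset.mem_filter.2 ⟨Finset.mem_univ _, ?_⟩) ?_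
          · change t y = t w
            rw [← hxy, hx]
          · change φ y = φ w
            rw [← hφ, hx]
      · by_cases hy : y = w
        · exfalso
          refine h3 ⟨x, hx⟩ (Finset.mem_filter.2 ⟨Finset.mem_univ _, ?_⟩) ?_
          · change t x = t w
            rw [hxy, hy]
          · change φ x = φ w
            rw [hφ, hy]
        · have := h1 ⟨x, hx⟩ ⟨y, hy⟩ hxy hφ
          exact congrArg Subtype.val this
    · intro a ha
      by_cases hw : a.2.1 = w ∨ a.2.2 = w
      · exact h4 a (Finset.mem_filter.2 ⟨ha, hw⟩)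
      · push Not at hw
        exact h2 (a.1, ⟨a.2.1, hw.1⟩, ⟨a.2.2, hw.2⟩) ((mem_rest w A _).2 ha)

open Classical in
/-- The number of copies as a double sum. -/
lemma cp_split {Φ : Type} [Fintype Φ] (π : E → Equiv.Perm Φ) (t : W → V)
    (A : Finset (E × W × W)) (w : W) (R : Φ → ({x : W // x ≠ w} → Φ) → Prop)
    (hR : ∀ φ : W → Φ, (∀ a ∈ at' w A, π a.1 (φ a.2.1) = φ a.2.2) ↔
      R (φ w) (fun x => φ x.1)) :
    (cp π t A : ℝ) = ∑ ψ : {x : W // x ≠ w} → Φ,
      if IsCopy π (fun x : {x : W // x ≠ w} => t x.1) (rest w A) ψ then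
        ∑ y : Φ, (if R y ψ then (1 : ℝ) else 0) *
          (1 - ∑ x ∈ same t w, if ψ x = y then (1 : ℝ) else 0) else 0 := by
  unfold cp
  rw [cnt_sum]
  rw [Fintype.sum_equiv (Equiv.funSplitAt w Φ) _
    (fun p : Φ × ({x : W // x ≠ w} → Φ) =>
      if (IsCopy π (fun x : {x : W // x ≠ w} => t x.1) (rest w A) p.2 ∧
        (∀ x ∈ same t w, p.2 x ≠ p.1) ∧ R p.1 p.2) then (1 : ℝ) else 0)]
  · rw [Fintype.sum_prod_type_right]
    refine Finset.sum_congr rfl fun ψ _ => ?_
    by_cases hψ : IsCopy π (fun x : {x : W // x ≠ w} => t x.1) (rest w A) ψ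
    · rw [if_pos hψ]
      refine Finset.sum_congr rfl fun y _ => ?_
      have hinj : ∀ x ∈ same t w, ∀ x' ∈ same t w, ψ x = ψ x' → x = x' := by
        intro x hx x' hx' hxx
        exact hψ.1 x x' ((Finset.mem_filter.1 hx).2.trans (Finset.mem_filter.1 hx').2.symm) hxx
      rw [← pointwise (same t w) ψ y hinj]
      by_cases hR' : R y ψ
      · by_cases hy : ∀ x ∈ same t w, ψ x ≠ y
        · rw [if_pos hR', if_pos hy, if_pos ⟨hψ, hy, hR'⟩, one_mul]
        · rw [if_pos hR', if_neg hy, if_neg (fun hc => hy hc.2.1), mul_zero]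
      · rw [if_neg hR', if_neg (fun hc => hR' hc.2.2), zero_mul]
    · rw [if_neg hψ]
      refine Finset.sum_eq_zero fun y _ => ?_
      rw [if_neg (fun hc => hψ hc.1)]
  · intro φ
    have h1 := isCopy_split π t A w φ
    rw [hR φ] at h1
    have h2 : (Equiv.funSplitAt w Φ φ) = (φ w, fun x => φ x.1) := rfl
    rw [h2]
    simp only [h1]

open Classical in
/-- A vertex on no arc. -/
lemma step_zero {Φ : Type} [Fintype Φ] (π : E → Equiv.Perm Φ) (t : W → V)
    (A : Finset (E × W × W)) (w : W) (h0 : at' w A = ∅) :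
    (cp π t A : ℝ) = (Fintype.card Φ : ℝ) *
      (cp π (fun x : {x : W // x ≠ w} => t x.1) (rest w A) : ℝ) +
      (-((same t w).card : ℝ)) *
        (cp π (fun x : {x : W // x ≠ w} => t x.1) (rest w A) : ℝ) := by
  rw [cp_split π t A w (fun _ _ => True) (fun φ => by simp [h0])]
  have h1 : ∀ ψ : {x : W // x ≠ w} → Φ, ∑ y : Φ,
      (1 - ∑ x ∈ same t w, if ψ x = y then (1 : ℝ) else 0) =
      (Fintype.card Φ : ℝ) - (same t w).card := by
    intro ψ
    simp only [Finset.sum_sub_distrib]
    congr 1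
    · simp
    · rw [Finset.sum_comm]
      have : ∀ x ∈ same t w, ∑ y : Φ, (if ψ x = y then (1 : ℝ) else 0) = 1 := by
        intro x _
        rw [Finset.sum_ite_eq]
        simp
      rw [Finset.sum_congr rfl this]
      simp
  simp only [if_true, one_mul, h1]
  unfold cp
  rw [cnt_sum, ← add_mul, Finset.mul_sum]
  refine Finset.sum_congr rfl fun ψ _ => ?_
  split_ifs
  · ring
  · ring

open Classical in
/-- A vertex on one arc. -/
lemma step_one {Φ : Type} [Fintype Φ] (π : E → Equiv.Perm Φ) (t : W → V)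
    (A : Finset (E × W × W)) (w : W) (z : {x : W // x ≠ w}) (ρ : Equiv.Perm Φ)
    (T : {x : W // x ≠ w} → E × {x : W // x ≠ w} × {x : W // x ≠ w})
    (hT : ∀ x (ψ : {x : W // x ≠ w} → Φ), π (T x).1 (ψ (T x).2.1) = ψ (T x).2.2 ↔
      ψ x = ρ (ψ z))
    (h1 : ∀ φ : W → Φ, (∀ a ∈ at' w A, π a.1 (φ a.2.1) = φ a.2.2) ↔ φ w = ρ (φ z.1)) :
    (cp π t A : ℝ) = (cp π (fun x : {x : W // x ≠ w} => t x.1) (rest w A) : ℝ) +
      (-1) * ∑ x ∈ same t w,
        (cp π (fun x : {x : W // x ≠ w} => t x.1) (insert (T x) (rest w A)) : ℝ) := by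
  rw [cp_split π t A w (fun y ψ => y = ρ (ψ z)) h1]
  have h2 : ∀ ψ : {x : W // x ≠ w} → Φ, ∑ y : Φ, (if y = ρ (ψ z) then (1 : ℝ) else 0) *
      (1 - ∑ x ∈ same t w, if ψ x = y then (1 : ℝ) else 0) =
      1 - ∑ x ∈ same t w, if ψ x = ρ (ψ z) then (1 : ℝ) else 0 := by
    intro ψ
    rw [Finset.sum_eq_single (ρ (ψ z))]
    · rw [if_pos rfl, one_mul]
    · intro y _ hy
      rw [if_neg hy, zero_mul]
    · intro hn
      exact absurd (Finset.mem_univ _) hn
  beta_reduce
  simp only [h2]
  unfold cp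
  simp only [cnt_sum]
  rw [Finset.sum_comm, Finset.mul_sum, ← Finset.sum_add_distrib]
  refine Finset.sum_congr rfl fun ψ _ => ?_
  have h3 : ∀ x, IsCopy π (fun x : {x : W // x ≠ w} => t x.1) (insert (T x) (rest w A)) ψ ↔
      IsCopy π (fun x : {x : W // x ≠ w} => t x.1) (rest w A) ψ ∧ ψ x = ρ (ψ z) := by
    intro x
    constructor
    · rintro ⟨h4, h5⟩
      exact ⟨⟨h4, fun a ha => h5 a (Finset.mem_insert_of_mem ha)⟩,
        (hT x ψ).1 (h5 _ (Finset.mem_insert_self _ _))⟩
    · rintro ⟨⟨h4, h5⟩, h6⟩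
      refine ⟨h4, fun a ha => ?_⟩
      rcases Finset.mem_insert.1 ha with h7 | h7
      · rw [h7]
        exact (hT x ψ).2 h6
      · exact h5 a h7
  simp only [h3]
  by_cases hψ : IsCopy π (fun x : {x : W // x ≠ w} => t x.1) (rest w A) ψ
  · simp only [hψ, if_true, true_and]
    ring
  · simp only [hψ, if_false, false_and]
    simp

end step

/-- The recursion. -/
theorem main {V E : Type} [DecidableEq V] [DecidableEq E] (B : Base V E)
    (hB : ∀ e, B.src e ≠ B.tgt e) : ∀ (n : ℕ) (W : Type) [Fintype W] [DecidableEq W] (t : W → V)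
    (A : Finset (E × W × W)), Fintype.card W = n → Fits B t A →
    Cmb B A.card n (fun Φ _ π => (cp π t A : ℝ)) := by
  intro n
  induction n with
  | zero =>
    intro W _ _ t A hW hF
    have e : W ≃ Fin 0 := Fintype.equivFinOfCardEq hW
    have hA : A = ∅ := by
      rw [Finset.eq_empty_iff_forall_notMem]
      intro a _
      exact (e a.2.1).elim0
    subst hA
    refine ⟨Unit, inferInstance, fun _ => 1, fun _ => 0, fun _ => ⟨0, Fin.elim0, ∅⟩, ?_, ?_⟩
    · intro _
      exact ⟨fun a ha => absurd ha (Finset.notMem_empty a), by simp, by simp, by simp⟩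
    · intro Φ _ π
      simp only [Finset.univ_unique, Finset.sum_singleton, pow_zero, mul_one, one_mul]
      refine cnt_congr (Equiv.arrowCongr e (Equiv.refl Φ)) _ _ fun φ => ?_
      constructor
      · intro _
        exact ⟨fun x => x.elim0, fun a ha => absurd ha (Finset.notMem_empty a)⟩
      · intro _
        exact ⟨fun x => (e x).elim0, fun a ha => absurd ha (Finset.notMem_empty a)⟩
  | succ n ih =>
    intro W _ _ t A hW hF
    by_cases hall : ∀ w, 2 ≤ (at' w A).card
    · -- all vertices are on at least two arcs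
      have h1 : 2 * (n + 1) ≤ 2 * A.card := by
        have h2 : ∑ w : W, (at' w A).card ≤ 2 * A.card := by
          have h3 : ∀ w, (at' w A).card = ∑ a ∈ A, if a.2.1 = w ∨ a.2.2 = w then 1 else 0 := by
            intro w
            rw [at', Finset.card_filter]
          simp only [h3]
          rw [Finset.sum_comm]
          calc ∑ a ∈ A, ∑ w : W, (if a.2.1 = w ∨ a.2.2 = w then 1 else 0)
              ≤ ∑ a ∈ A, 2 := by
                refine Finset.sum_le_sum fun a _ => ?_
                rw [← Finset.card_filter]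
                have h4 : (univ.filter fun w : W => a.2.1 = w ∨ a.2.2 = w) ⊆
                    {a.2.1, a.2.2} := by
                  intro w hw
                  rcases (Finset.mem_filter.1 hw).2 with h | h
                  · rw [← h]; simp
                  · rw [← h]; simp
                exact (Finset.card_le_card h4).trans Finset.card_le_two
            _ = 2 * A.card := by rw [Finset.sum_const, smul_eq_mul, mul_comm]
        have h5 : ∑ _w : W, 2 ≤ ∑ w : W, (at' w A).card := Finset.sum_le_sum fun w _ => hall w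
        rw [Finset.sum_const, Finset.card_univ, hW, smul_eq_mul] at h5
        omega
      have e : W ≃ Fin (n + 1) := Fintype.equivFinOfCardEq hW
      let g : E × W × W ↪ E × Fin (n + 1) × Fin (n + 1) :=
        ⟨fun a => (a.1, e a.2.1, e a.2.2), by
          rintro ⟨x, y, z⟩ ⟨x', y', z'⟩ h
          simp only [Prod.mk.injEq, EmbeddingLike.apply_eq_iff_eq] at h
          obtain ⟨ha, hb, hc⟩ := h
          rw [ha, hb, hc]⟩
      refine ⟨Unit, inferInstance, fun _ => 1, fun _ => 0,
        fun _ => ⟨n + 1, fun x => t (e.symm x), A.map g⟩, ?_, ?_⟩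
      · intro _
        refine ⟨?_, ?_, ?_, ?_⟩
        · intro a ha
          obtain ⟨b, hb, rfl⟩ := Finset.mem_map.1 ha
          have := hF b hb
          simpa [g] using this
        · rw [Finset.card_map]
          change n + 1 ≤ A.card
          omega
        · rw [Finset.card_map]
        · simp
      · intro Φ _ π
        simp only [Finset.univ_unique, Finset.sum_singleton, pow_zero, mul_one, one_mul]
        refine cnt_congr (Equiv.arrowCongr e (Equiv.refl Φ)) _ _ fun φ => ?_
        constructor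
        · rintro ⟨h2, h3⟩
          refine ⟨?_, ?_⟩
          · intro x y hxy hφ
            have := h2 (e.symm x) (e.symm y) hxy (by simpa using hφ)
            exact e.symm.injective this
          · intro a ha
            obtain ⟨b, hb, rfl⟩ := Finset.mem_map.1 ha
            simpa [g] using h3 b hb
        · rintro ⟨h2, h3⟩
          refine ⟨?_, ?_⟩
          · intro x y hxy hφ
            have := h2 (e x) (e y) (by simpa using hxy) (by simpa using hφ)
            exact e.injective this
          · intro a ha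
            have := h3 (g a) (Finset.mem_map_of_mem g ha)
            simpa [g] using this
    · -- a vertex on at most one arc
      push Not at hall
      obtain ⟨w, hw⟩ := hall
      have hcard : Fintype.card {x : W // x ≠ w} = n := by
        rw [Fintype.card_subtype]
        rw [Finset.filter_ne', Finset.card_erase_of_mem (Finset.mem_univ w), Finset.card_univ, hW]
        rfl
      have hF' : Fits B (fun x : {x : W // x ≠ w} => t x.1) (rest w A) := by
        intro a ha
        exact hF _ ((mem_rest w A a).1 ha)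
      have hrest := card_rest w A
      have hC := ih {x : W // x ≠ w} (fun x => t x.1) (rest w A) hcard hF'
      rcases Nat.eq_zero_or_pos (at' w A).card with h0 | h0
      · -- no arc
        have h0' : at' w A = ∅ := Finset.card_eq_zero.1 h0
        have h1 := hC.mulCard.add ((hC.mono le_rfl (Nat.le_succ n)).smul (-((same t w).card : ℝ)))
        refine (h1.mono (by omega) le_rfl).congr fun Φ _ π => ?_
        exact step_zero π t A w h0'
      · -- one arc
        have h1 : (at' w A).card = 1 := by omega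
        obtain ⟨a₀, ha₀⟩ := Finset.card_eq_one.1 h1
        have hmem : a₀ ∈ at' w A := by rw [ha₀]; exact Finset.mem_singleton_self _
        have ha₀A : a₀ ∈ A := (Finset.mem_filter.1 hmem).1
        have hends := (Finset.mem_filter.1 hmem).2
        have hfit := hF a₀ ha₀A
        have hne : a₀.2.1 ≠ a₀.2.2 := by
          intro hc
          apply hB a₀.1
          rw [← hfit.1, ← hfit.2, hc]
        -- the arcs which are added
        have key : ∀ (z : {x : W // x ≠ w})
            (ρ : ∀ (Φ : Type) [Fintype Φ], (E → Equiv.Perm Φ) → Equiv.Perm Φ)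
            (T : {x : W // x ≠ w} → E × {x : W // x ≠ w} × {x : W // x ≠ w}),
            (∀ (Φ : Type) [Fintype Φ] (π : E → Equiv.Perm Φ) (x : {x : W // x ≠ w})
              (ψ : {x : W // x ≠ w} → Φ), π (T x).1 (ψ (T x).2.1) = ψ (T x).2.2 ↔
                ψ x = ρ Φ π (ψ z)) →
            (∀ (Φ : Type) [Fintype Φ] (π : E → Equiv.Perm Φ) (φ : W → Φ),
              (∀ a ∈ at' w A, π a.1 (φ a.2.1) = φ a.2.2) ↔ φ w = ρ Φ π (φ z.1)) →
            (∀ x ∈ same t w, t (T x).2.1.1 = B.src (T x).1 ∧ t (T x).2.2.1 = B.tgt (T x).1) →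
            Cmb B A.card (n + 1) (fun Φ _ π => (cp π t A : ℝ)) := by
          intro z ρ T hT hφ hfits
          have h2 : Cmb B A.card (n + 1) (fun Φ _ π => ∑ x ∈ same t w,
              (cp π (fun x : {x : W // x ≠ w} => t x.1) (insert (T x) (rest w A)) : ℝ)) := by
            refine Cmb.sum (same t w) (fun x Φ _ π =>
              (cp π (fun x : {x : W // x ≠ w} => t x.1) (insert (T x) (rest w A)) : ℝ)) ?_
            intro x hx
            refine (ih {x : W // x ≠ w} (fun x => t x.1) (insert (T x) (rest w A)) hcard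
              ?_).mono ?_ (Nat.le_succ n)
            · intro a ha
              rcases Finset.mem_insert.1 ha with h | h
              · rw [h]
                exact hfits x hx
              · exact hF' a h
            · have := Finset.card_insert_le (T x) (rest w A)
              omega
          refine ((hC.mono (by omega) (Nat.le_succ n)).add (h2.smul (-1))).congr
            fun Φ _ π => ?_
          exact step_one π t A w z (ρ Φ π) T (fun x ψ => hT Φ π x ψ) (fun φ => hφ Φ π φ)
        rcases hends with h | h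
        · -- the arc starts at `w`
          have hz : a₀.2.2 ≠ w := fun hc => hne (h.trans hc.symm)
          refine key ⟨a₀.2.2, hz⟩ (fun Φ _ π => (π a₀.1).symm)
            (fun x => (a₀.1, x, ⟨a₀.2.2, hz⟩)) ?_ ?_ ?_
          · intro Φ _ π x ψ
            exact (Equiv.eq_symm_apply (π a₀.1)).symm
          · intro Φ _ π φ
            rw [ha₀]
            simp only [Finset.mem_singleton, forall_eq]
            rw [h]
            exact (Equiv.eq_symm_apply (π a₀.1)).symm
          · intro x hx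
            refine ⟨?_, hfit.2⟩
            change t x.1 = B.src a₀.1
            rw [(Finset.mem_filter.1 hx).2, ← hfit.1, h]
        · -- the arc ends at `w`
          have hz : a₀.2.1 ≠ w := fun hc => hne (hc.trans h.symm)
          refine key ⟨a₀.2.1, hz⟩ (fun Φ _ π => π a₀.1)
            (fun x => (a₀.1, ⟨a₀.2.1, hz⟩, x)) ?_ ?_ ?_
          · intro Φ _ π x ψ
            exact eq_comm
          · intro Φ _ π φ
            rw [ha₀]
            simp only [Finset.mem_singleton, forall_eq]
            rw [h]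
            exact eq_comm
          · intro x hx
            refine ⟨hfit.1, ?_⟩
            change t x.1 = B.tgt a₀.1
            rw [(Finset.mem_filter.1 hx).2, ← hfit.2, h]

end LeafAux

/-- D2. Elimination of leaves and isolated vertices. -/
theorem stLeaf : StLeaf := by
  intro V E _ _ B hB Q hQ
  obtain ⟨ι, _, c, a, Q', h1, h2⟩ := LeafAux.main B hB Q.k (Fin Q.k) Q.t Q.A (by simp) hQ
  have e : ι ≃ Fin (Fintype.card ι) := Fintype.equivFin ι
  refine ⟨Fintype.card ι, fun i => c (e.symm i), fun i => a (e.symm i),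
    fun i => Q' (e.symm i), fun i => h1 (e.symm i), ?_⟩
  intro Φ _ π
  refine (h2 Φ π).trans ?_
  exact (Equiv.sum_comp e.symm (fun i => c i * (Fintype.card Φ : ℝ) ^ a i *
    (cp π (Q' i).t (Q' i).A : ℝ))).symm

end Pool.Agent.Lib.MP_cff830_lc.Deg
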