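import Pool.Agent.Lib.MP_cff830_lc.Deg.Stmts
import Pool.Agent.Lib.MP_cff830_lc.AC0.U1
import Pool.Agent.Lib.MP_cff830_lc.AC0.U2

/-! D11, D14: local rules are polynomials of bounded degree on graphs of bounded degree. -/

namespace Pool.Agent.Lib.MP_cff830_lc.Deg

open Finset Pool.Agent.Lib.MP_cff830_lc.AC0 MvPolynomial

namespace LocAux

section Moebius

variable {α : Type} [DecidableEq α]

/-- Moebius inversion on the finite subsets. -/
noncomputable def mo (h : Finset α → ℝ) (S : Finset α) : ℝ :=
  h S - ∑ x ∈ S.ssubsets.attach, mo h x.1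
termination_by S.card
decreasing_by exact Finset.card_lt_card (Finset.mem_ssubsets.1 x.2)

theorem mo_sum (h : Finset α → ℝ) (E : Finset α) : ∑ S ∈ E.powerset, mo h S = h E := by
  have h1 : E.powerset = insert E E.ssubsets := by
    ext S
    simp only [Finset.mem_powerset, Finset.mem_insert, Finset.mem_ssubsets]
    constructor
    · intro hS
      rcases eq_or_ne S E with h | h
      · exact Or.inl h
      · exact Or.inr (Finset.ssubset_iff_subset_ne.2 ⟨hS, h⟩)
    · rintro (h | h)
      · exact h.subset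
      · exact h.subset
  rw [h1, Finset.sum_insert (by simp), mo, Finset.sum_attach E.ssubsets (mo h)]
  ring

theorem mo_zero (h : Finset α → ℝ) (p : α) (S : Finset α) (hp : p ∈ S)
    (hS : ∀ S' ⊆ S, p ∈ S' → h S' = h (S'.erase p)) : mo h S = 0 := by
  induction S using Finset.strongInduction with
  | H S ih =>
    have h1 := mo_sum h S
    have h2 := mo_sum h (S.erase p)
    have h3 : ∑ S' ∈ insert S (S.erase p).powerset, mo h S' = ∑ S' ∈ S.powerset, mo h S' := by
      apply Finset.sum_subset
      · intro S' hS'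
        rcases Finset.mem_insert.1 hS' with h | h
        · rw [h]; simp
        · exact Finset.mem_powerset.2
            ((Finset.mem_powerset.1 h).trans (Finset.erase_subset _ _))
      · intro S' hS' hn
        have hsub := Finset.mem_powerset.1 hS'
        have hne : S' ≠ S := fun h => hn (by rw [h]; simp)
        have hpS : p ∈ S' := by
          by_contra hp'
          apply hn
          apply Finset.mem_insert_of_mem
          rw [Finset.mem_powerset]
          exact Finset.subset_erase.2 ⟨hsub, hp'⟩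
        exact ih S' (Finset.ssubset_iff_subset_ne.2 ⟨hsub, hne⟩) hpS
          (fun S'' h'' hp'' => hS S'' (h''.trans hsub) hp'')
    have hnot : S ∉ (S.erase p).powerset := by
      rw [Finset.mem_powerset]
      intro hsub
      exact absurd (hsub hp) (by simp)
    rw [Finset.sum_insert hnot, h1, h2, hS S Finset.Subset.rfl hp] at h3
    linarith

end Moebius

variable {n : ℕ}

/-- the graph with the given edges -/
def gr (S : Finset (Fin n × Fin n)) : SimpleGraph (Fin n) :=
  SimpleGraph.fromRel fun x y => (x, y) ∈ S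

theorem ball_le {G H : SimpleGraph (Fin n)} (h : ∀ x y, G.Adj x y → H.Adj x y) (v : Fin n)
    (i : ℕ) : ball G v i ⊆ ball H v i := by
  induction i with
  | zero => exact Set.Subset.rfl
  | succ i ih =>
    rintro x (hx | ⟨y, hy, hyx⟩)
    · exact Or.inl (ih hx)
    · exact Or.inr ⟨y, ih hy, h _ _ hyx⟩

theorem gr_mono {S S' : Finset (Fin n × Fin n)} (h : S' ⊆ S) (x y : Fin n)
    (hxy : (gr S').Adj x y) : (gr S).Adj x y := by
  unfold gr at hxy ⊢
  rw [SimpleGraph.fromRel_adj] at hxy ⊢
  exact ⟨hxy.1, hxy.2.imp (fun h1 => h h1) (fun h1 => h h1)⟩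

/-- the ordered pairs of adjacent vertices -/
noncomputable def ed (G : SimpleGraph (Fin n)) : Finset (Fin n × Fin n) := by
  classical exact univ.filter fun p => G.Adj p.1 p.2

theorem mem_ed (G : SimpleGraph (Fin n)) (p : Fin n × Fin n) : p ∈ ed G ↔ G.Adj p.1 p.2 := by
  classical
  unfold ed
  simp

theorem gr_ed (G : SimpleGraph (Fin n)) : gr (ed G) = G := by
  ext x y
  unfold gr
  rw [SimpleGraph.fromRel_adj, mem_ed, mem_ed]
  constructor
  · rintro ⟨-, h | h⟩
    · exact h
    · exact h.symm
  · intro h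
    exact ⟨h.ne, Or.inl h⟩

theorem gr_le {S : Finset (Fin n × Fin n)} {G : SimpleGraph (Fin n)} (h : S ⊆ ed G)
    (x y : Fin n) (hxy : (gr S).Adj x y) : G.Adj x y := by
  have := gr_mono h x y hxy
  rwa [gr_ed] at this

theorem touch {T : ℕ} {P : SimpleGraph (Fin n) → Fin n → Prop} (hP : Local T P) (v : Fin n)
    (S : Finset (Fin n × Fin n)) (hS : mo (fun S' => ind (P (gr S') v)) S ≠ 0) :
    ∀ p ∈ S, p.1 ∈ ball (gr S) v T ∨ p.2 ∈ ball (gr S) v T := by
  intro p hp
  by_contra hcon
  push Not at hcon
  apply hS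
  refine mo_zero _ p S hp ?_
  intro S' hS' hp'
  have key : P (gr S') v ↔ P (gr (S'.erase p)) v := by
    apply hP
    intro a ha b
    have ha' : a ∈ ball (gr S) v T := ball_le (gr_mono hS') v T ha
    have h1 : (a, b) ≠ p := fun h => hcon.1 (by rw [← h]; exact ha')
    have h2 : (b, a) ≠ p := fun h => hcon.2 (by rw [← h]; exact ha')
    unfold gr
    rw [SimpleGraph.fromRel_adj, SimpleGraph.fromRel_adj]
    simp [Finset.mem_erase, h1, h2]
  exact congrArg ind (propext key)

theorem card_le {T D : ℕ} {G : SimpleGraph (Fin n)} (hG : ∀ v, cnt (fun w => G.Adj v w) ≤ D)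
    (v : Fin n) (S : Finset (Fin n × Fin n)) (hS : S ⊆ ed G)
    (ht : ∀ p ∈ S, p.1 ∈ ball (gr S) v T ∨ p.2 ∈ ball (gr S) v T) :
    S.card ≤ (D + 1) ^ T * D + (D + 1) ^ T * D := by
  classical
  obtain ⟨B, hB, hc⟩ := ball_card' G hG v T
  have h1 : S ⊆ B.biUnion
        (fun x => (Finset.univ.filter (fun w => G.Adj x w)).image (fun w => (x, w))) ∪
      B.biUnion
        (fun x => (Finset.univ.filter (fun w => G.Adj x w)).image (fun w => (w, x))) := by
    rintro ⟨x, y⟩ hp
    have hxy : G.Adj x y := (mem_ed G (x, y)).1 (hS hp)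
    rcases ht _ hp with h | h
    · exact Finset.mem_union_left _ (Finset.mem_biUnion.2
        ⟨x, hB x (ball_le (gr_le hS) v T h), by simp [hxy]⟩)
    · exact Finset.mem_union_right _ (Finset.mem_biUnion.2
        ⟨y, hB y (ball_le (gr_le hS) v T h), by simp [hxy.symm]⟩)
  have hd : ∀ x, (Finset.univ.filter (fun w => G.Adj x w)).card ≤ D := by
    intro x
    have := hG x
    unfold cnt at this
    convert this
  refine le_trans (Finset.card_le_card h1) (le_trans (Finset.card_union_le _ _) ?_)
  refine add_le_add ?_ ?_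
  · refine le_trans (Finset.card_biUnion_le_card_mul _ _ D ?_) (Nat.mul_le_mul_right _ hc)
    intro x _
    exact le_trans Finset.card_image_le (hd x)
  · refine le_trans (Finset.card_biUnion_le_card_mul _ _ D ?_) (Nat.mul_le_mul_right _ hc)
    intro x _
    exact le_trans Finset.card_image_le (hd x)

theorem eval_prod (G : SimpleGraph (Fin n)) (S : Finset (Fin n × Fin n)) :
    eval (abit G) (∏ p ∈ S, (X p : MvPolynomial (Fin n × Fin n) ℝ)) =
      if S ⊆ ed G then 1 else 0 := by
  classical
  rw [map_prod]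
  simp only [eval_X]
  split_ifs with h
  · apply Finset.prod_eq_one
    intro p hp
    unfold abit ind
    rw [if_pos ((mem_ed G p).1 (h hp))]
  · rw [Finset.not_subset] at h
    obtain ⟨p, hp, hn⟩ := h
    apply Finset.prod_eq_zero hp
    unfold abit ind
    rw [if_neg (fun h' => hn ((mem_ed G p).2 h'))]

end LocAux

open LocAux in
/-- D11. Local rules are polynomials of bounded degree on graphs of bounded degree. -/
theorem stLoc : StLoc := by
  classical
  intro T D
  refine ⟨(D + 1) ^ T * D + (D + 1) ^ T * D, fun n P hP => ?_⟩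
  set K := (D + 1) ^ T * D + (D + 1) ^ T * D with hK
  let h : Fin n → Finset (Fin n × Fin n) → ℝ := fun v S => ind (P (gr S) v)
  let F : MvPolynomial (Fin n × Fin n) ℝ := ∑ v, ∑ S ∈ univ.filter (fun S => S.card ≤ K),
    C (mo (h v) S) * ∏ p ∈ S, X p
  refine ⟨F, ?_, ?_⟩
  · refine totalDegree_finsetSum_le fun v _ => totalDegree_finsetSum_le fun S hS => ?_
    refine (totalDegree_mul _ _).trans ?_
    rw [totalDegree_C, zero_add]
    refine (totalDegree_finsetProd _ _).trans ?_
    refine (Finset.sum_le_card_nsmul S _ 1 fun p _ => ?_).trans ?_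
    · exact (totalDegree_X p).le
    · simpa using (Finset.mem_filter.1 hS).2
  · intro G hG
    simp only [F, map_sum, map_mul, eval_C, eval_prod]
    refine Finset.sum_congr rfl fun v _ => ?_
    have h1 := mo_sum (h v) (ed G)
    have h2 : h v (ed G) = ind (P G v) := by
      simp only [h, gr_ed]
    rw [← h2, ← h1]
    have h3 : ∑ S ∈ univ.filter (fun S : Finset (Fin n × Fin n) => S.card ≤ K),
        mo (h v) S * (if S ⊆ ed G then 1 else 0) =
        ∑ S ∈ univ.filter (fun S : Finset (Fin n × Fin n) => S.card ≤ K ∧ S ⊆ ed G),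
          mo (h v) S := by
      simp only [mul_ite, mul_one, mul_zero]
      rw [← Finset.sum_filter, Finset.filter_filter]
    rw [h3]
    apply Finset.sum_subset
    · intro S hS
      exact Finset.mem_powerset.2 (Finset.mem_filter.1 hS).2.2
    · intro S hS hn
      by_contra hne
      apply hn
      have hsub := Finset.mem_powerset.1 hS
      have := card_le (T := T) hG v S hsub (touch hP v S hne)
      simp [hsub, hK, this]

/-- D14. The upper bound. -/
theorem stUp (hL : StLoc) : StUp := by
  classical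
  intro c hc D
  obtain ⟨T, hT⟩ := stU1 c hc D
  obtain ⟨K, hK⟩ := hL T D
  refine ⟨K, fun n => ?_⟩
  obtain ⟨P, hP, hG⟩ := hT n
  obtain ⟨F, hF, hFe⟩ := hK n P hP
  refine ⟨F, hF, fun G hGd => ?_⟩
  obtain ⟨S, hS, hSP, hSc⟩ := hG G hGd
  have h1 : eval (abit G) F = (S.card : ℝ) := by
    rw [hFe G hGd]
    have : ∀ v, ind (P G v) = if v ∈ S then 1 else 0 := by
      intro v
      unfold ind
      simp only [hSP]
    simp only [this]
    simp
  have h2 : vc G ≤ S.card := Nat.sInf_le ⟨S, hS, rfl⟩
  rw [h1]
  exact ⟨by exact_mod_cast h2, hSc⟩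

end Pool.Agent.Lib.MP_cff830_lc.Deg
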