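import Pool.Agent.Lib.MP_cff830_lc.Deg.Stmts

/-!
# Numerical part of the lower bound
-/

namespace Pool.Agent.Lib.MP_cff830_lc.Deg

open Finset Filter

theorem dd_le (d : ℕ) : (dd d : ℝ) ≤ d * (1 + Real.log d) := by
  have h1 : (dd d : ℝ) ≤ d * ((harmonic d : ℚ) : ℝ) := by
    unfold dd harmonic
    push_cast
    rw [Finset.mul_sum]
    refine Finset.sum_le_sum fun i _ => ?_
    have := Nat.cast_div_le (α := ℝ) (m := d) (n := i + 1)
    push_cast at this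
    rw [div_eq_mul_inv] at this
    exact this
  exact le_trans h1 (mul_le_mul_of_nonneg_left (harmonic_le_one_add_log d) (Nat.cast_nonneg _))

theorem large_quarter (K : ℝ) : ∀ᶠ n : ℕ in atTop, K * Real.log n ≤ (n : ℝ) ^ (1 / 4 : ℝ) := by
  have h1 : (fun x : ℝ => Real.log x) =o[atTop] fun x : ℝ => x ^ (1 / 4 : ℝ) :=
    isLittleO_log_rpow_atTop (by norm_num)
  have h2 : (fun n : ℕ => K * Real.log (n : ℝ)) =o[atTop] fun n : ℕ => (n : ℝ) ^ (1 / 4 : ℝ) :=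
    (h1.comp_tendsto tendsto_natCast_atTop_atTop).const_mul_left K
  have h3 := h2.bound one_pos
  filter_upwards [h3, eventually_ge_atTop 1] with n hn h1n
  have h4 : 0 ≤ (n : ℝ) ^ (1 / 4 : ℝ) := by positivity
  rw [one_mul, Real.norm_eq_abs, Real.norm_eq_abs, abs_of_nonneg h4] at hn
  exact le_trans (le_abs_self _) hn

theorem numeric (δ : ℝ) (hδ : 0 < δ) (h : ℕ) (hh : 0 < h) :
    ∃ (κ : ℝ) (n₀ : ℕ), 0 < κ ∧ ∀ n ≥ n₀, ∀ D₀ : ℕ,
      (D₀ : ℝ) < κ * (n : ℝ) ^ (1 / 4 : ℝ) / Real.log n →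
      ∃ R : ℕ, 0 < R ∧ 0 < n / (2 * h) ∧
        8 * (2 * max D₀ 1 + dd (max D₀ 1)) ^ 2 ≤ R ∧
        2 * R * (8 * (4 * max D₀ 1 + dd (max D₀ 1)) ^ 2 + max D₀ 1 + 1) ≤ 2 * (n / (2 * h)) ∧
        32 * (2 * ((max D₀ 1 : ℕ) : ℝ) + dd (max D₀ 1)) ^ 2 / R +
          4 * ((max D₀ 1 : ℕ) : ℝ) ^ 2 / ((n / (2 * h) : ℕ) : ℝ) < δ ∧
        (n : ℝ) - 2 * h ≤ h * (2 * ((n / (2 * h) : ℕ) : ℝ)) ∧
        (14 : ℝ) * h ≤ n ∧ 1 ≤ δ * 2 ^ (2 * (n / (2 * h))) := by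
  obtain ⟨K₀, hK₀⟩ := exists_nat_ge (128 / δ + 8)
  have hK₀8 : (8 : ℝ) ≤ K₀ := by
    have : 0 < 128 / δ := by positivity
    linarith
  have hK₀8' : 8 ≤ K₀ := by exact_mod_cast hK₀8
  have hK₀δ : 128 ≤ δ * K₀ := by
    have h1 : 128 / δ ≤ K₀ := by linarith
    rw [div_le_iff₀ hδ] at h1
    linarith
  have hK₀pos : (0 : ℝ) < K₀ := by linarith
  have hh' : (0 : ℝ) < h := by exact_mod_cast hh
  have hh1 : (1 : ℝ) ≤ h := by exact_mod_cast hh
  obtain ⟨κ, hκ⟩ : ∃ κ : ℝ, κ = 1 / (51840 * K₀ * h) := ⟨_, rfl⟩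
  have hκpos : 0 < κ := by rw [hκ]; positivity
  have hκ1 : κ ≤ 1 := by
    rw [hκ, div_le_one (by positivity)]
    nlinarith
  have hκ4 : κ ^ 4 * (51840 * K₀ * h) ≤ 1 := by
    have h1 : κ ^ 4 ≤ κ := by
      calc κ ^ 4 ≤ κ ^ 1 := pow_le_pow_of_le_one hκpos.le hκ1 (by norm_num)
        _ = κ := pow_one κ
    calc κ ^ 4 * (51840 * K₀ * h) ≤ κ * (51840 * K₀ * h) :=
          mul_le_mul_of_nonneg_right h1 (by positivity)
      _ = 1 := by rw [hκ]; field_simp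
  obtain ⟨n₁, hn₁⟩ := eventually_atTop.1 (large_quarter (1 / κ))
  obtain ⟨n₂, hn₂⟩ := exists_nat_ge (2 * h / δ)
  refine ⟨κ, n₁ + n₂ + 14 * h + 3, hκpos, fun n hn D₀ hD₀ => ?_⟩
  set d := max D₀ 1 with hd
  set m := n / (2 * h) with hm
  have hn3 : 3 ≤ n := by omega
  have hn14 : 14 * h ≤ n := by omega
  have hnpos : (0 : ℝ) < n := by
    have : 0 < n := by omega
    exact_mod_cast this
  have hlog : 1 ≤ Real.log n := by
    rw [Real.le_log_iff_exp_le hnpos]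
    have h1 : Real.exp 1 < 3 := by
      have := Real.exp_one_lt_d9
      linarith
    have h2 : (3 : ℝ) ≤ n := by exact_mod_cast hn3
    linarith
  have hq0 : 0 < (n : ℝ) ^ (1 / 4 : ℝ) := Real.rpow_pos_of_pos hnpos _
  have hq4 : ((n : ℝ) ^ (1 / 4 : ℝ)) ^ 4 = n := by
    rw [← Real.rpow_natCast, ← Real.rpow_mul hnpos.le]
    norm_num
  set q := (n : ℝ) ^ (1 / 4 : ℝ) with hq
  have h1le : 1 ≤ κ * q / Real.log n := by
    have := hn₁ n (by omega)
    rw [one_div, inv_mul_le_iff₀ hκpos] at this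
    rw [le_div_iff₀ (by linarith)]
    linarith
  have hdle : (d : ℝ) ≤ κ * q / Real.log n := by
    rw [hd]
    push_cast
    exact max_le hD₀.le h1le
  have hd1 : 1 ≤ d := le_max_right _ _
  have hd1' : (1 : ℝ) ≤ d := by exact_mod_cast hd1
  have hdl : (d : ℝ) * Real.log n ≤ κ * q := by
    rwa [le_div_iff₀ (by linarith)] at hdle
  have hn1 : (1 : ℝ) ≤ n := by
    have : 1 ≤ n := by omega
    exact_mod_cast this
  have hqn : q ≤ n := by
    rw [hq]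
    calc (n : ℝ) ^ (1 / 4 : ℝ) ≤ (n : ℝ) ^ (1 : ℝ) :=
          Real.rpow_le_rpow_of_exponent_le hn1 (by norm_num)
      _ = n := Real.rpow_one _
  have hdn : (d : ℝ) ≤ n := by
    have h1 : (d : ℝ) * 1 ≤ d * Real.log n := mul_le_mul_of_nonneg_left hlog (by linarith)
    have h2 : κ * q ≤ 1 * q := mul_le_mul_of_nonneg_right hκ1 hq0.le
    linarith
  set Y := 4 * d + dd d with hY
  have hYq : (Y : ℝ) ≤ 6 * κ * q := by
    have h1 := dd_le d
    have h2 : Real.log d ≤ Real.log n := Real.log_le_log (by linarith) hdn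
    have h3 : (d : ℝ) * (1 + Real.log d) ≤ d * (1 + Real.log n) :=
      mul_le_mul_of_nonneg_left (by linarith) (by linarith)
    have h4 : (d : ℝ) * 5 ≤ d * (5 * Real.log n) :=
      mul_le_mul_of_nonneg_left (by linarith) (by linarith)
    rw [hY]
    push_cast
    calc 4 * (d : ℝ) + dd d ≤ 4 * d + d * (1 + Real.log n) := by linarith
      _ = d * 5 + d * Real.log n := by ring
      _ ≤ d * (5 * Real.log n) + d * Real.log n := by linarith
      _ = 6 * (d * Real.log n) := by ring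
      _ ≤ 6 * (κ * q) := by linarith
      _ = 6 * κ * q := by ring
  have hY4 : 4 ≤ Y := by omega
  have hYd : d ≤ Y := by omega
  -- the size of `m`
  have hmn : (n : ℝ) < 2 * h * (m + 1) := by
    have h1 : n < 2 * h * (m + 1) := by
      rw [hm]
      exact Nat.lt_mul_div_succ n (by omega)
    exact_mod_cast h1
  have hmn' : (n : ℝ) - 2 * h ≤ h * (2 * (m : ℝ)) := by linarith
  have hmn4 : (n : ℝ) / (4 * h) ≤ m := by
    rw [div_le_iff₀ (by positivity)]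
    have : (14 : ℝ) * h ≤ n := by exact_mod_cast hn14
    linarith
  have hYm : 10 * (K₀ : ℝ) * Y ^ 4 ≤ m := by
    have h1 : (Y : ℝ) ^ 4 ≤ (6 * κ * q) ^ 4 := pow_le_pow_left₀ (Nat.cast_nonneg _) hYq 4
    have h2 : (6 * κ * q) ^ 4 = 1296 * κ ^ 4 * n := by
      rw [mul_pow, mul_pow, hq4]
      ring
    calc 10 * (K₀ : ℝ) * Y ^ 4 ≤ 10 * K₀ * (1296 * κ ^ 4 * n) := by
          rw [← h2]
          exact mul_le_mul_of_nonneg_left h1 (by positivity)
      _ = (κ ^ 4 * (51840 * K₀ * h)) * (n / (4 * h)) := by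
          field_simp
          ring
      _ ≤ 1 * (n / (4 * h)) := mul_le_mul_of_nonneg_right hκ4 (by positivity)
      _ ≤ m := by linarith
  have hYm' : 10 * K₀ * Y ^ 4 ≤ m := by exact_mod_cast hYm
  have hmpos : 0 < m := by
    have : 0 < 10 * K₀ * Y ^ 4 := by positivity
    omega
  have hYpos : (0 : ℝ) < Y := by
    have : 0 < Y := by omega
    exact_mod_cast this
  refine ⟨K₀ * Y ^ 2, by positivity, hmpos, ?_, ?_, ?_, hmn', by exact_mod_cast hn14, ?_⟩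
  · have h1 : 2 * d + dd d ≤ Y := by omega
    exact Nat.mul_le_mul hK₀8' (Nat.pow_le_pow_left h1 2)
  · have h1 : 8 * Y ^ 2 + d + 1 ≤ 10 * Y ^ 2 := by nlinarith
    calc 2 * (K₀ * Y ^ 2) * (8 * Y ^ 2 + d + 1) ≤ 2 * (K₀ * Y ^ 2) * (10 * Y ^ 2) :=
          Nat.mul_le_mul_left _ h1
      _ = 2 * (10 * K₀ * Y ^ 4) := by ring
      _ ≤ 2 * m := Nat.mul_le_mul_left _ hYm'
  · have h1 : 2 * (d : ℝ) + dd d ≤ Y := by
      have : 2 * d + dd d ≤ Y := by omega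
      exact_mod_cast this
    have h2 : 32 * (2 * (d : ℝ) + dd d) ^ 2 / ((K₀ * Y ^ 2 : ℕ) : ℝ) ≤ 32 / K₀ := by
      push_cast
      rw [div_le_div_iff₀ (by positivity) hK₀pos]
      have h3 : (2 * (d : ℝ) + dd d) ^ 2 ≤ (Y : ℝ) ^ 2 := pow_le_pow_left₀ (by positivity) h1 2
      calc 32 * (2 * (d : ℝ) + dd d) ^ 2 * K₀ ≤ 32 * (Y : ℝ) ^ 2 * K₀ := by gcongr
        _ = 32 * (K₀ * (Y : ℝ) ^ 2) := by ring
    have h4 : 4 * (d : ℝ) ^ 2 / (m : ℝ) ≤ 32 / K₀ := by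
      have hm' : (0 : ℝ) < m := by exact_mod_cast hmpos
      rw [div_le_div_iff₀ hm' hK₀pos]
      have h5 : (d : ℝ) ≤ Y := by exact_mod_cast hYd
      have h6 : (1 : ℝ) ≤ Y := by
        have : 1 ≤ Y := by omega
        exact_mod_cast this
      calc 4 * (d : ℝ) ^ 2 * K₀ ≤ 4 * (Y : ℝ) ^ 4 * K₀ := by
            gcongr
            calc (d : ℝ) ^ 2 ≤ (Y : ℝ) ^ 2 := by gcongr
              _ ≤ (Y : ℝ) ^ 4 := pow_le_pow_right₀ h6 (by norm_num)
        _ ≤ 32 * (10 * K₀ * (Y : ℝ) ^ 4) := by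
            have : 0 ≤ (K₀ : ℝ) * Y ^ 4 := by positivity
            linarith
        _ ≤ 32 * m := by linarith
    have h7 : 32 / (K₀ : ℝ) ≤ δ / 4 := by
      rw [div_le_div_iff₀ hK₀pos (by norm_num)]
      linarith
    linarith
  · have h1 : (2 * h : ℝ) / δ ≤ n := by
      refine le_trans hn₂ ?_
      have : n₂ ≤ n := by omega
      exact_mod_cast this
    rw [div_le_iff₀ hδ] at h1
    have h2 : (2 * m : ℝ) ≤ 2 ^ (2 * m) := by
      have := (Nat.lt_two_pow_self (n := 2 * m)).le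
      exact_mod_cast this
    have h3 : (n : ℝ) ≤ 2 * h * (2 * m) := by
      have : (14 : ℝ) * h ≤ n := by exact_mod_cast hn14
      linarith
    have h4 : (2 * h : ℝ) ≤ 2 * h * (δ * (2 * m)) := by
      calc (2 * h : ℝ) ≤ n * δ := h1
        _ ≤ (2 * h * (2 * m)) * δ := mul_le_mul_of_nonneg_right h3 hδ.le
        _ = _ := by ring
    have h5 : 1 ≤ δ * (2 * m) := by
      have h6 : (0 : ℝ) < 2 * h := by positivity
      by_contra h7
      push Not at h7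
      nlinarith
    calc 1 ≤ δ * (2 * m) := h5
      _ ≤ δ * 2 ^ (2 * m) := mul_le_mul_of_nonneg_left h2 hδ.le

end Pool.Agent.Lib.MP_cff830_lc.Deg
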