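import Pool.Agent.Lib.MP_cff830_lc.Deg.Ind
import Pool.Agent.Lib.MP_cff830_lc.Deg.Numeric

/-!
# D13: the lower bound
-/

namespace Pool.Agent.Lib.MP_cff830_lc.Deg

open Finset Pool.Agent.Lib.MP_cff830_lc.AC0 MvPolynomial

theorem avg_le {α : Type} [Fintype α] [Nonempty α] {f : α → ℝ} {c : ℝ} (h : ∀ x, f x ≤ c) :
    avg f ≤ c := by
  unfold avg
  have h1 : (0 : ℝ) < Fintype.card α := by exact_mod_cast Fintype.card_pos
  rw [div_le_iff₀ h1]
  calc ∑ x, f x ≤ ∑ _x : α, c := Finset.sum_le_sum fun x _ => h x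
    _ = c * Fintype.card α := by simp [mul_comm]

open scoped Classical in
/-- lower bound for an average, with an exceptional set -/
theorem le_avg {α : Type} [Fintype α] [Nonempty α] {f : α → ℝ} {a b : ℝ} (bad : α → Prop)
    (h : ∀ x, ¬ bad x → a ≤ f x) (hb : ∀ x, a - b ≤ f x) :
    a - b * (cnt bad / (Fintype.card α : ℝ)) ≤ avg f := by
  unfold avg
  have h1 : (0 : ℝ) < Fintype.card α := by exact_mod_cast Fintype.card_pos
  rw [le_div_iff₀ h1]
  have h2 : (cnt bad : ℝ) = ∑ x, if bad x then (1 : ℝ) else 0 := by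
    unfold cnt
    rw [Finset.sum_boole]
  have h3 : (a - b * (cnt bad / (Fintype.card α : ℝ))) * Fintype.card α =
      ∑ x : α, (a - b * if bad x then (1 : ℝ) else 0) := by
    rw [Finset.sum_sub_distrib, ← Finset.mul_sum, ← h2]
    simp only [sum_const, card_univ, nsmul_eq_mul]
    field_simp
  rw [h3]
  refine Finset.sum_le_sum fun x _ => ?_
  by_cases hx : bad x
  · rw [if_pos hx]
    have := hb x
    linarith
  · rw [if_neg hx]
    have := h x hx
    linarith

theorem cnt_fst {α β : Type} [Fintype α] [Fintype β] (p : α → Prop) :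
    cnt (fun x : α × β => p x.1) = cnt p * Fintype.card β := by
  classical
  unfold cnt
  have : (univ.filter fun x : α × β => p x.1) = (univ.filter p) ×ˢ univ := by
    ext x; simp
  rw [this, Finset.card_product, Finset.card_univ]

/-- D13 -/
theorem stLower (hB : StBase) (h9 : StUnion) (h10 : StGraph) (h12 : StInd) : StLower := by
  classical
  intro c hc
  set c' : ℝ := max c 1 with hc'
  have hc1 : 1 ≤ c' := le_max_right _ _
  have hcc : c ≤ c' := le_max_left _ _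
  have hc2 : c' < 2 := max_lt hc one_lt_two
  obtain ⟨δ, hδ⟩ : ∃ δ : ℝ, δ = (2 - c') / 16 := ⟨_, rfl⟩
  have hδ0 : 0 < δ := by rw [hδ]; linarith
  have hδ1 : δ ≤ 1 / 16 := by rw [hδ]; linarith
  obtain ⟨ε₀, hε₀, hU⟩ := h9 δ hδ0
  obtain ⟨D, hD⟩ := hB ε₀ hε₀
  refine ⟨D, δ, hδ0, fun g => ?_⟩
  obtain ⟨N, M, B, hN, hdeg, hgir, hind⟩ := hD (max g 2)
  obtain ⟨hloop, port, hport, hG1, hG2⟩ := h10 (Fin N) (Fin M) B D (max g 2) hdeg hgir
    (le_max_right _ _)
  obtain ⟨κ, n₀, hκ, hnum⟩ := numeric δ hδ0 N hN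
  refine ⟨κ, n₀, hκ, fun n hn P hP => ?_⟩
  by_contra hcon
  push Not at hcon
  obtain ⟨R, hR, hm, hR1, hR2, hsmall, hn1, hn2, hn3⟩ := hnum n hn P.totalDegree hcon
  set d := max P.totalDegree 1 with hd
  set m := n / (2 * N) with hmdef
  have hN' : (0 : ℝ) < N := by exact_mod_cast hN
  have hm' : (0 : ℝ) < m := by exact_mod_cast hm
  have hnpos : (0 : ℝ) < n := by linarith [mul_pos (by norm_num : (0 : ℝ) < 14) hN']
  have hcard : N * (2 * m) ≤ n := by
    calc N * (2 * m) = (2 * N) * (n / (2 * N)) := by rw [hmdef]; ring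
      _ ≤ n := Nat.mul_div_le _ _
  have hcardR : (N : ℝ) * (2 * m) ≤ n := by exact_mod_cast hcard
  obtain ⟨ψ₁⟩ : Nonempty (Fin N × (Fin 1 × Unit × Fin (2 * m)) ↪ Fin n) := by
    apply Function.Embedding.nonempty_of_card_le
    simpa using hcard
  obtain ⟨ψ₂⟩ : Nonempty (Fin N × (Fin 1 × Bool × Fin m) ↪ Fin n) := by
    apply Function.Embedding.nonempty_of_card_le
    simpa using hcard
  -- the size of vertex covers of lifts
  have hvc : ∀ (Φ : Type) [Fintype Φ] [DecidableEq Φ] (π : Fin M → Equiv.Perm Φ)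
      (ψ : Fin N × Φ ↪ Fin n), (vc (Gl B π ψ) : ℝ) ≤ n := by
    intro Φ _ _ π ψ
    have h1 := (hG1 Φ π n ψ).2.2.1
    have h2 := Fintype.card_le_of_embedding ψ
    rw [Fintype.card_prod] at h2
    simp only [Fintype.card_fin] at h1 h2
    exact_mod_cast le_trans h1 h2
  have hPl : ∀ (Φ : Type) [Fintype Φ] [DecidableEq Φ] (π : Fin M → Equiv.Perm Φ)
      (ψ : Fin N × Φ ↪ Fin n),
      (vc (Gl B π ψ) : ℝ) - δ * n ≤ eval (lbit (Ll B port π ψ)) P ∧
      eval (lbit (Ll B port π ψ)) P ≤ c * (vc (Gl B π ψ) : ℝ) + δ * n := by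
    intro Φ _ _ π ψ
    obtain ⟨h1, h2, -⟩ := hG1 Φ π n ψ
    exact hP _ _ h1 fun v p hp => lt_of_le_of_lt (le_max_left g 2) (h2 v p hp)
  -- normalisation
  set P' : MvPolynomial (Fin n × Fin D × Fin n) ℝ := MvPolynomial.C (1 / (3 * (n : ℝ))) * P
    with hP'
  have hdeg' : P'.totalDegree ≤ d := by
    refine le_trans (totalDegree_mul _ _) ?_
    rw [totalDegree_C, zero_add]
    exact le_max_left _ _
  have heval : ∀ x, eval x P' = 1 / (3 * (n : ℝ)) * eval x P := by
    intro x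
    rw [hP', map_mul, eval_C]
  have hbound : ∀ (Φ : Type) [Fintype Φ] [DecidableEq Φ] (π : Fin M → Equiv.Perm Φ)
      (ψ : Fin N × Φ ↪ Fin n), |eval (lbit (Ll B port π ψ)) P'| ≤ 1 := by
    intro Φ _ _ π ψ
    obtain ⟨h1, h2⟩ := hPl Φ π ψ
    have h3 := hvc Φ π ψ
    have h4 : (0 : ℝ) ≤ vc (Gl B π ψ) := Nat.cast_nonneg _
    have h5 : c * (vc (Gl B π ψ) : ℝ) ≤ 2 * n := by
      calc c * (vc (Gl B π ψ) : ℝ) ≤ 2 * (vc (Gl B π ψ) : ℝ) :=
            mul_le_mul_of_nonneg_right hc.le h4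
        _ ≤ 2 * n := by linarith
    have h6 : δ * n ≤ 1 * n := mul_le_mul_of_nonneg_right (by linarith) hnpos.le
    rw [heval, abs_mul, abs_of_pos (by positivity : 0 < 1 / (3 * (n : ℝ))), one_div,
      inv_mul_le_iff₀ (by positivity), mul_one, abs_le]
    constructor <;> linarith
  have hI := h12 (Fin N) (Fin M) B D port hloop hport n m d R P' hdeg' (lt_of_lt_of_le one_pos
    (le_max_right _ _)) hm hR hbound hR1 hR2 ψ₁ ψ₂
  -- the first average is large
  have hne1 : Nonempty ((Fin 1 × Unit × Fin M → Equiv.Perm (Fin (2 * m))) ×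
      Equiv.Perm (Fin n)) := ⟨(fun _ => 1, 1)⟩
  have hne2 : Nonempty ((Fin 1 × Bool × Fin M → Equiv.Perm (Fin m)) ×
      Equiv.Perm (Fin n)) := ⟨(fun _ => 1, 1)⟩
  set bad0 : (Fin 1 × Unit × Fin M → Equiv.Perm (Fin (2 * m))) → Prop := fun ω =>
    ∃ S : Finset (Fin N × (Fin 1 × Unit × Fin (2 * m))),
      (∀ e p, ¬ ((B.src e, p) ∈ S ∧ (B.tgt e, blk (Equiv.refl Unit) ω e p) ∈ S)) ∧
      δ * (Fintype.card (Fin N) * (2 * m : ℕ)) ≤ S.card with hbad0
  have hbadcard := hU (Fin N) (Fin M) B hloop (by simpa using hN)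
    (by simpa only [Fintype.card_fin] using hind) (2 * m) (by omega)
  have h1 : (1 - δ) * (N * (2 * m)) / (3 * n) - 1 / 3 * δ - δ / 3 ≤
      avg (fun x : (Fin 1 × Unit × Fin M → Equiv.Perm (Fin (2 * m))) × Equiv.Perm (Fin n) =>
        eval (lbit (Ll B port (blk (Equiv.refl Unit) x.1) (ψ₁.trans x.2.toEmbedding))) P') := by
    refine le_trans ?_ (le_avg (a := (1 - δ) * (N * (2 * m)) / (3 * n) - 1 / 3 * δ) (b := 1 / 3)
      (fun x => bad0 x.1) ?_ ?_)
    · -- the probability of the bad event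
      have h2 : (cnt (fun x : (Fin 1 × Unit × Fin M → Equiv.Perm (Fin (2 * m))) ×
          Equiv.Perm (Fin n) => bad0 x.1) : ℝ) = cnt bad0 * Fintype.card (Equiv.Perm (Fin n)) := by
        rw [cnt_fst]
        push_cast
        rfl
      rw [h2, Fintype.card_prod]
      push_cast
      have h3 : (0 : ℝ) < Fintype.card (Equiv.Perm (Fin n)) := by
        exact_mod_cast Fintype.card_pos
      rw [mul_div_mul_right _ _ h3.ne']
      have h4 : (0 : ℝ) < Fintype.card (Fin 1 × Unit × Fin M → Equiv.Perm (Fin (2 * m))) := by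
        exact_mod_cast Fintype.card_pos
      have h5 : (cnt bad0 : ℝ) / Fintype.card (Fin 1 × Unit × Fin M → Equiv.Perm (Fin (2 * m))) ≤
          δ := by
        rw [div_le_iff₀ h4]
        have h6 : (0 : ℝ) < 2 ^ (2 * m) := by positivity
        have h7 : (cnt bad0 : ℝ) * 2 ^ (2 * m) ≤
            Fintype.card (Fin 1 × Unit × Fin M → Equiv.Perm (Fin (2 * m))) := hbadcard
        have h8 : (0 : ℝ) ≤ cnt bad0 := Nat.cast_nonneg _
        calc (cnt bad0 : ℝ) = cnt bad0 * 1 := by ring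
          _ ≤ cnt bad0 * (δ * 2 ^ (2 * m)) := mul_le_mul_of_nonneg_left hn3 h8
          _ = δ * (cnt bad0 * 2 ^ (2 * m)) := by ring
          _ ≤ _ := mul_le_mul_of_nonneg_left h7 hδ0.le
      linarith
    · rintro ⟨ω, ρ⟩ hω
      obtain ⟨h2, h3⟩ := hPl _ (blk (Equiv.refl Unit) ω) (ψ₁.trans ρ.toEmbedding)
      have h4 := (hG1 _ (blk (Equiv.refl Unit) ω) n (ψ₁.trans ρ.toEmbedding)).2.2.2 δ (by
        intro S hS
        by_contra h5
        push Not at h5
        refine hω ⟨S, hS, ?_⟩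
        simpa using h5)
      have h5 : (Fintype.card (Fin N) : ℝ) *
          Fintype.card (Fin 1 × Unit × Fin (2 * m)) = N * (2 * m) := by
        simp
      rw [h5] at h4
      rw [heval]
      have h6 : (1 - δ) * (N * (2 * m)) - δ * n ≤
          eval (lbit (Ll B port (blk (Equiv.refl Unit) ω) (ψ₁.trans ρ.toEmbedding))) P := by
        linarith
      calc (1 - δ) * (N * (2 * m)) / (3 * n) - 1 / 3 * δ =
            1 / (3 * n) * ((1 - δ) * (N * (2 * m)) - δ * n) := by field_simp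
        _ ≤ _ := mul_le_mul_of_nonneg_left h6 (by positivity)
    · rintro ⟨ω, ρ⟩
      obtain ⟨h2, h3⟩ := hPl _ (blk (Equiv.refl Unit) ω) (ψ₁.trans ρ.toEmbedding)
      rw [heval]
      have h4 : (0 : ℝ) ≤ vc (Gl B (blk (Equiv.refl Unit) ω) (ψ₁.trans ρ.toEmbedding)) :=
        Nat.cast_nonneg _
      have h5 : (1 - δ) * (N * (2 * m)) ≤ n := by
        calc (1 - δ) * (N * (2 * m)) ≤ 1 * (N * (2 * m)) :=
              mul_le_mul_of_nonneg_right (by linarith) (by positivity)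
          _ ≤ n := by linarith
      have h6 : (1 - δ) * (N * (2 * m)) - δ * n - n ≤
          eval (lbit (Ll B port (blk (Equiv.refl Unit) ω) (ψ₁.trans ρ.toEmbedding))) P := by
        linarith
      calc (1 - δ) * (N * (2 * m)) / (3 * n) - 1 / 3 * δ - 1 / 3 =
            1 / (3 * n) * ((1 - δ) * (N * (2 * m)) - δ * n - n) := by field_simp
        _ ≤ _ := mul_le_mul_of_nonneg_left h6 (by positivity)
  -- the second average is small
  have h2 : avg (fun x : (Fin 1 × Bool × Fin M → Equiv.Perm (Fin m)) × Equiv.Perm (Fin n) =>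
        eval (lbit (Ll B port (blk Equiv.boolNot x.1) (ψ₂.trans x.2.toEmbedding))) P') ≤
      c' / 2 * (N * (2 * m)) / (3 * n) + 1 / 3 * δ := by
    refine avg_le ?_
    rintro ⟨ω, ρ⟩
    obtain ⟨h2, h3⟩ := hPl _ (blk Equiv.boolNot ω) (ψ₂.trans ρ.toEmbedding)
    have h4 := hG2 1 m n ω (ψ₂.trans ρ.toEmbedding)
    have h5 : (vc (Gl B (blk Equiv.boolNot ω) (ψ₂.trans ρ.toEmbedding)) : ℝ) ≤ N * m := by
      have : Fintype.card (Fin N) * (1 * m) = N * m := by simp
      rw [this] at h4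
      exact_mod_cast h4
    rw [heval]
    have h6 : (0 : ℝ) ≤ vc (Gl B (blk Equiv.boolNot ω) (ψ₂.trans ρ.toEmbedding)) :=
      Nat.cast_nonneg _
    have h7 : c * (vc (Gl B (blk Equiv.boolNot ω) (ψ₂.trans ρ.toEmbedding)) : ℝ) ≤
        c' * (N * m) := by
      calc c * (vc (Gl B (blk Equiv.boolNot ω) (ψ₂.trans ρ.toEmbedding)) : ℝ) ≤
            c' * (vc (Gl B (blk Equiv.boolNot ω) (ψ₂.trans ρ.toEmbedding)) : ℝ) :=
            mul_le_mul_of_nonneg_right hcc h6
        _ ≤ c' * (N * m) := mul_le_mul_of_nonneg_left h5 (by linarith)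
    calc 1 / (3 * (n : ℝ)) *
          eval (lbit (Ll B port (blk Equiv.boolNot ω) (ψ₂.trans ρ.toEmbedding))) P ≤
          1 / (3 * n) * (c' * (N * m) + δ * n) :=
          mul_le_mul_of_nonneg_left (by linarith) (by positivity)
      _ = c' / 2 * (N * (2 * m)) / (3 * n) + 1 / 3 * δ := by field_simp
  rw [abs_le] at hI
  have h3 := hI.2
  -- the gap
  have h4 : 7 * δ * (N * (2 * m)) / (3 * n) ≥ 2 * δ := by
    rw [ge_iff_le, le_div_iff₀ (by positivity)]
    have h5 : (n : ℝ) - 2 * N ≥ 6 / 7 * n := by linarith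
    have h6 : 7 * δ * (6 / 7 * n) ≤ 7 * δ * (N * (2 * m)) :=
      mul_le_mul_of_nonneg_left (by linarith) (by positivity)
    linarith
  have h5 : (1 - δ) * (N * (2 * m)) / (3 * n) - c' / 2 * (N * (2 * m)) / (3 * n) =
      7 * δ * (N * (2 * m)) / (3 * n) := by
    rw [← sub_div]
    congr 1
    have : c' = 2 - 16 * δ := by rw [hδ]; ring
    rw [this]
    ring
  linarith

end Pool.Agent.Lib.MP_cff830_lc.Deg
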