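import Pool.Agent.Lib.MP_cff830_lc.Deg.Stmts

/-!
# The number of permutations with prescribed values
-/

set_option autoImplicit false

namespace Pool.Agent.Lib.MP_cff830_lc.Deg

open Finset Pool.Agent.Lib.MP_cff830_lc.AC0

theorem stPerm : StPerm := by
  intro α U _ _ _ f g hf hg
  classical
  obtain ⟨ρ₀, hρ₀⟩ := Equiv.Perm.exists_extending_pair f g hf hg
  let p : α → Prop := fun a => a ∉ Set.range f
  have e1 : {ρ : Equiv.Perm α // ∀ u, ρ (f u) = g u} ≃
      {σ : Equiv.Perm α // ∀ a, ¬ p a → σ a = a} := by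
    refine Equiv.subtypeEquiv (Equiv.mulLeft ρ₀⁻¹) fun ρ => ?_
    constructor
    · intro h a ha
      simp only [p, not_not] at ha
      obtain ⟨u, rfl⟩ := ha
      simp only [Equiv.coe_mulLeft, Equiv.Perm.mul_apply]
      rw [h u, ← hρ₀ u]
      simp
    · intro h u
      have := h (f u) (by simp [p])
      simp only [Equiv.coe_mulLeft, Equiv.Perm.mul_apply] at this
      rw [Equiv.Perm.inv_eq_iff_eq] at this
      rw [this, hρ₀ u]
  have e2 := (Equiv.Perm.subtypeEquivSubtypePerm p)
  have h1 : cnt (fun ρ : Equiv.Perm α => ∀ u, ρ (f u) = g u) =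
      Fintype.card {ρ : Equiv.Perm α // ∀ u, ρ (f u) = g u} := by
    unfold cnt
    rw [Fintype.card_subtype]
    congr
  rw [h1, Fintype.card_congr (e1.trans e2.symm), Fintype.card_perm]
  congr 1
  have h2 : Fintype.card {a // p a} = Fintype.card α - Fintype.card {a // a ∈ Set.range f} := by
    rw [← Fintype.card_subtype_compl]
  rw [h2]
  congr 1
  exact (Fintype.card_congr (Equiv.ofInjective f hf)).symm

end Pool.Agent.Lib.MP_cff830_lc.Deg
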