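import Pool.Agent.Lib.MP_cff830_lc.Deg.Stmts

/-!
# The average over the numberings of the vertices
-/

set_option autoImplicit false

namespace Pool.Agent.Lib.MP_cff830_lc.Deg

open Finset Pool.Agent.Lib.MP_cff830_lc.AC0 MvPolynomial

namespace SymAux

theorem ind_true {p : Prop} (h : p) : ind p = 1 := by
  unfold ind
  exact if_pos h

theorem ind_false {p : Prop} (h : ¬ p) : ind p = 0 := by
  unfold ind
  exact if_neg h

theorem ind_congr {p q : Prop} (h : p ↔ q) : ind p = ind q := by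
  rw [propext h]

theorem sum_ind {α : Type} [Fintype α] (P : α → Prop) : ∑ x, ind (P x) = (cnt P : ℝ) := by
  classical
  unfold cnt ind
  rw [Finset.sum_boole]

theorem ind_sq (p : Prop) {k : ℕ} (hk : k ≠ 0) : ind p ^ k = ind p := by
  by_cases h : p
  · rw [ind_true h, one_pow]
  · rw [ind_false h, zero_pow hk]

theorem prod_ind {α : Type} (S : Finset α) (P : α → Prop) :
    ∏ s ∈ S, ind (P s) = ind (∀ s ∈ S, P s) := by
  classical
  by_cases h : ∀ s ∈ S, P s
  · rw [ind_true h]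
    exact Finset.prod_eq_one fun s hs => ind_true (h s hs)
  · rw [ind_false h]
    push Not at h
    obtain ⟨s, hs, hn⟩ := h
    exact Finset.prod_eq_zero hs (ind_false hn)

variable {V E : Type}

/-- combinations of numbers of copies -/
def Rep (B : Base V E) (n d : ℕ)
    (f : ∀ (Φ : Type) [Fintype Φ], (E → Equiv.Perm Φ) → (V × Φ ↪ Fin n) → ℝ) : Prop :=
  ∃ (r : ℕ) (c : Fin r → ℝ) (Q : Fin r → Pt V E),
    (∀ i, Fits B (Q i).t (Q i).A ∧ (Q i).A.card ≤ d ∧ (Q i).k ≤ 2 * d) ∧
    ∀ (Φ : Type) [Fintype Φ] (π : E → Equiv.Perm Φ) (ψ : V × Φ ↪ Fin n),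
      f Φ π ψ = ∑ i, c i * (cp π (Q i).t (Q i).A : ℝ)

theorem Rep.zero (B : Base V E) (n d : ℕ) : Rep B n d (fun _ _ _ _ => 0) :=
  ⟨0, fun _ => 0, fun i => i.elim0, fun i => i.elim0, fun Φ _ π ψ => by simp⟩

theorem Rep.add {B : Base V E} {n d : ℕ}
    {f g : ∀ (Φ : Type) [Fintype Φ], (E → Equiv.Perm Φ) → (V × Φ ↪ Fin n) → ℝ}
    (hf : Rep B n d f) (hg : Rep B n d g) :
    Rep B n d (fun Φ _ π ψ => f Φ π ψ + g Φ π ψ) := by
  obtain ⟨r, c, Q, h1, h2⟩ := hf
  obtain ⟨r', c', Q', h1', h2'⟩ := hg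
  refine ⟨r + r', Fin.append c c', Fin.append Q Q', ?_, ?_⟩
  · intro i
    refine Fin.addCases (fun j => ?_) (fun j => ?_) i
    · rw [Fin.append_left]
      exact h1 j
    · rw [Fin.append_right]
      exact h1' j
  · intro Φ _ π ψ
    rw [Fin.sum_univ_add]
    show f Φ π ψ + g Φ π ψ = _
    rw [h2, h2']
    refine congrArg₂ _ (Finset.sum_congr rfl fun i _ => ?_) (Finset.sum_congr rfl fun i _ => ?_)
    · rw [Fin.append_left, Fin.append_left]
    · rw [Fin.append_right, Fin.append_right]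

theorem Rep.smul {B : Base V E} {n d : ℕ}
    {f : ∀ (Φ : Type) [Fintype Φ], (E → Equiv.Perm Φ) → (V × Φ ↪ Fin n) → ℝ} (x : ℝ)
    (hf : Rep B n d f) : Rep B n d (fun Φ _ π ψ => x * f Φ π ψ) := by
  obtain ⟨r, c, Q, h1, h2⟩ := hf
  refine ⟨r, fun i => x * c i, Q, h1, ?_⟩
  intro Φ _ π ψ
  show x * f Φ π ψ = _
  rw [h2, Finset.mul_sum]
  refine Finset.sum_congr rfl fun i _ => ?_
  ring

theorem Rep.sum {B : Base V E} {n d : ℕ} {α : Type} (S : Finset α)
    {f : α → ∀ (Φ : Type) [Fintype Φ], (E → Equiv.Perm Φ) → (V × Φ ↪ Fin n) → ℝ}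
    (hf : ∀ a ∈ S, Rep B n d (f a)) : Rep B n d (fun Φ _ π ψ => ∑ a ∈ S, f a Φ π ψ) := by
  classical
  induction S using Finset.induction_on with
  | empty => simpa using Rep.zero B n d
  | insert a S ha ih =>
    have h1 := (hf a (mem_insert_self a S)).add (ih fun b hb => hf b (mem_insert_of_mem hb))
    simpa only [Finset.sum_insert ha] using h1

theorem Rep.copy {B : Base V E} {n d k : ℕ} (t : Fin k → V) (A : Finset (E × Fin k × Fin k))
    (h1 : Fits B t A) (h2 : A.card ≤ d) (h3 : k ≤ 2 * d) :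
    Rep B n d (fun Φ _ π _ => (cp π t A : ℝ)) :=
  ⟨1, fun _ => 1, fun _ => ⟨k, t, A⟩, fun _ => ⟨h1, h2, h3⟩, fun Φ _ π ψ => by simp⟩

theorem Rep.congr {B : Base V E} {n d : ℕ}
    {f g : ∀ (Φ : Type) [Fintype Φ], (E → Equiv.Perm Φ) → (V × Φ ↪ Fin n) → ℝ}
    (hf : Rep B n d f) (h : ∀ (Φ : Type) [Fintype Φ] (π : E → Equiv.Perm Φ)
      (ψ : V × Φ ↪ Fin n), g Φ π ψ = f Φ π ψ) : Rep B n d g := by
  obtain ⟨r, c, Q, h1, h2⟩ := hf
  exact ⟨r, c, Q, h1, fun Φ _ π ψ => by rw [h, h2]⟩

/-- the entries of the lists of the lift -/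
theorem Ll_iff {Φ : Type} (B : Base V E) {D : ℕ} (port : V → Fin D → Option (E × Bool))
    (π : E → Equiv.Perm Φ) {n : ℕ} (ψ : V × Φ ↪ Fin n) (x y : Fin n) (i : Fin D) :
    Ll B port π ψ x i = some y ↔ ∃ a b, ψ a = x ∧ ψ b = y ∧ nx B port π a i = some b := by
  have hp := ψ.injective.isPartialInv
  unfold Ll
  rw [Option.bind_eq_some_iff]
  constructor
  · rintro ⟨a, ha, h⟩
    rw [Option.map_eq_some_iff] at h
    obtain ⟨b, hb, rfl⟩ := h
    exact ⟨a, b, (hp a x).1 ha, rfl, hb⟩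
  · rintro ⟨a, b, rfl, rfl, h⟩
    refine ⟨a, (hp a _).2 rfl, ?_⟩
    rw [h]
    rfl

/-- the types of the neighbours -/
theorem nx_iff {Φ : Type} {B : Base V E} {D : ℕ} {port : V → Fin D → Option (E × Bool)}
    (π : E → Equiv.Perm Φ) (v w : V) (p q : Φ) (i : Fin D) (e : E)
    (b : Bool) (h : port v i = some (e, b)) (hw : w = if b = true then B.tgt e else B.src e) :
    nx B port π (v, p) i = some (w, q) ↔ if b = true then π e p = q else π e q = p := by
  unfold nx
  simp only [h, Option.map_some, Option.some.injEq]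
  cases b with
  | true =>
    simp only [if_true] at hw ⊢
    rw [hw]
    simp
  | false =>
    simp only [Bool.false_eq_true, if_false] at hw ⊢
    rw [hw, Prod.mk.injEq, Equiv.symm_apply_eq]
    simp [eq_comm]

theorem nx_type {Φ : Type} {B : Base V E} {D : ℕ} {port : V → Fin D → Option (E × Bool)}
    (π : E → Equiv.Perm Φ) (v w : V) (p q : Φ) (i : Fin D)
    (h : nx B port π (v, p) i = some (w, q)) :
    ∃ e b, port v i = some (e, b) ∧ w = if b = true then B.tgt e else B.src e := by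
  unfold nx at h
  rw [Option.map_eq_some_iff] at h
  obtain ⟨⟨e, b⟩, h1, h2⟩ := h
  refine ⟨e, b, h1, ?_⟩
  cases b with
  | true =>
    simp only [if_true] at h2 ⊢
    exact (congrArg Prod.fst h2).symm
  | false =>
    simp only [Bool.false_eq_true, if_false] at h2 ⊢
    exact (congrArg Prod.fst h2).symm

/-- the average of a product of list bits -/
theorem rep_prod [Fintype V] [DecidableEq V] [Fintype E] [DecidableEq E] (hP : StPerm)
    (B : Base V E) (D : ℕ) (port : V → Fin D → Option (E × Bool)) (hport : IsPort B port)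
    (n : ℕ) (S : Finset (Fin n × Fin D × Fin n)) (d : ℕ) (hd : S.card ≤ d) :
    Rep B n d (fun Φ _ π ψ => avg fun ρ : Equiv.Perm (Fin n) =>
      ∏ s ∈ S, lbit (Ll B port π (ψ.trans ρ.toEmbedding)) s) := by
  classical
  set U : Finset (Fin n) := S.image (fun s => s.1) ∪ S.image (fun s => s.2.2) with hU
  have hUc : U.card ≤ 2 * d := by
    refine (card_union_le _ _).trans ?_
    have h1 : (S.image (fun s => s.1)).card ≤ S.card := card_image_le
    have h2 : (S.image (fun s => s.2.2)).card ≤ S.card := card_image_le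
    omega
  have hu : ∀ s : {s // s ∈ S}, s.1.1 ∈ U := fun s =>
    mem_union_left _ (mem_image_of_mem (fun s => s.1) s.2)
  have hv : ∀ s : {s // s ∈ S}, s.1.2.2 ∈ U := fun s =>
    mem_union_right _ (mem_image_of_mem (fun s => s.2.2) s.2)
  let ix : Fin U.card → Fin n := fun j => (U.equivFin.symm j).1
  have hix : Function.Injective ix := fun a b h => U.equivFin.symm.injective (Subtype.ext h)
  let ju : {s // s ∈ S} → Fin U.card := fun s => U.equivFin ⟨s.1.1, hu s⟩
  let jv : {s // s ∈ S} → Fin U.card := fun s => U.equivFin ⟨s.1.2.2, hv s⟩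
  have hju : ∀ s, ix (ju s) = s.1.1 := by
    intro s
    simp [ix, ju]
  have hjv : ∀ s, ix (jv s) = s.1.2.2 := by
    intro s
    simp [ix, jv]
  -- every index is used
  have hix' : ∀ j : Fin U.card, ∃ s, j = ju s ∨ j = jv s := by
    intro j
    have h0 : ∀ x ∈ U, (∃ s ∈ S, s.1 = x) ∨ ∃ s ∈ S, s.2.2 = x := by
      intro x hx
      rw [hU, mem_union, mem_image, mem_image] at hx
      exact hx
    rcases h0 _ (U.equivFin.symm j).2 with ⟨s, hs, h1⟩ | ⟨s, hs, h1⟩
    · exact ⟨⟨s, hs⟩, Or.inl (hix (by rw [hju]; exact h1.symm))⟩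
    · exact ⟨⟨s, hs⟩, Or.inr (hix (by rw [hjv]; exact h1.symm))⟩
  -- types
  let Poss : (Fin U.card → V) → Prop := fun t => ∀ s : {s // s ∈ S}, ∃ e b,
    port (t (ju s)) s.1.2.1 = some (e, b) ∧ t (jv s) = if b = true then B.tgt e else B.src e
  -- the condition for a copy
  let Nx : ∀ (Φ : Type), (E → Equiv.Perm Φ) → (Fin U.card → V) → (Fin U.card → Φ) → Prop :=
    fun Φ π t φ => ∀ s : {s // s ∈ S},
      nx B port π (t (ju s), φ (ju s)) s.1.2.1 = some (t (jv s), φ (jv s))
  have harcs : ∀ t, Poss t → ∃ A : Finset (E × Fin U.card × Fin U.card), Fits B t A ∧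
      A.card ≤ d ∧ ∀ (Φ : Type) (π : E → Equiv.Perm Φ) (φ : Fin U.card → Φ),
        Nx Φ π t φ ↔ ∀ a ∈ A, π a.1 (φ a.2.1) = φ a.2.2 := by
    intro t ht
    choose e b h1 h2 using ht
    refine ⟨univ.image fun s => if b s = true then (e s, ju s, jv s) else (e s, jv s, ju s),
      ?_, ?_, ?_⟩
    · intro a ha
      rw [mem_image] at ha
      obtain ⟨s, -, rfl⟩ := ha
      have h1s := h1 s
      have h2s := h2 s
      cases hb : b s with
      | true =>
        rw [hb] at h1s h2s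
        simp only [if_true] at h2s ⊢
        exact ⟨((hport.1 _ _).2 ⟨_, h1s⟩).symm, h2s⟩
      | false =>
        rw [hb] at h1s h2s
        simp only [Bool.false_eq_true, if_false] at h2s ⊢
        exact ⟨h2s, ((hport.2.1 _ _).2 ⟨_, h1s⟩).symm⟩
    · refine card_image_le.trans ?_
      rw [card_univ, Fintype.card_coe]
      exact hd
    · intro Φ π φ
      constructor
      · intro h a ha
        rw [mem_image] at ha
        obtain ⟨s, -, rfl⟩ := ha
        have h3 := (nx_iff π (t (ju s)) (t (jv s)) (φ (ju s)) (φ (jv s)) s.1.2.1 (e s) (b s)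
          (h1 s) (h2 s)).1 (h s)
        split_ifs at h3 ⊢ <;> exact h3
      · intro h s
        rw [nx_iff π (t (ju s)) (t (jv s)) (φ (ju s)) (φ (jv s)) s.1.2.1 (e s) (b s)
          (h1 s) (h2 s)]
        have h3 := h _ (mem_image_of_mem _ (mem_univ s))
        split_ifs at h3 ⊢ <;> exact h3
  have hnot : ∀ t, ¬ Poss t → ∀ (Φ : Type) (π : E → Equiv.Perm Φ) (φ : Fin U.card → Φ),
      ¬ Nx Φ π t φ := by
    intro t ht Φ π φ h
    exact ht fun s => nx_type π _ _ _ _ _ (h s)
  -- the sum over the types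
  have hmain : Rep B n d (fun Φ _ π ψ => ∑ t : Fin U.card → V,
      (((n - U.card).factorial : ℝ) / (n.factorial : ℝ)) *
        ∑ φ : Fin U.card → Φ, ind ((∀ x y, t x = t y → φ x = φ y → x = y) ∧ Nx Φ π t φ)) := by
    apply Rep.sum
    intro t _
    apply Rep.smul
    by_cases ht : Poss t
    · obtain ⟨A, h1, h2, h3⟩ := harcs t ht
      refine (Rep.copy t A h1 h2 hUc).congr ?_
      intro Φ _ π ψ
      rw [sum_ind]
      unfold cp
      congr 2
      funext φ
      unfold IsCopy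
      rw [h3]
    · refine (Rep.zero B n d).congr ?_
      intro Φ _ π ψ
      exact Finset.sum_eq_zero fun φ _ => ind_false fun h => hnot t ht Φ π φ h.2
  refine hmain.congr ?_
  intro Φ _ π ψ
  -- the product as an indicator
  have h1 : ∀ ρ : Equiv.Perm (Fin n),
      ∏ s ∈ S, lbit (Ll B port π (ψ.trans ρ.toEmbedding)) s =
        ∑ θ : Fin U.card → V × Φ, ind (Nx Φ π (fun j => (θ j).1) (fun j => (θ j).2) ∧
          ∀ j, ρ (ψ (θ j)) = ix j) := by
    intro ρ
    unfold lbit
    rw [prod_ind S (fun s => Ll B port π (ψ.trans ρ.toEmbedding) s.1 s.2.1 = some s.2.2)]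
    by_cases hC : ∀ s ∈ S, Ll B port π (ψ.trans ρ.toEmbedding) s.1 s.2.1 = some s.2.2
    · rw [ind_true hC]
      have hC' : ∀ s : {s // s ∈ S}, ∃ a b, ρ (ψ a) = s.1.1 ∧ ρ (ψ b) = s.1.2.2 ∧
          nx B port π a s.1.2.1 = some b := fun s => (Ll_iff B port π _ _ _ _).1 (hC s.1 s.2)
      have hθ : ∀ j : Fin U.card, ∃ a, ρ (ψ a) = ix j := by
        intro j
        obtain ⟨s, hs⟩ := hix' j
        obtain ⟨a, b, h2, h3, -⟩ := hC' s
        rcases hs with rfl | rfl
        · exact ⟨a, by rw [h2, hju]⟩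
        · exact ⟨b, by rw [h3, hjv]⟩
      choose θ hθ using hθ
      rw [Finset.sum_eq_single θ]
      · refine (ind_true ⟨?_, hθ⟩).symm
        intro s
        obtain ⟨a, b, h2, h3, h4⟩ := hC' s
        have h5 : a = θ (ju s) := ψ.injective (ρ.injective (by rw [h2, hθ, hju]))
        have h6 : b = θ (jv s) := ψ.injective (ρ.injective (by rw [h3, hθ, hjv]))
        rw [h5, h6] at h4
        exact h4
      · intro θ' _ hne
        refine ind_false fun h => hne ?_
        funext j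
        exact ψ.injective (ρ.injective (by rw [h.2, hθ]))
      · intro h
        exact absurd (mem_univ _) h
    · rw [ind_false hC]
      symm
      refine Finset.sum_eq_zero fun θ _ => ind_false fun h => hC ?_
      intro s hs
      rw [Ll_iff]
      refine ⟨θ (ju ⟨s, hs⟩), θ (jv ⟨s, hs⟩), ?_, ?_, h.1 ⟨s, hs⟩⟩
      · exact (h.2 _).trans (hju ⟨s, hs⟩)
      · exact (h.2 _).trans (hjv ⟨s, hs⟩)
  -- the number of numberings
  have h2 : ∀ θ : Fin U.card → V × Φ,
      ∑ ρ : Equiv.Perm (Fin n), ind (Nx Φ π (fun j => (θ j).1) (fun j => (θ j).2) ∧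
          ∀ j, ρ (ψ (θ j)) = ix j) =
        ((n - U.card).factorial : ℝ) * ind ((∀ x y, (θ x).1 = (θ y).1 → (θ x).2 = (θ y).2 →
          x = y) ∧ Nx Φ π (fun j => (θ j).1) (fun j => (θ j).2)) := by
    intro θ
    by_cases hN : Nx Φ π (fun j => (θ j).1) (fun j => (θ j).2)
    · by_cases hinj : Function.Injective θ
      · rw [ind_true (p := (∀ x y, (θ x).1 = (θ y).1 → (θ x).2 = (θ y).2 → x = y) ∧
          Nx Φ π (fun j => (θ j).1) (fun j => (θ j).2))
          ⟨fun x y h3 h4 => hinj (Prod.ext h3 h4), hN⟩, mul_one]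
        have h3 := hP (Fin n) (Fin U.card) (fun j => ψ (θ j)) ix (ψ.injective.comp hinj) hix
        rw [Fintype.card_fin, Fintype.card_fin] at h3
        rw [← h3, ← sum_ind]
        refine Finset.sum_congr rfl fun ρ _ => ind_congr ?_
        exact ⟨fun h => h.2, fun h => ⟨hN, h⟩⟩
      · rw [ind_false (p := (∀ x y, (θ x).1 = (θ y).1 → (θ x).2 = (θ y).2 → x = y) ∧
          Nx Φ π (fun j => (θ j).1) (fun j => (θ j).2)), mul_zero]
        · refine Finset.sum_eq_zero fun ρ _ => ind_false fun h => hinj ?_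
          intro x y hxy
          apply hix
          rw [← h.2, ← h.2, hxy]
        · intro h
          apply hinj
          intro x y hxy
          exact h.1 x y (by rw [hxy]) (by rw [hxy])
    · rw [ind_false (p := (∀ x y, (θ x).1 = (θ y).1 → (θ x).2 = (θ y).2 → x = y) ∧
          Nx Φ π (fun j => (θ j).1) (fun j => (θ j).2)) (fun h => hN h.2), mul_zero]
      exact Finset.sum_eq_zero fun ρ _ => ind_false fun h => hN h.1
  unfold avg
  simp only [h1]
  rw [Finset.sum_comm]
  simp only [h2]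
  rw [Fintype.card_perm, Fintype.card_fin, ← Finset.mul_sum]
  rw [← Finset.mul_sum]
  have h3 : ∑ θ : Fin U.card → V × Φ, ind ((∀ x y, (θ x).1 = (θ y).1 → (θ x).2 = (θ y).2 →
          x = y) ∧ Nx Φ π (fun j => (θ j).1) (fun j => (θ j).2)) =
      ∑ t : Fin U.card → V, ∑ φ : Fin U.card → Φ,
        ind ((∀ x y, t x = t y → φ x = φ y → x = y) ∧ Nx Φ π t φ) := by
    rw [← Finset.sum_product', Finset.univ_product_univ]
    refine Fintype.sum_equiv (Equiv.arrowProdEquivProdArrow _ _ _) _ _ ?_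
    intro θ
    rfl
  rw [h3]
  ring

end SymAux

open SymAux in
theorem stSym (h : StPerm) : StSym := by
  intro V E _ _ _ _ B D port hport n P
  classical
  have h1 : Rep B n P.totalDegree (fun Φ _ π ψ => ∑ m ∈ P.support, P.coeff m *
      avg fun ρ : Equiv.Perm (Fin n) =>
        ∏ s ∈ m.support, lbit (Ll B port π (ψ.trans ρ.toEmbedding)) s) := by
    apply Rep.sum
    intro m hm
    apply Rep.smul
    apply rep_prod h B D port hport n m.support
    refine le_trans ?_ (le_totalDegree hm)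
    rw [Finsupp.sum]
    calc m.support.card = ∑ _s ∈ m.support, 1 := by rw [Finset.sum_const, smul_eq_mul, mul_one]
      _ ≤ ∑ s ∈ m.support, m s := by
        refine Finset.sum_le_sum fun s hs => ?_
        exact Nat.one_le_iff_ne_zero.2 (Finsupp.mem_support_iff.1 hs)
  obtain ⟨r, c, Q, h2, h3⟩ := h1
  refine ⟨r, c, Q, h2, ?_⟩
  intro Φ _ π ψ
  rw [← h3]
  unfold avg
  have h4 : ∀ ρ : Equiv.Perm (Fin n), eval (lbit (Ll B port π (ψ.trans ρ.toEmbedding))) P =
      ∑ m ∈ P.support, P.coeff m *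
        ∏ s ∈ m.support, lbit (Ll B port π (ψ.trans ρ.toEmbedding)) s := by
    intro ρ
    rw [eval_eq]
    refine Finset.sum_congr rfl fun m _ => ?_
    congr 1
    refine Finset.prod_congr rfl fun s hs => ?_
    exact ind_sq _ (Finsupp.mem_support_iff.1 hs)
  simp only [h4]
  rw [Finset.sum_comm, Finset.sum_div]
  refine Finset.sum_congr rfl fun m _ => ?_
  rw [← Finset.mul_sum, mul_div_assoc]

end Pool.Agent.Lib.MP_cff830_lc.Deg
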