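import Pool.Agent.Lib.MP_cff830_lc.Deg.Stmts
import Pool.Agent.Lib.MP_cff830_lc.Deg.Perm

/-!
# Random lifts have no large independent sets
-/

set_option autoImplicit false

namespace Pool.Agent.Lib.MP_cff830_lc.Deg

open Finset Pool.Agent.Lib.MP_cff830_lc.AC0

theorem cnt_le_card {α : Type} [Fintype α] (P : α → Prop) (A : Finset α)
    (h : ∀ a, P a → a ∈ A) : cnt P ≤ A.card := by
  classical
  unfold cnt
  apply Finset.card_le_card
  intro a ha
  exact h a (by simpa using ha)

theorem desc_le (m t s : ℕ) (hs : s ≤ m) (ht : t ≤ m) :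
    (((m - t).descFactorial s : ℕ) : ℝ) * (m : ℝ) ^ s ≤
      ((m.descFactorial s : ℕ) : ℝ) * ((m : ℝ) - t) ^ s := by
  induction s with
  | zero => simp
  | succ s ih =>
    have ih' := ih (by omega)
    have hsm : (s : ℝ) + 1 ≤ m := by exact_mod_cast hs
    have htm : (t : ℝ) ≤ m := by exact_mod_cast ht
    have key : (((m - t - s : ℕ)) : ℝ) * m ≤ (((m - s : ℕ)) : ℝ) * ((m : ℝ) - t) := by
      rcases Nat.lt_or_ge (m - t) s with h | h
      · have h0 : m - t - s = 0 := by omega
        rw [h0, Nat.cast_zero, zero_mul]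
        exact mul_nonneg (Nat.cast_nonneg _) (by linarith)
      · rw [Nat.cast_sub h, Nat.cast_sub ht, Nat.cast_sub (by omega : s ≤ m)]
        have : (0 : ℝ) ≤ (s : ℝ) * t := by positivity
        nlinarith
    rw [Nat.descFactorial_succ, Nat.descFactorial_succ, pow_succ, pow_succ]
    push_cast
    calc (((m - t - s : ℕ)) : ℝ) * (((m - t).descFactorial s : ℕ) : ℝ) * ((m : ℝ) ^ s * m)
        = ((((m - t - s : ℕ)) : ℝ) * m) * ((((m - t).descFactorial s : ℕ) : ℝ) * (m : ℝ) ^ s) := by
          ring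
      _ ≤ ((((m - s : ℕ)) : ℝ) * ((m : ℝ) - t)) *
            (((m.descFactorial s : ℕ) : ℝ) * ((m : ℝ) - t) ^ s) := by
          apply mul_le_mul key ih' (by positivity)
          exact mul_nonneg (Nat.cast_nonneg _) (by linarith)
      _ = _ := by ring

theorem stDis : StDis := by
  intro m S T hm
  classical
  have hm' : (0 : ℝ) < m := by exact_mod_cast hm
  have hS : S.card ≤ m := by simpa using S.card_le_univ
  have hT : T.card ≤ m := by simpa using T.card_le_univ
  have h1 : cnt (fun σ : Equiv.Perm (Fin m) => ∀ p ∈ S, σ p ∉ T) ≤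
      (m - T.card).descFactorial S.card * (m - S.card).factorial := by
    refine (cnt_le_card _ ((univ : Finset ({x // x ∈ S} ↪ {x // x ∈ Tᶜ})).biUnion
      fun f => univ.filter fun σ : Equiv.Perm (Fin m) => ∀ u : {x // x ∈ S}, σ u = (f u).1)
      ?_).trans ?_
    · intro σ hσ
      rw [mem_biUnion]
      refine ⟨⟨fun u => ⟨σ u.1, by simpa using hσ u.1 u.2⟩, ?_⟩, mem_univ _, ?_⟩
      · intro a b hab
        have := congrArg Subtype.val hab
        exact Subtype.ext (σ.injective this)
      · rw [mem_filter]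
        exact ⟨mem_univ _, fun u => rfl⟩
    · refine (card_biUnion_le_card_mul _ _ (m - S.card).factorial ?_).trans ?_
      · intro f _
        have := stPerm (Fin m) {x // x ∈ S} (fun u => u.1) (fun u => (f u).1)
          Subtype.val_injective (fun a b hab => f.injective (Subtype.ext hab))
        rw [Fintype.card_fin, Fintype.card_coe] at this
        rw [← this]
        unfold cnt
        exact le_of_eq (by congr)
      · apply Nat.mul_le_mul_right
        rw [card_univ, Fintype.card_embedding_eq, Fintype.card_coe, Fintype.card_coe,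
          card_compl, Fintype.card_fin]
  have h2 := desc_le m T.card S.card hS hT
  have h3 : (1 : ℝ) - T.card / m ≤ Real.exp (-(T.card / m)) := Real.one_sub_le_exp_neg _
  have h4 : (0 : ℝ) ≤ 1 - (T.card : ℝ) / m := by
    have : (T.card : ℝ) / m ≤ 1 := by
      rw [div_le_one hm']
      exact_mod_cast hT
    linarith
  have h5 : (((m - T.card).descFactorial S.card : ℕ) : ℝ) ≤
      ((m.descFactorial S.card : ℕ) : ℝ) * (1 - (T.card : ℝ) / m) ^ S.card := by
    have h6 : ((m : ℝ) - T.card) ^ S.card =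
        (1 - (T.card : ℝ) / m) ^ S.card * (m : ℝ) ^ S.card := by
      rw [← mul_pow]
      congr 1
      field_simp
    rw [h6, ← mul_assoc] at h2
    exact le_of_mul_le_mul_right h2 (by positivity)
  calc (cnt (fun σ : Equiv.Perm (Fin m) => ∀ p ∈ S, σ p ∉ T) : ℝ)
      ≤ (((m - T.card).descFactorial S.card * (m - S.card).factorial : ℕ) : ℝ) := by
        exact_mod_cast h1
    _ = (((m - T.card).descFactorial S.card : ℕ) : ℝ) * (((m - S.card).factorial : ℕ) : ℝ) := by
        push_cast; ring
    _ ≤ (((m.descFactorial S.card : ℕ) : ℝ) * (1 - (T.card : ℝ) / m) ^ S.card) *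
          (((m - S.card).factorial : ℕ) : ℝ) := by
        apply mul_le_mul_of_nonneg_right h5 (Nat.cast_nonneg _)
    _ = (m.factorial : ℝ) * (1 - (T.card : ℝ) / m) ^ S.card := by
        rw [← Nat.factorial_mul_descFactorial hS]
        push_cast; ring
    _ ≤ (m.factorial : ℝ) * Real.exp (-(T.card / m)) ^ S.card := by
        apply mul_le_mul_of_nonneg_left _ (Nat.cast_nonneg _)
        exact pow_le_pow_left₀ h4 h3 _
    _ = _ := by
        rw [← Real.exp_nat_mul]
        congr 2
        ring

theorem stUnion (h1 : StW) (h2 : StDis) : StUnion := by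
  intro δ hδ
  obtain ⟨ε, hε, hW⟩ := h1 δ hδ
  refine ⟨ε, hε, ?_⟩
  intro V E _ _ _ _ B hB hV hI m hm
  classical
  have hm' : (0 : ℝ) < m := by exact_mod_cast hm
  set X := V × (Fin 1 × Unit × Fin m) with hX
  let Sv : Finset X → V → Finset (Fin m) := fun S v =>
    univ.filter fun x : Fin m => (v, ((0 : Fin 1), (), x)) ∈ S
  -- the size of the set
  have hcard : ∀ S : Finset X, ∑ v, (Sv S v).card = S.card := by
    intro S
    have e1 : S.card = (univ.filter fun q : V × Fin m => (q.1, ((0 : Fin 1), (), q.2)) ∈ S).card := by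
      refine (Finset.card_bij (fun q _ => (q.1, ((0 : Fin 1), (), q.2))) ?_ ?_ ?_).symm
      · intro q hq
        simpa using hq
      · rintro ⟨v, x⟩ _ ⟨v', x'⟩ _ h
        simpa using h
      · rintro ⟨v, i, u, x⟩ hq
        refine ⟨(v, x), ?_, ?_⟩
        · rw [Subsingleton.elim i 0] at hq
          simpa using hq
        · rw [Subsingleton.elim i 0]
    rw [e1, Finset.card_filter, Fintype.sum_prod_type]
    refine Finset.sum_congr rfl fun v _ => ?_
    rw [Finset.card_filter]
  -- one set
  have hone : ∀ S : Finset X, δ * (Fintype.card V * m) ≤ S.card →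
      (cnt (fun ω : Fin 1 × Unit × E → Equiv.Perm (Fin m) =>
        ∀ e p, ¬ ((B.src e, p) ∈ S ∧ (B.tgt e, blk (Equiv.refl Unit) ω e p) ∈ S)) : ℝ) ≤
      Fintype.card (Fin 1 × Unit × E → Equiv.Perm (Fin m)) *
        Real.exp (-(3 / 2 * (Fintype.card V * m))) := by
    intro S hS
    let A : E → Finset (Equiv.Perm (Fin m)) := fun e =>
      univ.filter fun σ => ∀ x ∈ Sv S (B.src e), σ x ∉ Sv S (B.tgt e)
    have hA : ∀ e, ((A e).card : ℝ) ≤ (m.factorial : ℝ) *
        Real.exp (-(((Sv S (B.src e)).card : ℝ) * (Sv S (B.tgt e)).card / m)) := by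
      intro e
      have := h2 m (Sv S (B.src e)) (Sv S (B.tgt e)) hm
      refine le_trans (le_of_eq ?_) this
      unfold cnt
      simp only [A]
      congr
    have hle : cnt (fun ω : Fin 1 × Unit × E → Equiv.Perm (Fin m) =>
        ∀ e p, ¬ ((B.src e, p) ∈ S ∧ (B.tgt e, blk (Equiv.refl Unit) ω e p) ∈ S)) ≤
        ∏ j : Fin 1 × Unit × E, (A j.2.2).card := by
      rw [← Fintype.card_piFinset]
      refine cnt_le_card _ _ ?_
      intro ω hω
      rw [Fintype.mem_piFinset]
      rintro ⟨i, u, e⟩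
      simp only [A, mem_filter, mem_univ, true_and]
      intro x hx hx'
      simp only [Sv, mem_filter, mem_univ, true_and] at hx hx'
      refine hω e (0, (), x) ⟨hx, ?_⟩
      have hi : i = 0 := Subsingleton.elim _ _
      subst hi
      exact hx'
    have hprod : ∏ j : Fin 1 × Unit × E, ((A j.2.2).card : ℝ) ≤
        ∏ j : Fin 1 × Unit × E, ((m.factorial : ℝ) *
          Real.exp (-(((Sv S (B.src j.2.2)).card : ℝ) * (Sv S (B.tgt j.2.2)).card / m))) := by
      apply Finset.prod_le_prod
      · intro j _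
        exact Nat.cast_nonneg _
      · intro j _
        exact hA j.2.2
    have hΩ : (Fintype.card (Fin 1 × Unit × E → Equiv.Perm (Fin m)) : ℝ) =
        ∏ _j : Fin 1 × Unit × E, (m.factorial : ℝ) := by
      rw [Fintype.card_fun, Fintype.card_perm, Fintype.card_fin, Finset.prod_const, card_univ]
      push_cast
      rfl
    have hsum : ∑ j : Fin 1 × Unit × E,
        (-(((Sv S (B.src j.2.2)).card : ℝ) * (Sv S (B.tgt j.2.2)).card / m)) ≤
        -(3 / 2 * (Fintype.card V * m)) := by
      have hw := hW V E B hB hI (fun v => ((Sv S v).card : ℝ) / m) (fun v => ⟨by positivity, by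
          rw [div_le_one hm']
          have : (Sv S v).card ≤ m := by simpa using (Sv S v).card_le_univ
          exact_mod_cast this⟩) (by
        rw [← Finset.sum_div, le_div_iff₀ hm']
        have h7 : (∑ v, ((Sv S v).card : ℝ)) = S.card := by
          exact_mod_cast hcard S
        rw [h7]
        linarith)
      rw [Fintype.sum_prod_type, Fin.sum_univ_one, Fintype.sum_prod_type, Fintype.sum_unique]
      rw [Finset.sum_neg_distrib, neg_le_neg_iff]
      have h8 : ∑ e, ((Sv S (B.src e)).card : ℝ) * (Sv S (B.tgt e)).card / m =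
          m * ∑ e, ((Sv S (B.src e)).card : ℝ) / m * (((Sv S (B.tgt e)).card : ℝ) / m) := by
        rw [Finset.mul_sum]
        refine Finset.sum_congr rfl fun e _ => ?_
        field_simp
      rw [h8]
      calc 3 / 2 * ((Fintype.card V : ℝ) * m) = m * (3 / 2 * (Fintype.card V : ℝ)) := by ring
        _ ≤ _ := mul_le_mul_of_nonneg_left hw hm'.le
    calc (cnt (fun ω : Fin 1 × Unit × E → Equiv.Perm (Fin m) =>
          ∀ e p, ¬ ((B.src e, p) ∈ S ∧ (B.tgt e, blk (Equiv.refl Unit) ω e p) ∈ S)) : ℝ)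
        ≤ ((∏ j : Fin 1 × Unit × E, (A j.2.2).card : ℕ) : ℝ) := by exact_mod_cast hle
      _ = ∏ j : Fin 1 × Unit × E, ((A j.2.2).card : ℝ) := by push_cast; rfl
      _ ≤ _ := hprod
      _ = (Fintype.card (Fin 1 × Unit × E → Equiv.Perm (Fin m)) : ℝ) *
            Real.exp (∑ j : Fin 1 × Unit × E,
        (-(((Sv S (B.src j.2.2)).card : ℝ) * (Sv S (B.tgt j.2.2)).card / m))) := by
          rw [hΩ, Real.exp_sum, ← Finset.prod_mul_distrib]
      _ ≤ _ := by
          apply mul_le_mul_of_nonneg_left _ (Nat.cast_nonneg _)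
          exact Real.exp_le_exp.mpr hsum
  -- union
  have hun : cnt (fun ω : Fin 1 × Unit × E → Equiv.Perm (Fin m) =>
        ∃ S : Finset X,
          (∀ e p, ¬ ((B.src e, p) ∈ S ∧ (B.tgt e, blk (Equiv.refl Unit) ω e p) ∈ S)) ∧
          δ * (Fintype.card V * m) ≤ S.card) ≤
      ∑ S ∈ univ.filter (fun S : Finset X => δ * (Fintype.card V * m) ≤ S.card),
        cnt (fun ω : Fin 1 × Unit × E → Equiv.Perm (Fin m) =>
          ∀ e p, ¬ ((B.src e, p) ∈ S ∧ (B.tgt e, blk (Equiv.refl Unit) ω e p) ∈ S)) := by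
    refine (cnt_le_card _ ((univ.filter (fun S : Finset X =>
      δ * (Fintype.card V * m) ≤ S.card)).biUnion fun S => univ.filter
        (fun ω : Fin 1 × Unit × E → Equiv.Perm (Fin m) =>
          ∀ e p, ¬ ((B.src e, p) ∈ S ∧ (B.tgt e, blk (Equiv.refl Unit) ω e p) ∈ S))) ?_).trans ?_
    · rintro ω ⟨S, hS1, hS2⟩
      rw [mem_biUnion]
      exact ⟨S, by simpa using hS2, by simpa using hS1⟩
    · refine card_biUnion_le.trans (le_of_eq ?_)
      refine Finset.sum_congr rfl fun S _ => ?_
      unfold cnt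
      congr
  have hXc : Fintype.card X = Fintype.card V * m := by
    simp [hX]
  have hh : (1 : ℝ) ≤ Fintype.card V := by exact_mod_cast hV
  have hfin : (2 : ℝ) ^ (Fintype.card V * m) * 2 ^ m *
      Real.exp (-(3 / 2 * (Fintype.card V * m))) ≤ 1 := by
    have hl : Real.log 2 ≤ 3 / 4 := by
      have := Real.log_two_lt_d9
      linarith
    have h2e : (2 : ℝ) ^ (Fintype.card V * m) * 2 ^ m =
        Real.exp (((Fintype.card V : ℝ) * m + m) * Real.log 2) := by
      rw [← pow_add]
      have : (2 : ℝ) = Real.exp (Real.log 2) := (Real.exp_log (by norm_num)).symm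
      conv_lhs => rw [this]
      rw [← Real.exp_nat_mul]
      push_cast
      rfl
    rw [h2e, ← Real.exp_add, Real.exp_le_one_iff]
    have h9 : ((Fintype.card V : ℝ) * m + m) * Real.log 2 ≤
        ((Fintype.card V : ℝ) * m + m) * (3 / 4) := by
      apply mul_le_mul_of_nonneg_left hl
      positivity
    have h10 : (m : ℝ) ≤ (Fintype.card V : ℝ) * m := by nlinarith
    linarith
  set M : ℝ := (Fintype.card (Fin 1 × Unit × E → Equiv.Perm (Fin m)) : ℝ) with hM
  have hM0 : 0 ≤ M := Nat.cast_nonneg _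
  calc (cnt (fun ω : Fin 1 × Unit × E → Equiv.Perm (Fin m) =>
        ∃ S : Finset X,
          (∀ e p, ¬ ((B.src e, p) ∈ S ∧ (B.tgt e, blk (Equiv.refl Unit) ω e p) ∈ S)) ∧
          δ * (Fintype.card V * m) ≤ S.card) : ℝ) * 2 ^ m
      ≤ (∑ S ∈ univ.filter (fun S : Finset X => δ * (Fintype.card V * m) ≤ S.card),
        (cnt (fun ω : Fin 1 × Unit × E → Equiv.Perm (Fin m) =>
          ∀ e p, ¬ ((B.src e, p) ∈ S ∧ (B.tgt e, blk (Equiv.refl Unit) ω e p) ∈ S)) : ℝ)) *
          2 ^ m := by
        apply mul_le_mul_of_nonneg_right _ (by positivity)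
        exact_mod_cast hun
    _ ≤ (∑ S ∈ univ.filter (fun S : Finset X => δ * (Fintype.card V * m) ≤ S.card),
        M * Real.exp (-(3 / 2 * (Fintype.card V * m)))) * 2 ^ m := by
        apply mul_le_mul_of_nonneg_right _ (by positivity)
        refine Finset.sum_le_sum fun S hS => hone S ?_
        simpa using hS
    _ ≤ (∑ S : Finset X, M * Real.exp (-(3 / 2 * (Fintype.card V * m)))) * 2 ^ m := by
        apply mul_le_mul_of_nonneg_right _ (by positivity)
        refine Finset.sum_le_sum_of_subset_of_nonneg (filter_subset _ _) fun _ _ _ => ?_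
        positivity
    _ = M * ((2 : ℝ) ^ (Fintype.card V * m) * 2 ^ m *
      Real.exp (-(3 / 2 * (Fintype.card V * m)))) := by
        rw [Finset.sum_const, card_univ, Fintype.card_finset, hXc, nsmul_eq_mul]
        push_cast
        ring
    _ ≤ M * 1 := mul_le_mul_of_nonneg_left hfin hM0
    _ = M := mul_one _

end Pool.Agent.Lib.MP_cff830_lc.Deg
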