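import Pool.Agent.Lib.MP_cff830_lc.Deg.Loc
import Pool.Agent.Lib.MP_cff830_lc.AC0.U1

/-!
# The upper bound for weighted vertex cover
-/

namespace Pool.Agent.Lib.MP_cff830_lc.Deg

open Finset Pool.Agent.Lib.MP_cff830_lc.AC0 MvPolynomial

/-- the least weight of a vertex cover -/
noncomputable def opt {n : ℕ} (G : SimpleGraph (Fin n)) (w : Fin n → ℝ) : ℝ :=
  sInf {x | ∃ C : Finset (Fin n), IsVC G C ∧ ∑ v ∈ C, w v = x}

theorem opt_finite {n : ℕ} (G : SimpleGraph (Fin n)) (w : Fin n → ℝ) :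
    Set.Finite {x | ∃ C : Finset (Fin n), IsVC G C ∧ ∑ v ∈ C, w v = x} := by
  refine Set.Finite.subset (Set.finite_range fun C : Finset (Fin n) => ∑ v ∈ C, w v) ?_
  rintro x ⟨C, -, rfl⟩
  exact ⟨C, rfl⟩

theorem opt_spec {n : ℕ} (G : SimpleGraph (Fin n)) (w : Fin n → ℝ) :
    ∃ C : Finset (Fin n), IsVC G C ∧ ∑ v ∈ C, w v = opt G w := by
  have h1 : {x | ∃ C : Finset (Fin n), IsVC G C ∧ ∑ v ∈ C, w v = x}.Nonempty :=
    ⟨_, Finset.univ, fun u v _ => Or.inl (Finset.mem_univ u), rfl⟩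
  exact h1.csInf_mem (opt_finite G w)

theorem opt_le {n : ℕ} (G : SimpleGraph (Fin n)) (w : Fin n → ℝ) (C : Finset (Fin n))
    (hC : IsVC G C) : opt G w ≤ ∑ v ∈ C, w v :=
  csInf_le (opt_finite G w).bddBelow ⟨C, hC, rfl⟩

theorem opt_one {n : ℕ} (G : SimpleGraph (Fin n)) : opt G (fun _ => 1) = vc G := by
  apply le_antisymm
  · obtain ⟨C, hC, hc⟩ := vc_spec G
    have := opt_le G (fun _ => 1) C hC
    rw [← hc]
    simpa using this
  · obtain ⟨C, hC, hc⟩ := opt_spec G (fun _ => 1)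
    rw [← hc]
    have : vc G ≤ C.card := Nat.sInf_le ⟨C, hC, rfl⟩
    simpa using (by exact_mod_cast this : (vc G : ℝ) ≤ C.card)

namespace UW

open scoped Classical in
/-- the weighted packing after `i` rounds -/
noncomputable def ep {n : ℕ} (q : ℝ) (Δ : ℕ) (w : Fin n → ℝ) (G : SimpleGraph (Fin n)) :
    ℕ → Fin n → Fin n → ℝ
  | 0 => fun u x => if G.Adj u x then min (w u) (w x) / (Δ : ℝ) else 0
  | i + 1 => fun u x =>
      if q * (∑ y, ep q Δ w G i u y) ≤ w u ∧ q * (∑ y, ep q Δ w G i x y) ≤ w x then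
        q * ep q Δ w G i u x else ep q Δ w G i u x

section

variable {n : ℕ} {q : ℝ} {Δ : ℕ} {w : Fin n → ℝ} {G : SimpleGraph (Fin n)}

theorem ep_symm (i : ℕ) : ∀ u x, ep q Δ w G i u x = ep q Δ w G i x u := by
  induction i with
  | zero =>
    intro u x
    simp only [ep]
    by_cases h : G.Adj u x
    · rw [if_pos h, if_pos h.symm, min_comm]
    · rw [if_neg h, if_neg (fun h' => h h'.symm)]
  | succ i ih =>
    intro u x
    simp only [ep]
    rw [ih u x]
    by_cases h : q * (∑ y, ep q Δ w G i u y) ≤ w u ∧ q * (∑ y, ep q Δ w G i x y) ≤ w x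
    · rw [if_pos h, if_pos h.symm]
    · rw [if_neg h, if_neg (fun h' => h h'.symm)]

theorem ep_nonneg (hw : ∀ v, 0 ≤ w v) (hq : 0 ≤ q) (i : ℕ) : ∀ u x, 0 ≤ ep q Δ w G i u x := by
  induction i with
  | zero =>
    intro u x
    simp only [ep]
    split_ifs
    · exact div_nonneg (le_min (hw u) (hw x)) (Nat.cast_nonneg _)
    · exact le_refl _
  | succ i ih =>
    intro u x
    simp only [ep]
    split_ifs
    · exact mul_nonneg hq (ih _ _)
    · exact ih _ _

theorem ep_zero (i : ℕ) : ∀ u x, ¬ G.Adj u x → ep q Δ w G i u x = 0 := by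
  induction i with
  | zero =>
    intro u x h
    simp [ep, h]
  | succ i ih =>
    intro u x h
    simp only [ep]
    rw [ih u x h]
    simp

theorem ep_mono (hw : ∀ v, 0 ≤ w v) (hq : 1 ≤ q) (i : ℕ) (u x : Fin n) :
    ep q Δ w G i u x ≤ ep q Δ w G (i + 1) u x := by
  have h0 := ep_nonneg (Δ := Δ) (G := G) hw (by linarith : 0 ≤ q) i u x
  simp only [ep]
  split_ifs
  · nlinarith
  · exact le_refl _

/-- the load of a vertex -/
noncomputable def ld {n : ℕ} (q : ℝ) (Δ : ℕ) (w : Fin n → ℝ) (G : SimpleGraph (Fin n)) (i : ℕ)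
    (u : Fin n) : ℝ := ∑ x, ep q Δ w G i u x

theorem ld_nonneg (hw : ∀ v, 0 ≤ w v) (hq : 0 ≤ q) (i : ℕ) (u : Fin n) :
    0 ≤ ld q Δ w G i u := Finset.sum_nonneg fun x _ => ep_nonneg hw hq i u x

theorem ld_mono (hw : ∀ v, 0 ≤ w v) (hq : 1 ≤ q) (u : Fin n) :
    Monotone fun i => ld q Δ w G i u :=
  monotone_nat_of_le_succ fun i => Finset.sum_le_sum fun x _ => ep_mono hw hq i u x

theorem ld_le (hw : ∀ v, 0 ≤ w v) (hq : 1 ≤ q) (hΔ : ∀ v, cnt (fun w => G.Adj v w) ≤ Δ)
    (i : ℕ) : ∀ u, ld q Δ w G i u ≤ w u := by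
  induction i with
  | zero =>
    intro u
    have h1 : ld q Δ w G 0 u ≤ (cnt (fun w => G.Adj u w) : ℝ) * (w u / (Δ : ℝ)) := by
      unfold ld cnt
      simp only [ep]
      rw [← Finset.sum_filter]
      refine le_trans (Finset.sum_le_card_nsmul _ _ (w u / (Δ : ℝ)) ?_) ?_
      · intro x _
        exact div_le_div_of_nonneg_right (min_le_left _ _) (Nat.cast_nonneg _)
      · rw [nsmul_eq_mul]
    refine le_trans h1 ?_
    have h2 : (cnt (fun w => G.Adj u w) : ℝ) ≤ Δ := by exact_mod_cast hΔ u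
    rcases Nat.eq_zero_or_pos Δ with h | h
    · subst h; simp [hw u]
    · have h3 : (0 : ℝ) < Δ := by exact_mod_cast h
      calc (cnt (fun w => G.Adj u w) : ℝ) * (w u / (Δ : ℝ)) ≤ Δ * (w u / (Δ : ℝ)) :=
            mul_le_mul_of_nonneg_right h2 (div_nonneg (hw u) h3.le)
        _ = w u := by field_simp
  | succ i ih =>
    intro u
    by_cases h : q * ld q Δ w G i u ≤ w u
    · refine le_trans ?_ h
      unfold ld
      rw [Finset.mul_sum]
      refine Finset.sum_le_sum fun x _ => ?_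
      have h0 := ep_nonneg (Δ := Δ) (G := G) hw (by linarith : 0 ≤ q) i u x
      simp only [ep]
      split_ifs
      · exact le_refl _
      · nlinarith
    · have : ld q Δ w G (i + 1) u = ld q Δ w G i u := by
        unfold ld
        refine Finset.sum_congr rfl fun x _ => ?_
        simp only [ep]
        rw [if_neg]
        intro h'
        exact h h'.1
      rw [this]
      exact ih u

theorem ep_grow (hw : ∀ v, 0 ≤ w v) (hq : 1 ≤ q) (u x : Fin n) (hux : G.Adj u x) (T : ℕ)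
    (hu : q * ld q Δ w G T u ≤ w u) (hx : q * ld q Δ w G T x ≤ w x) :
    ∀ i ≤ T, ep q Δ w G i u x = q ^ i * (min (w u) (w x) / (Δ : ℝ)) := by
  intro i
  induction i with
  | zero => intro _; simp [ep, hux]
  | succ i ih =>
    intro hi
    have h1 := ih (by omega)
    have hu' : q * ld q Δ w G i u ≤ w u :=
      le_trans (mul_le_mul_of_nonneg_left (ld_mono hw hq u (by omega : i ≤ T)) (by linarith)) hu
    have hx' : q * ld q Δ w G i x ≤ w x :=
      le_trans (mul_le_mul_of_nonneg_left (ld_mono hw hq x (by omega : i ≤ T)) (by linarith)) hx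
    unfold ld at hu' hx'
    simp only [ep]
    rw [if_pos ⟨hu', hx'⟩, h1]
    ring

theorem ep_cover (hw : ∀ v, 0 ≤ w v) (hq : 1 < q) (hΔ : ∀ v, cnt (fun w => G.Adj v w) ≤ Δ)
    (T : ℕ) (hT : (Δ : ℝ) < q ^ T) (u x : Fin n) (hux : G.Adj u x) :
    w u ≤ q * ld q Δ w G T u ∨ w x ≤ q * ld q Δ w G T x := by
  by_contra hcon
  push Not at hcon
  have h1 := ep_grow hw hq.le u x hux T hcon.1.le hcon.2.le T le_rfl
  have h0 : (0 : ℝ) ≤ q := by linarith
  have h2 : ep q Δ w G T u x ≤ ld q Δ w G T u :=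
    Finset.single_le_sum (f := fun y => ep q Δ w G T u y)
      (fun y _ => ep_nonneg hw h0 T u y) (Finset.mem_univ x)
  have h2' : ep q Δ w G T u x ≤ ld q Δ w G T x := by
    rw [ep_symm]
    exact Finset.single_le_sum (f := fun y => ep q Δ w G T x y)
      (fun y _ => ep_nonneg hw h0 T x y) (Finset.mem_univ u)
  have h3 := ld_le hw hq.le hΔ T u
  have h3' := ld_le hw hq.le hΔ T x
  have h5 : ep q Δ w G T u x ≤ min (w u) (w x) := le_min (h2.trans h3) (h2'.trans h3')
  have hu0 : 0 < w u := by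
    have := mul_nonneg h0 (ld_nonneg (Δ := Δ) (G := G) hw h0 T u)
    linarith
  have hx0 : 0 < w x := by
    have := mul_nonneg h0 (ld_nonneg (Δ := Δ) (G := G) hw h0 T x)
    linarith
  have hm0 : 0 < min (w u) (w x) := lt_min hu0 hx0
  have hpos : 0 < Δ := by
    have h4 : 0 < cnt (fun w => G.Adj u w) := by
      unfold cnt
      exact Finset.card_pos.2 ⟨x, by simp [hux]⟩
    exact lt_of_lt_of_le h4 (hΔ u)
  have hposr : (0 : ℝ) < Δ := by exact_mod_cast hpos
  have h6 : min (w u) (w x) < q ^ T * (min (w u) (w x) / (Δ : ℝ)) := by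
    rw [← mul_div_assoc, lt_div_iff₀ hposr, mul_comm]
    exact mul_lt_mul_of_pos_right hT hm0
  rw [h1] at h5
  linarith

theorem ep_weight (hw : ∀ v, 0 ≤ w v) (hq : 1 ≤ q) (hΔ : ∀ v, cnt (fun w => G.Adj v w) ≤ Δ)
    (T : ℕ) (K : Finset (Fin n)) (hK : IsVC G K) :
    ∑ v, ld q Δ w G T v ≤ 2 * ∑ v ∈ K, w v := by
  have h0 : 0 ≤ q := by linarith
  have h1 : ∀ v, ld q Δ w G T v ≤ ∑ x, ((if v ∈ K then ep q Δ w G T v x else 0) +
      (if x ∈ K then ep q Δ w G T x v else 0)) := by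
    intro v
    unfold ld
    refine Finset.sum_le_sum fun x _ => ?_
    have hn := ep_nonneg (Δ := Δ) (G := G) hw h0 T v x
    have hn' := ep_nonneg (Δ := Δ) (G := G) hw h0 T x v
    by_cases hvx : G.Adj v x
    · rcases hK v x hvx with h | h
      · rw [if_pos h]
        split_ifs <;> linarith
      · rw [if_pos h, ep_symm T x v]
        split_ifs <;> linarith
    · rw [ep_zero T v x hvx]
      split_ifs <;> simp [ep_nonneg hw h0]
  calc ∑ v, ld q Δ w G T v ≤ ∑ v, ∑ x, ((if v ∈ K then ep q Δ w G T v x else 0) +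
      (if x ∈ K then ep q Δ w G T x v else 0)) := Finset.sum_le_sum fun v _ => h1 v
    _ = (∑ v, ∑ x, (if v ∈ K then ep q Δ w G T v x else 0)) +
        ∑ v, ∑ x, (if x ∈ K then ep q Δ w G T x v else 0) := by
      simp only [Finset.sum_add_distrib]
    _ = (∑ v, ∑ x, (if v ∈ K then ep q Δ w G T v x else 0)) +
        ∑ x, ∑ v, (if x ∈ K then ep q Δ w G T x v else 0) := by
      rw [Finset.sum_comm (f := fun v x => if x ∈ K then ep q Δ w G T x v else 0)]
    _ = 2 * ∑ v, (if v ∈ K then ld q Δ w G T v else 0) := by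
      have : ∀ v, ∑ x, (if v ∈ K then ep q Δ w G T v x else 0) =
          if v ∈ K then ld q Δ w G T v else 0 := by
        intro v
        split_ifs
        · rfl
        · simp
      simp only [this]
      ring
    _ = 2 * ∑ v ∈ K, ld q Δ w G T v := by
      rw [← Finset.sum_filter]
      congr 2
      ext v
      simp
    _ ≤ 2 * ∑ v ∈ K, w v := by
      gcongr with v _
      exact ld_le hw hq hΔ T v

theorem ep_local {H : SimpleGraph (Fin n)} (i : ℕ) : ∀ v,
    (∀ x ∈ ball G v i, ∀ y, G.Adj x y ↔ H.Adj x y) →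
      ∀ x, ep q Δ w G i v x = ep q Δ w H i v x := by
  induction i with
  | zero =>
    intro v hv x
    have := hv v rfl x
    simp only [ep]
    by_cases h : G.Adj v x
    · rw [if_pos h, if_pos (this.1 h)]
    · rw [if_neg h, if_neg (fun h' => h (this.2 h'))]
  | succ i ih =>
    intro v hv x
    have hvi : ∀ x, ep q Δ w G i v x = ep q Δ w H i v x :=
      ih v (fun x hx y => hv x (Or.inl hx) y)
    by_cases h : G.Adj v x
    · have hxi : ∀ z, ep q Δ w G i x z = ep q Δ w H i x z :=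
        ih x (fun y hy z => hv y (ball_sub h i hy) z)
      simp only [ep]
      simp only [hvi, hxi]
    · have h' : ¬ H.Adj v x := fun h' => h ((hv v (mem_ball_self G v _) x).2 h')
      rw [ep_zero _ _ _ h, ep_zero _ _ _ h']

end

end UW

/-- a local rule for weighted vertex cover for ratios above 2 -/
theorem weighted_rule (c : ℝ) (hc : 2 < c) (Δ : ℕ) : ∃ T : ℕ, ∀ (n : ℕ) (w : Fin n → ℝ),
    (∀ v, 0 ≤ w v) → ∃ P : SimpleGraph (Fin n) → Fin n → Prop,
    Local T P ∧ ∀ G : SimpleGraph (Fin n), (∀ v, cnt (fun w => G.Adj v w) ≤ Δ) →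
      ∃ C : Finset (Fin n), IsVC G C ∧ (∀ v, v ∈ C ↔ P G v) ∧
        ∑ v ∈ C, w v ≤ c * opt G w := by
  have hq : 1 < c / 2 := by linarith
  obtain ⟨T, hT⟩ := pow_unbounded_of_one_lt (Δ : ℝ) hq
  refine ⟨T, fun n w hw => ⟨fun G v => w v ≤ c / 2 * UW.ld (c / 2) Δ w G T v, ?_, ?_⟩⟩
  · intro G H v h
    have : UW.ld (c / 2) Δ w G T v = UW.ld (c / 2) Δ w H T v := by
      unfold UW.ld
      exact Finset.sum_congr rfl fun x _ => UW.ep_local T v h x
    simp only [this]
  · intro G hG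
    classical
    refine ⟨Finset.univ.filter fun v => w v ≤ c / 2 * UW.ld (c / 2) Δ w G T v, ?_, ?_, ?_⟩
    · intro u x hux
      simpa using UW.ep_cover hw hq hG T hT u x hux
    · intro v; simp
    · obtain ⟨K, hK, hKc⟩ := opt_spec G w
      have h1 := UW.ep_weight hw hq.le hG T K hK
      have h2 : ∀ v, 0 ≤ UW.ld (c / 2) Δ w G T v := fun v => UW.ld_nonneg hw (by linarith) T v
      rw [← hKc]
      calc ∑ v ∈ Finset.univ.filter (fun v => w v ≤ c / 2 * UW.ld (c / 2) Δ w G T v), w v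
          ≤ ∑ v ∈ Finset.univ.filter (fun v => w v ≤ c / 2 * UW.ld (c / 2) Δ w G T v),
            c / 2 * UW.ld (c / 2) Δ w G T v :=
              Finset.sum_le_sum fun v hv => (Finset.mem_filter.1 hv).2
        _ ≤ ∑ v, c / 2 * UW.ld (c / 2) Δ w G T v := by
          refine Finset.sum_le_sum_of_subset_of_nonneg (Finset.filter_subset _ _) ?_
          intro v _ _
          exact mul_nonneg (by linarith) (h2 v)
        _ = c / 2 * ∑ v, UW.ld (c / 2) Δ w G T v := by rw [Finset.mul_sum]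
        _ ≤ c / 2 * (2 * ∑ v ∈ K, w v) := by gcongr
        _ = c * ∑ v ∈ K, w v := by ring

open LocAux in
/-- local rules are polynomials of bounded degree, vertex by vertex -/
theorem locW (T D : ℕ) : ∃ K : ℕ, ∀ (n : ℕ) (P : SimpleGraph (Fin n) → Fin n → Prop),
    Local T P → ∀ w : Fin n → ℝ,
    ∃ F : MvPolynomial (Fin n × Fin n) ℝ, F.totalDegree ≤ K ∧
    ∀ G : SimpleGraph (Fin n), (∀ v, cnt (fun w => G.Adj v w) ≤ D) →
      eval (abit G) F = ∑ v, w v * ind (P G v) := by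
  classical
  refine ⟨(D + 1) ^ T * D + (D + 1) ^ T * D, fun n P hP w => ?_⟩
  set K := (D + 1) ^ T * D + (D + 1) ^ T * D with hK
  let h : Fin n → Finset (Fin n × Fin n) → ℝ := fun v S => ind (P (gr S) v)
  let F : MvPolynomial (Fin n × Fin n) ℝ := ∑ v, ∑ S ∈ univ.filter (fun S => S.card ≤ K),
    C (w v * mo (h v) S) * ∏ p ∈ S, X p
  refine ⟨F, ?_, ?_⟩
  · refine totalDegree_finsetSum_le fun v _ => totalDegree_finsetSum_le fun S hS => ?_
    refine (totalDegree_mul _ _).trans ?_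
    rw [totalDegree_C, zero_add]
    refine (totalDegree_finsetProd _ _).trans ?_
    refine (Finset.sum_le_card_nsmul S _ 1 fun p _ => ?_).trans ?_
    · exact (totalDegree_X p).le
    · simpa using (Finset.mem_filter.1 hS).2
  · intro G hG
    simp only [F, map_sum, map_mul, eval_C, eval_prod]
    refine Finset.sum_congr rfl fun v _ => ?_
    have h1 := mo_sum (h v) (ed G)
    have h2 : h v (ed G) = ind (P G v) := by
      simp only [h, gr_ed]
    rw [← h2, ← h1, Finset.mul_sum]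
    have h3 : ∑ S ∈ univ.filter (fun S : Finset (Fin n × Fin n) => S.card ≤ K),
        w v * mo (h v) S * (if S ⊆ ed G then 1 else 0) =
        ∑ S ∈ univ.filter (fun S : Finset (Fin n × Fin n) => S.card ≤ K ∧ S ⊆ ed G),
          w v * mo (h v) S := by
      simp only [mul_ite, mul_one, mul_zero]
      rw [← Finset.sum_filter, Finset.filter_filter]
    rw [h3]
    apply Finset.sum_subset
    · intro S hS
      exact Finset.mem_powerset.2 (Finset.mem_filter.1 hS).2.2
    · intro S hS hn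
      by_contra hne
      apply hn
      have hsub := Finset.mem_powerset.1 hS
      have := card_le (T := T) hG v S hsub (touch hP v S fun h0 => hne (by rw [h0, mul_zero]))
      simp [hsub, hK, this]

/-- The upper bound: above the ratio 2 bounded degree suffices, for all weights. -/
theorem upper_weighted (c : ℝ) (hc : 2 < c) (D : ℕ) : ∃ K : ℕ, ∀ (n : ℕ) (w : Fin n → ℝ),
    (∀ v, 0 ≤ w v) → ∃ P : MvPolynomial (Fin n × Fin n) ℝ,
    P.totalDegree ≤ K ∧ ∀ G : SimpleGraph (Fin n), (∀ v, cnt (fun w => G.Adj v w) ≤ D) →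
      opt G w ≤ eval (abit G) P ∧ eval (abit G) P ≤ c * opt G w := by
  classical
  obtain ⟨T, hT⟩ := weighted_rule c hc D
  obtain ⟨K, hK⟩ := locW T D
  refine ⟨K, fun n w hw => ?_⟩
  obtain ⟨P, hP, hG⟩ := hT n w hw
  obtain ⟨F, hF, hFe⟩ := hK n P hP w
  refine ⟨F, hF, fun G hGd => ?_⟩
  obtain ⟨S, hS, hSP, hSc⟩ := hG G hGd
  have h1 : eval (abit G) F = ∑ v ∈ S, w v := by
    rw [hFe G hGd]
    have : ∀ v, w v * ind (P G v) = if v ∈ S then w v else 0 := by
      intro v
      unfold ind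
      simp only [hSP]
      split_ifs <;> simp
    simp only [this]
    simp
  rw [h1]
  exact ⟨opt_le G w S hS, hSc⟩

end Pool.Agent.Lib.MP_cff830_lc.Deg
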