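import Pool.Agent.Lib.MP_cff830_lc.Deg.Stmts

set_option autoImplicit false

/-! D7. Fractional edge density of graphs without large independent sets. -/

namespace Pool.Agent.Lib.MP_cff830_lc.Deg

open Finset Pool.Agent.Lib.MP_cff830_lc.AC0

namespace WAux

variable {V E : Type} [Fintype V] [DecidableEq V] [Fintype E] [DecidableEq E]

/-- the edges inside `S` -/
def eS (B : Base V E) (S : Finset V) : Finset E :=
  univ.filter fun e => B.src e ∈ S ∧ B.tgt e ∈ S

/-- independent sets -/
def Ind (B : Base V E) (I : Finset V) : Prop := ∀ e, ¬ (B.src e ∈ I ∧ B.tgt e ∈ I)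

omit [Fintype V] in
theorem peel (B : Base V E) (hB : ∀ e, B.src e ≠ B.tgt e) (S : Finset V) :
    ∃ I ⊆ S, Ind B I ∧ (eS B (S \ I)).card + (S \ I).card ≤ (eS B S).card := by
  classical
  obtain ⟨I, hI, hmax⟩ := Finset.exists_max_image (S.powerset.filter fun I => Ind B I) Finset.card
    ⟨∅, by
      rw [Finset.mem_filter, Finset.mem_powerset]
      exact ⟨Finset.empty_subset _, fun e h => by simp at h⟩⟩
  rw [Finset.mem_filter, Finset.mem_powerset] at hI
  obtain ⟨hIS, hInd⟩ := hI
  have hex : ∀ v, v ∈ S → v ∉ I →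
      ∃ e, (B.src e = v ∧ B.tgt e ∈ I) ∨ (B.tgt e = v ∧ B.src e ∈ I) := by
    intro v hv hvI
    by_contra hno
    push Not at hno
    have h1 : Ind B (insert v I) := by
      rintro e ⟨h2, h3⟩
      rw [Finset.mem_insert] at h2 h3
      rcases h2 with h2 | h2 <;> rcases h3 with h3 | h3
      · exact hB e (h2.trans h3.symm)
      · exact (hno e).1 h2 h3
      · exact (hno e).2 h3 h2
      · exact hInd e ⟨h2, h3⟩
    have h2 := hmax (insert v I) (by
      rw [Finset.mem_filter, Finset.mem_powerset]
      exact ⟨Finset.insert_subset hv hIS, h1⟩)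
    rw [Finset.card_insert_of_notMem hvI] at h2
    omega
  refine ⟨I, hIS, hInd, ?_⟩
  have hex' : ∀ v : V, ∃ e : Option E, v ∈ S → v ∉ I → ∃ e', e = some e' ∧
      ((B.src e' = v ∧ B.tgt e' ∈ I) ∨ (B.tgt e' = v ∧ B.src e' ∈ I)) := by
    intro v
    by_cases hv : v ∈ S ∧ v ∉ I
    · obtain ⟨e, he⟩ := hex v hv.1 hv.2
      exact ⟨some e, fun _ _ => ⟨e, rfl, he⟩⟩
    · exact ⟨none, fun h1 h2 => absurd ⟨h1, h2⟩ hv⟩
  choose f hf using hex'
  have hinj : Set.InjOn f ((S \ I : Finset V) : Set V) := by
    intro v hv w hw hvw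
    rw [Finset.mem_coe, Finset.mem_sdiff] at hv hw
    obtain ⟨e, he, h1⟩ := hf v hv.1 hv.2
    obtain ⟨e', he', h2⟩ := hf w hw.1 hw.2
    have hee : e = e' := by
      rw [hvw, he'] at he
      exact (Option.some.inj he).symm
    subst hee
    rcases h1 with ⟨h1, h3⟩ | ⟨h1, h3⟩ <;> rcases h2 with ⟨h2, h4⟩ | ⟨h2, h4⟩
    · exact h1.symm.trans h2
    · rw [h1] at h4; exact absurd h4 hv.2
    · rw [h1] at h4; exact absurd h4 hv.2
    · exact h1.symm.trans h2
  have hsub : ((eS B (S \ I)).map ⟨some, Option.some_injective E⟩) ∪ (S \ I).image f ⊆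
      (eS B S).map ⟨some, Option.some_injective E⟩ := by
    intro x hx
    rw [Finset.mem_union] at hx
    rw [Finset.mem_map]
    rcases hx with hx | hx
    · rw [Finset.mem_map] at hx
      obtain ⟨e, he, rfl⟩ := hx
      refine ⟨e, ?_, rfl⟩
      unfold eS at he ⊢
      rw [Finset.mem_filter] at he ⊢
      exact ⟨Finset.mem_univ _, (Finset.mem_sdiff.1 he.2.1).1, (Finset.mem_sdiff.1 he.2.2).1⟩
    · rw [Finset.mem_image] at hx
      obtain ⟨v, hv, rfl⟩ := hx
      rw [Finset.mem_sdiff] at hv
      obtain ⟨e, he, h1⟩ := hf v hv.1 hv.2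
      refine ⟨e, ?_, he.symm⟩
      unfold eS
      rw [Finset.mem_filter]
      refine ⟨Finset.mem_univ _, ?_⟩
      rcases h1 with ⟨h1, h3⟩ | ⟨h1, h3⟩
      · exact ⟨h1 ▸ hv.1, hIS h3⟩
      · exact ⟨hIS h3, h1 ▸ hv.1⟩
  have hdis : Disjoint ((eS B (S \ I)).map ⟨some, Option.some_injective E⟩)
      ((S \ I).image f) := by
    rw [Finset.disjoint_left]
    intro x hx hx'
    rw [Finset.mem_map] at hx
    rw [Finset.mem_image] at hx'
    obtain ⟨e, he, rfl⟩ := hx
    obtain ⟨v, hv, hve⟩ := hx'
    rw [Finset.mem_sdiff] at hv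
    obtain ⟨e', he', h1⟩ := hf v hv.1 hv.2
    have hee : e = e' := by
      rw [hve] at he'
      exact Option.some.inj he'
    subst hee
    unfold eS at he
    rw [Finset.mem_filter] at he
    rcases h1 with ⟨-, h3⟩ | ⟨-, h3⟩
    · exact (Finset.mem_sdiff.1 he.2.2).2 h3
    · exact (Finset.mem_sdiff.1 he.2.1).2 h3
  have h1 := Finset.card_le_card hsub
  rw [Finset.card_union_of_disjoint hdis, Finset.card_map, Finset.card_map,
    Finset.card_image_of_injOn hinj] at h1
  exact h1

theorem sets (B : Base V E) (hB : ∀ e, B.src e ≠ B.tgt e) (m : ℝ)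
    (h : ∀ I, Ind B I → (I.card : ℝ) ≤ m) (j : ℕ) : ∀ S : Finset V,
    (j : ℝ) * S.card - (j : ℝ) * (j + 1) / 2 * m ≤ ((eS B S).card : ℝ) := by
  induction j with
  | zero =>
    intro S
    simp
  | succ j ih =>
    intro S
    obtain ⟨I, hIS, hI, hc⟩ := peel B hB S
    have h1 := ih (S \ I)
    have h2 := h I hI
    have h3 : ((S \ I).card : ℝ) + I.card = S.card := by
      have := Finset.card_sdiff_add_card_eq_card hIS
      exact_mod_cast this
    have h4 : ((eS B (S \ I)).card : ℝ) + (S \ I).card ≤ (eS B S).card := by exact_mod_cast hc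
    have h5 : ((S \ I).card : ℝ) = S.card - I.card := by linarith
    rw [h5] at h1 h4
    push_cast
    have h6 : ((j : ℝ) + 1) * I.card ≤ ((j : ℝ) + 1) * m :=
      mul_le_mul_of_nonneg_left h2 (by positivity)
    nlinarith

/-- the function which is affine in every variable -/
noncomputable def FF (B : Base V E) (k : ℕ) (c : ℝ) (s : V → ℝ) : ℝ :=
  ∑ e, s (B.src e) * s (B.tgt e) - k * ∑ v, s v + c

theorem affine (B : Base V E) (hB : ∀ e, B.src e ≠ B.tgt e) (k : ℕ) (c : ℝ) (s : V → ℝ) (v : V) :
    FF B k c s = (1 - s v) * FF B k c (Function.update s v 0) +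
      s v * FF B k c (Function.update s v 1) := by
  have h1 : ∑ e, s (B.src e) * s (B.tgt e) =
      (1 - s v) * ∑ e, Function.update s v 0 (B.src e) * Function.update s v 0 (B.tgt e) +
      s v * ∑ e, Function.update s v 1 (B.src e) * Function.update s v 1 (B.tgt e) := by
    rw [Finset.mul_sum, Finset.mul_sum, ← Finset.sum_add_distrib]
    refine Finset.sum_congr rfl fun e _ => ?_
    by_cases h1 : B.src e = v
    · have h2 : B.tgt e ≠ v := fun h => hB e (h1.trans h.symm)
      rw [h1, Function.update_self, Function.update_self, Function.update_of_ne h2,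
        Function.update_of_ne h2]
      ring
    · by_cases h2 : B.tgt e = v
      · rw [h2, Function.update_self, Function.update_self, Function.update_of_ne h1,
          Function.update_of_ne h1]
        ring
      · rw [Function.update_of_ne h1, Function.update_of_ne h1, Function.update_of_ne h2,
          Function.update_of_ne h2]
        ring
  have h2 : ∑ w, s w = (1 - s v) * ∑ w, Function.update s v 0 w +
      s v * ∑ w, Function.update s v 1 w := by
    rw [Finset.mul_sum, Finset.mul_sum, ← Finset.sum_add_distrib]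
    refine Finset.sum_congr rfl fun w _ => ?_
    by_cases h1 : w = v
    · rw [h1, Function.update_self, Function.update_self]
      ring
    · rw [Function.update_of_ne h1, Function.update_of_ne h1]
      ring
  unfold FF
  rw [h1, h2]
  ring

theorem cube (B : Base V E) (hB : ∀ e, B.src e ≠ B.tgt e) (k : ℕ) (c : ℝ)
    (h0 : ∀ S : Finset V, 0 ≤ FF B k c (fun v => if v ∈ S then 1 else 0)) (T : Finset V) :
    ∀ s : V → ℝ, (∀ v, 0 ≤ s v ∧ s v ≤ 1) → (∀ v, v ∉ T → s v = 0 ∨ s v = 1) →
      0 ≤ FF B k c s := by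
  induction T using Finset.induction_on with
  | empty =>
    intro s _ hs
    have h1 : s = fun v => if v ∈ univ.filter (fun v => s v = 1) then 1 else 0 := by
      funext v
      rcases hs v (Finset.notMem_empty v) with h | h
      · simp [h]
      · simp [h]
    rw [h1]
    exact h0 _
  | insert a T ha ih =>
    intro s hs1 hs
    rw [affine B hB k c s a]
    have key : ∀ t : ℝ, (t = 0 ∨ t = 1) → 0 ≤ FF B k c (Function.update s a t) := by
      intro t ht
      apply ih
      · intro v
        by_cases h : v = a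
        · rw [h, Function.update_self]
          rcases ht with rfl | rfl <;> norm_num
        · rw [Function.update_of_ne h]
          exact hs1 v
      · intro v hv
        by_cases h : v = a
        · rw [h, Function.update_self]
          exact ht
        · rw [Function.update_of_ne h]
          exact hs v (by rw [Finset.mem_insert]; tauto)
    have h1 := hs1 a
    exact add_nonneg (mul_nonneg (by linarith) (key 0 (Or.inl rfl)))
      (mul_nonneg h1.1 (key 1 (Or.inr rfl)))

end WAux

open WAux

theorem stW : StW := by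
  intro δ hδ
  set k : ℕ := ⌈2 / δ⌉₊ with hk
  have hk1 : 2 / δ ≤ (k : ℝ) := Nat.le_ceil _
  have hk0 : (0 : ℝ) < k := lt_of_lt_of_le (by positivity) hk1
  have hk2 : 2 ≤ (k : ℝ) * δ := by
    rwa [div_le_iff₀ hδ] at hk1
  refine ⟨1 / ((k : ℝ) * (k + 1)), by positivity, ?_⟩
  intro V E _ _ _ _ B hB hI s hs hsum
  set m : ℝ := 1 / ((k : ℝ) * (k + 1)) * Fintype.card V with hm
  have hsets := sets B hB m (fun I h => hI I h) k
  have hkm : (k : ℝ) * (k + 1) / 2 * m = Fintype.card V / 2 := by
    rw [hm]
    have : (k : ℝ) + 1 ≠ 0 := by positivity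
    field_simp
  have h0 : ∀ S : Finset V, 0 ≤ FF B k (Fintype.card V / 2)
      (fun v => if v ∈ S then 1 else 0) := by
    intro S
    have h1 : ∑ e, (if B.src e ∈ S then (1 : ℝ) else 0) * (if B.tgt e ∈ S then 1 else 0) =
        ((eS B S).card : ℝ) := by
      unfold eS
      rw [← Finset.sum_boole]
      refine Finset.sum_congr rfl fun e _ => ?_
      by_cases h1 : B.src e ∈ S <;> by_cases h2 : B.tgt e ∈ S <;> simp [h1, h2]
    have h2 : ∑ v, (if v ∈ S then (1 : ℝ) else 0) = S.card := by
      rw [Finset.sum_boole]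
      simp
    unfold FF
    rw [h1, h2]
    have := hsets S
    rw [hkm] at this
    linarith
  have h1 := cube B hB k (Fintype.card V / 2) h0 univ s hs (fun v hv => absurd (mem_univ v) hv)
  unfold FF at h1
  have h2 : 2 * (Fintype.card V : ℝ) ≤ k * ∑ v, s v := by
    calc 2 * (Fintype.card V : ℝ) ≤ (k * δ) * Fintype.card V :=
          mul_le_mul_of_nonneg_right hk2 (Nat.cast_nonneg _)
      _ = k * (δ * Fintype.card V) := by ring
      _ ≤ k * ∑ v, s v := mul_le_mul_of_nonneg_left hsum hk0.le
  linarith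

end Pool.Agent.Lib.MP_cff830_lc.Deg
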